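import Pool.Agent.Lib.MP_1beec2_gt.GA

/-!
Module AA (conjugate entries are bounded). g in arithH4: write g_ij = a_ij + b_ij phi (unique,
phi is irrational), N_ij = a_ij + b_ij psi (psi = Real.goldenConj). The relations
sum_k d_k g_ki g_kj = d_i delta_ij with d = (1,1,1,1,-(4 phi+2)) are relations in Z[phi]; their
conjugates are sum_k d'_k N_ki N_kj = d'_i delta_ij with d' = (1,1,1,1,-(4 psi + 2)), and
-(4 psi + 2) = 2 sqrt 5 - 4 lies in (0.47, 0.48). So for each column j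
N_0j^2 + .. + N_3j^2 + 0.47 N_4j^2 ≤ 1 and all |N_ij| ≤ 2.
AA_finite: for every B there are finitely many t = a + b phi with |t| ≤ B and |a + b psi| ≤ 2
(b = (t - t')/sqrt 5 and a = t - b phi are bounded integers).
-/

namespace NSep

theorem AA_indep {P Q : ℤ} (h : (P : ℝ) + Q * Real.goldenRatio = 0) : P = 0 ∧ Q = 0 := by
  have hQ : Q = 0 := by
    by_contra hQ
    have hQ' : (Q : ℝ) ≠ 0 := by exact_mod_cast hQ
    have h2 : Irrational ((Q : ℝ) * Real.goldenRatio) :=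
      Real.goldenRatio_irrational.intCast_mul hQ
    apply h2
    refine ⟨-(P : ℚ), ?_⟩
    push_cast
    linarith
  subst hQ
  refine ⟨?_, rfl⟩
  have h3 : (P : ℝ) = 0 := by simpa using h
  exact_mod_cast h3

theorem AA_conj_bounds : (1 : ℝ) / 4 ≤ -(4 * Real.goldenConj + 2) ∧
    -(4 * Real.goldenConj + 2) ≤ 1 / 2 := by
  have h1 : (2.2 : ℝ) < √5 := by
    rw [Real.lt_sqrt (by norm_num)]; norm_num
  have h2 : √5 < (2.25 : ℝ) := by
    rw [Real.sqrt_lt' (by norm_num)]; norm_num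
  unfold Real.goldenConj
  constructor <;> linarith

/-- the conjugate of the relation of one column -/
theorem AA_col (a b : Fin 5 → ℤ) (p q : ℤ)
    (h : bil (fun k => (a k : ℝ) + b k * Real.goldenRatio)
      (fun k => (a k : ℝ) + b k * Real.goldenRatio) = p + q * Real.goldenRatio) :
    ((a 0 : ℝ) + b 0 * Real.goldenConj) ^ 2 + ((a 1 : ℝ) + b 1 * Real.goldenConj) ^ 2 +
    ((a 2 : ℝ) + b 2 * Real.goldenConj) ^ 2 + ((a 3 : ℝ) + b 3 * Real.goldenConj) ^ 2 +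
    -(4 * Real.goldenConj + 2) * ((a 4 : ℝ) + b 4 * Real.goldenConj) ^ 2 =
      p + q * Real.goldenConj := by
  have hs := Real.goldenRatio_sq
  have hc := Real.goldenConj_sq
  have key : (((a 0 ^ 2 + b 0 ^ 2 + a 1 ^ 2 + b 1 ^ 2 + a 2 ^ 2 + b 2 ^ 2 + a 3 ^ 2 + b 3 ^ 2
      - 2 * (a 4 ^ 2 + b 4 ^ 2) - 4 * (2 * a 4 * b 4 + b 4 ^ 2) - p : ℤ) : ℝ)) +
      ((2 * a 0 * b 0 + b 0 ^ 2 + 2 * a 1 * b 1 + b 1 ^ 2 + 2 * a 2 * b 2 + b 2 ^ 2
        + 2 * a 3 * b 3 + b 3 ^ 2 - 4 * (a 4 ^ 2 + b 4 ^ 2)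
        - 6 * (2 * a 4 * b 4 + b 4 ^ 2) - q : ℤ) : ℝ) * Real.goldenRatio = 0 := by
    unfold bil at h
    push_cast
    have hcube : Real.goldenRatio ^ 3 = 2 * Real.goldenRatio + 1 := by
      linear_combination (Real.goldenRatio + 1) * hs
    linear_combination h - ((b 0 : ℝ) ^ 2 + b 1 ^ 2 + b 2 ^ 2 + b 3 ^ 2) * hs
      + (2 * (b 4 : ℝ) ^ 2 + 8 * a 4 * b 4) * hs + 4 * (b 4 : ℝ) ^ 2 * hcube
  obtain ⟨h1, h2⟩ := AA_indep key
  have h1' : (((a 0 ^ 2 + b 0 ^ 2 + a 1 ^ 2 + b 1 ^ 2 + a 2 ^ 2 + b 2 ^ 2 + a 3 ^ 2 + b 3 ^ 2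
      - 2 * (a 4 ^ 2 + b 4 ^ 2) - 4 * (2 * a 4 * b 4 + b 4 ^ 2) - p : ℤ) : ℝ)) = 0 := by
    rw [h1]; simp
  have h2' : ((2 * a 0 * b 0 + b 0 ^ 2 + 2 * a 1 * b 1 + b 1 ^ 2 + 2 * a 2 * b 2 + b 2 ^ 2
        + 2 * a 3 * b 3 + b 3 ^ 2 - 4 * (a 4 ^ 2 + b 4 ^ 2)
        - 6 * (2 * a 4 * b 4 + b 4 ^ 2) - q : ℤ) : ℝ) = 0 := by
    rw [h2]; simp
  push_cast at h1' h2'
  have hcube : Real.goldenConj ^ 3 = 2 * Real.goldenConj + 1 := by
    linear_combination (Real.goldenConj + 1) * hc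
  linear_combination h1' + Real.goldenConj * h2'
    + ((b 0 : ℝ) ^ 2 + b 1 ^ 2 + b 2 ^ 2 + b 3 ^ 2) * hc
    - (2 * (b 4 : ℝ) ^ 2 + 8 * a 4 * b 4) * hc - 4 * (b 4 : ℝ) ^ 2 * hcube

theorem AA_app_single (g : GL (Fin 5) ℝ) (j k : Fin 5) :
    app g (Pi.single j 1) k = (g : Matrix (Fin 5) (Fin 5) ℝ) k j := by
  simp [app]

theorem AA_bil_single (j : Fin 5) : ∃ p q : ℤ,
    bil (Pi.single j 1) (Pi.single j 1) = p + q * Real.goldenRatio ∧
    (p : ℝ) + q * Real.goldenConj ≤ 1 := by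
  have hb := AA_conj_bounds
  fin_cases j
  · exact ⟨1, 0, by simp [bil], by simp⟩
  · exact ⟨1, 0, by simp [bil], by simp⟩
  · exact ⟨1, 0, by simp [bil], by simp⟩
  · exact ⟨1, 0, by simp [bil], by simp⟩
  · refine ⟨-2, -4, ?_, ?_⟩
    · simp [bil]
    · push_cast; linarith [hb.2]

theorem AA_conj (g : GL (Fin 5) ℝ) (hg : g ∈ arithH4) (i j : Fin 5) :
    ∃ a b : ℤ, (g : Matrix (Fin 5) (Fin 5) ℝ) i j = a + b * Real.goldenRatio ∧
      |(a : ℝ) + b * Real.goldenConj| ≤ 2 := by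
  choose a b hab using fun k => hg.2.1 k j
  have hcol : app g (Pi.single j 1) = fun k => (a k : ℝ) + b k * Real.goldenRatio := by
    funext k
    rw [AA_app_single, hab k]
  obtain ⟨p, q, hpq, hle⟩ := AA_bil_single j
  have h1 := AA_col a b p q (by rw [← hcol, hg.1.1, hpq])
  have hb := AA_conj_bounds
  refine ⟨a i, b i, hab i, ?_⟩
  rw [← sq_le_sq₀ (abs_nonneg _) (by norm_num), sq_abs]
  set κ := -(4 * Real.goldenConj + 2)
  have e0 := sq_nonneg ((a 0 : ℝ) + b 0 * Real.goldenConj)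
  have e1 := sq_nonneg ((a 1 : ℝ) + b 1 * Real.goldenConj)
  have e2 := sq_nonneg ((a 2 : ℝ) + b 2 * Real.goldenConj)
  have e3 := sq_nonneg ((a 3 : ℝ) + b 3 * Real.goldenConj)
  have e4 := sq_nonneg ((a 4 : ℝ) + b 4 * Real.goldenConj)
  have e5 : (1 : ℝ) / 4 * ((a 4 : ℝ) + b 4 * Real.goldenConj) ^ 2 ≤
      κ * ((a 4 : ℝ) + b 4 * Real.goldenConj) ^ 2 := mul_le_mul_of_nonneg_right hb.1 e4
  fin_cases i <;> simp only [Fin.zero_eta, Fin.mk_one, Fin.reduceFinMk] <;> linarith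

theorem AA_finite (B : ℝ) : {t : ℝ | ∃ a b : ℤ, t = a + b * Real.goldenRatio ∧ |t| ≤ B ∧
    |(a : ℝ) + b * Real.goldenConj| ≤ 2}.Finite := by
  have hfin : ((fun p : ℤ × ℤ => (p.1 : ℝ) + p.2 * Real.goldenRatio) ''
      ((Set.Icc (-(⌈B⌉ + 4)) (⌈B⌉ + 4)) ×ˢ (Set.Icc (-(⌈B⌉ + 4)) (⌈B⌉ + 4)))).Finite :=
    ((Set.finite_Icc _ _).prod (Set.finite_Icc _ _)).image _
  refine hfin.subset ?_
  rintro t ⟨a, b, rfl, h1, h2⟩
  have hB := Int.le_ceil B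
  have h5 : (2 : ℝ) < √5 := by
    rw [Real.lt_sqrt (by norm_num)]; norm_num
  have h6 := Real.goldenRatio_sub_goldenConj
  have hb : |(b : ℝ)| ≤ B + 2 := by
    have e1 : (b : ℝ) * √5 = ((a : ℝ) + b * Real.goldenRatio) - (a + b * Real.goldenConj) := by
      rw [← h6]; ring
    have e2 : |(b : ℝ)| * √5 ≤ B + 2 := by
      have : |(b : ℝ)| * √5 = |(b : ℝ) * √5| := by
        rw [abs_mul, abs_of_pos (by linarith : (0 : ℝ) < √5)]
      rw [this, e1]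
      exact (abs_sub _ _).trans (add_le_add h1 h2)
    nlinarith [abs_nonneg (b : ℝ)]
  have ha : |(a : ℝ)| ≤ B + 4 := by
    have e1 : (a : ℝ) = (a + b * Real.goldenConj) - b * Real.goldenConj := by ring
    have e2 : |(b : ℝ) * Real.goldenConj| ≤ B + 2 := by
      rw [abs_mul]
      have : |Real.goldenConj| ≤ 1 := by
        rw [abs_le]
        exact ⟨Real.neg_one_lt_goldenConj.le, by linarith [Real.goldenConj_neg]⟩
      calc |(b : ℝ)| * |Real.goldenConj| ≤ |(b : ℝ)| * 1 :=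
            mul_le_mul_of_nonneg_left this (abs_nonneg _)
        _ ≤ B + 2 := by linarith
    rw [e1]
    refine (abs_sub _ _).trans ?_
    linarith
  refine ⟨(a, b), ⟨?_, ?_⟩, rfl⟩
  · rw [abs_le] at ha
    have h7 : (a : ℝ) ≤ ((⌈B⌉ + 4 : ℤ) : ℝ) := by push_cast; linarith [ha.2]
    have h8 : (((-(⌈B⌉ + 4) : ℤ)) : ℝ) ≤ a := by push_cast; linarith [ha.1]
    exact ⟨by exact_mod_cast h8, by exact_mod_cast h7⟩
  · rw [abs_le] at hb
    have h7 : (b : ℝ) ≤ ((⌈B⌉ + 4 : ℤ) : ℝ) := by push_cast; linarith [hb.2]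
    have h8 : (((-(⌈B⌉ + 4) : ℤ)) : ℝ) ≤ b := by push_cast; linarith [hb.1]
    exact ⟨by exact_mod_cast h8, by exact_mod_cast h7⟩

end NSep
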