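import Pool.Agent.Lib.MP_1beec2_gt.AA

/-!
Module AB (proper discontinuity). For y in hyp4 put q y v := bil v v + 2 (bil v y)^2: positive
definite (for v ≠ 0: decompose v = t y + w with bil w y = 0, q y v = t^2 + bil w w, and
bil w w > 0 for w ≠ 0 by Cauchy-Schwarz), continuous in (y, v); for g in isomH4:
q (g y) (g v) = q y v. C compact in hyp4, S the unit sphere: q has a positive minimum m on C × S
and a maximum m' on C × S, so m |v|^2 ≤ q y v ≤ m' |v|^2 for y in C. If y, g y in C: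
m |g v|^2 ≤ q (g y) (g v) = q y v ≤ m' |v|^2: the entries of g are bounded (AB_bound).
AB_disc: the entries then lie in a finite set (AA_conj, AA_finite), so finitely many g.
-/

namespace NSep

/-- the positive definite form of a point of hyperbolic space -/
noncomputable def AB_q (y v : Fin 5 → ℝ) : ℝ := bil v v + 2 * (bil v y) ^ 2

theorem AB_ineq {A x R p K q s2 : ℝ} (hA : 0 ≤ A) (hR : 0 ≤ R) (hCS : x ^ 2 ≤ R * A)
    (hK : K = R + 1) (hs : K * s2 = (x - p) ^ 2) (hs0 : 0 ≤ s2) (hq : q = A - s2 + 2 * p ^ 2) :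
    A ≤ 4 * K * q ∧ s2 ≤ 4 * K * q := by
  have h1 : 0 ≤ A / 2 + 2 * x * p + 2 * R * p ^ 2 := by
    rcases hA.eq_or_lt with h | h
    · rw [← h] at hCS ⊢
      have hx : x = 0 := by nlinarith [sq_nonneg x]
      rw [hx]; have := mul_nonneg hR (sq_nonneg p); linarith
    · have h2 : 0 ≤ A * (A / 2 + 2 * x * p + 2 * R * p ^ 2) := by
        nlinarith [sq_nonneg (A + 2 * x * p), mul_le_mul_of_nonneg_right hCS (sq_nonneg p)]
      exact nonneg_of_mul_nonneg_right h2 h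
  have h2 : A / 2 + p ^ 2 ≤ K * q := by
    rw [hq]
    have : K * (A - s2 + 2 * p ^ 2) = K * A - (x - p) ^ 2 + 2 * K * p ^ 2 := by
      rw [← hs]; ring
    rw [this, hK]
    nlinarith
  have h3 : 0 ≤ K * q := by nlinarith [sq_nonneg p]
  refine ⟨by nlinarith [sq_nonneg p], ?_⟩
  have hK1 : 1 ≤ K := by linarith
  have h4 : K * s2 ≤ K * (4 * (K * q)) := by
    rw [hs]
    have h5 : (x - p) ^ 2 ≤ 2 * x ^ 2 + 2 * p ^ 2 := by nlinarith [sq_nonneg (x + p)]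
    have h6 : 2 * x ^ 2 + 2 * p ^ 2 ≤ K * (4 * (A / 2 + p ^ 2)) := by
      have : 2 * R * A ≤ 2 * K * A := by rw [hK]; nlinarith
      nlinarith [sq_nonneg p, mul_nonneg (sub_nonneg.2 hK1) (sq_nonneg p)]
    have h7 : K * (4 * (A / 2 + p ^ 2)) ≤ K * (4 * (K * q)) :=
      mul_le_mul_of_nonneg_left (by linarith) (by linarith)
    linarith
  have h5 := le_of_mul_le_mul_left h4 (by linarith)
  linarith

theorem AB_coord (y v : Fin 5 → ℝ) (hy : y ∈ hyp4) (i : Fin 5) :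
    v i ^ 2 ≤ 4 * ((4 * Real.goldenRatio + 2) * y 4 ^ 2) * AB_q y v := by
  have hk : 1 ≤ 4 * Real.goldenRatio + 2 := by linarith [Real.goldenRatio_pos]
  obtain ⟨hy1, hy2⟩ := hy
  unfold bil at hy1
  have h := AB_ineq (A := v 0 ^ 2 + v 1 ^ 2 + v 2 ^ 2 + v 3 ^ 2)
    (x := v 0 * y 0 + v 1 * y 1 + v 2 * y 2 + v 3 * y 3)
    (R := y 0 ^ 2 + y 1 ^ 2 + y 2 ^ 2 + y 3 ^ 2) (p := bil v y)
    (K := (4 * Real.goldenRatio + 2) * y 4 ^ 2) (q := AB_q y v)
    (s2 := (4 * Real.goldenRatio + 2) * v 4 ^ 2) (by positivity) (by positivity)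
    (by nlinarith [sq_nonneg (v 0 * y 1 - v 1 * y 0), sq_nonneg (v 0 * y 2 - v 2 * y 0),
      sq_nonneg (v 0 * y 3 - v 3 * y 0), sq_nonneg (v 1 * y 2 - v 2 * y 1),
      sq_nonneg (v 1 * y 3 - v 3 * y 1), sq_nonneg (v 2 * y 3 - v 3 * y 2)])
    (by linear_combination (-1 : ℝ) * hy1) (by unfold bil; ring) (by positivity)
    (by unfold AB_q bil; ring)
  have h4 : v 4 ^ 2 ≤ (4 * Real.goldenRatio + 2) * v 4 ^ 2 := by
    nlinarith [sq_nonneg (v 4)]
  have e0 := sq_nonneg (v 0)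
  have e1 := sq_nonneg (v 1)
  have e2 := sq_nonneg (v 2)
  have e3 := sq_nonneg (v 3)
  obtain ⟨h1, h2⟩ := h
  fin_cases i <;> simp only [Fin.zero_eta, Fin.mk_one, Fin.reduceFinMk] <;> linarith

theorem AB_q_invariant (g : GL (Fin 5) ℝ) (hg : g ∈ isomH4) (y v : Fin 5 → ℝ) :
    AB_q (app g y) (app g v) = AB_q y v := by
  unfold AB_q
  rw [hg.1, hg.1]

theorem AB_q_continuous (v : Fin 5 → ℝ) : Continuous fun y => AB_q y v := by
  unfold AB_q bil
  fun_prop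

theorem AB_bound (C : Set (Fin 5 → ℝ)) (hC : C ⊆ hyp4) (hC' : IsCompact C) :
    ∃ B : ℝ, ∀ g ∈ isomH4, ∀ y ∈ C, app g y ∈ C →
      ∀ i j, |(g : Matrix (Fin 5) (Fin 5) ℝ) i j| ≤ B := by
  obtain ⟨M1, hM1⟩ := hC'.bddAbove_image
    (f := fun y : Fin 5 → ℝ => 4 * ((4 * Real.goldenRatio + 2) * y 4 ^ 2))
    (by fun_prop)
  obtain ⟨M2, hM2⟩ := hC'.bddAbove_image
    (f := fun y : Fin 5 → ℝ => ∑ j, |AB_q y (Pi.single j 1)|)
    (Continuous.continuousOn (continuous_finsetSum _ fun j _ =>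
      (AB_q_continuous (Pi.single j 1)).abs))
  refine ⟨|M1| * |M2| + 1, fun g hg y hy hgy i j => ?_⟩
  have h1 := AB_coord (app g y) (app g (Pi.single j 1)) (hC hgy) i
  rw [AB_q_invariant g hg, AA_app_single] at h1
  have h2 : 4 * ((4 * Real.goldenRatio + 2) * app g y 4 ^ 2) ≤ |M1| :=
    (hM1 ⟨_, hgy, rfl⟩).trans (le_abs_self _)
  have h3 : AB_q y (Pi.single j 1) ≤ |M2| := by
    refine (le_abs_self _).trans ?_
    refine (Finset.single_le_sum (f := fun j => |AB_q y (Pi.single j 1)|)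
      (fun _ _ => abs_nonneg _) (Finset.mem_univ j)).trans ?_
    exact (hM2 ⟨_, hy, rfl⟩).trans (le_abs_self _)
  have hk : 0 ≤ 4 * Real.goldenRatio + 2 := by linarith [Real.goldenRatio_pos]
  have h4 : (g : Matrix (Fin 5) (Fin 5) ℝ) i j ^ 2 ≤ |M1| * |M2| := by
    refine h1.trans ?_
    calc _ ≤ 4 * ((4 * Real.goldenRatio + 2) * app g y 4 ^ 2) * |M2| :=
          mul_le_mul_of_nonneg_left h3 (by positivity)
      _ ≤ |M1| * |M2| := mul_le_mul_of_nonneg_right h2 (abs_nonneg _)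
  rw [abs_le]
  constructor <;> nlinarith [sq_nonneg ((g : Matrix (Fin 5) (Fin 5) ℝ) i j - 1),
    sq_nonneg ((g : Matrix (Fin 5) (Fin 5) ℝ) i j + 1)]

theorem AB_disc (C : Set (Fin 5 → ℝ)) (hC : C ⊆ hyp4) (hC' : IsCompact C) :
    {g : GL (Fin 5) ℝ | g ∈ arithH4 ∧ ∃ y ∈ C, app g y ∈ C}.Finite := by
  obtain ⟨B, hB⟩ := AB_bound C hC hC'
  have hS := AA_finite B
  set S := {t : ℝ | ∃ a b : ℤ, t = a + b * Real.goldenRatio ∧ |t| ≤ B ∧
    |(a : ℝ) + b * Real.goldenConj| ≤ 2}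
  have hfin : (Set.univ.pi fun _ : Fin 5 => Set.univ.pi fun _ : Fin 5 => S).Finite :=
    Set.Finite.pi fun _ => Set.Finite.pi fun _ => hS
  have hinj : Set.InjOn (fun g : GL (Fin 5) ℝ => fun i j => (g : Matrix (Fin 5) (Fin 5) ℝ) i j)
      ((fun g : GL (Fin 5) ℝ => fun i j => (g : Matrix (Fin 5) (Fin 5) ℝ) i j) ⁻¹'
        (Set.univ.pi fun _ : Fin 5 => Set.univ.pi fun _ : Fin 5 => S)) := by
    intro g _ h _ hgh
    apply Units.ext
    ext i j
    exact congrFun (congrFun hgh i) j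
  refine (hfin.preimage hinj).subset ?_
  rintro g ⟨hg, y, hy, hgy⟩
  simp only [Set.mem_preimage, Set.mem_pi, Set.mem_univ, true_imp_iff]
  intro i j
  obtain ⟨a, b, h1, h2⟩ := AA_conj g hg i j
  exact ⟨a, b, h1, hB g hg.1 y hy hgy i j, h2⟩

end NSep
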