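import Pool.Agent.Lib.MP_1beec2_gt.Defs

/-!
Module AC (covering by the vectors (2,0,0,0), (1,1,1,1), (phi,1,phi-1,0) with all permutations and
signs; the minimum over unit u of the maximum of (w.u)^2 is 3.427.., we need 13/4).
-/

namespace NSep

theorem AC_case1 (p q r s : ℝ) (h1 : q ≤ p) (h2 : r ≤ q) (h3 : s ≤ r) (h4 : 0 ≤ s)
    (h : 5 / 2 * q + 5 / 6 * r + 2 / 3 * s ≤ p) :
    13 / 4 * (p ^ 2 + q ^ 2 + r ^ 2 + s ^ 2) ≤ (2 * p) ^ 2 := by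
  obtain ⟨b, hb, rfl⟩ : ∃ b, 0 ≤ b ∧ q = r + b := ⟨q - r, by linarith, by ring⟩
  obtain ⟨c, hc, rfl⟩ : ∃ c, 0 ≤ c ∧ r = s + c := ⟨r - s, by linarith, by ring⟩
  have h5 : 0 ≤ 5 / 2 * (s + c + b) + 5 / 6 * (s + c) + 2 / 3 * s := by positivity
  have h6 : (5 / 2 * (s + c + b) + 5 / 6 * (s + c) + 2 / 3 * s) ^ 2 ≤ p ^ 2 := pow_le_pow_left₀ h5 h 2
  have h7 : 13 * ((s + c + b) ^ 2 + (s + c) ^ 2 + s ^ 2) ≤
      3 * (5 / 2 * (s + c + b) + 5 / 6 * (s + c) + 2 / 3 * s) ^ 2 := by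
    have := mul_nonneg hb hc
    have := mul_nonneg hb h4
    have := mul_nonneg hc h4
    nlinarith [sq_nonneg b, sq_nonneg c, sq_nonneg s]
  nlinarith

theorem AC_case2 (p q r s : ℝ) (h1 : q ≤ p) (h2 : r ≤ q) (h3 : s ≤ r) (h4 : 0 ≤ s)
    (h : 63 * p + 14 * q ≤ 44 * r + 110 * s) :
    13 / 4 * (p ^ 2 + q ^ 2 + r ^ 2 + s ^ 2) ≤ (p + q + r + s) ^ 2 := by
  obtain ⟨a, ha, rfl⟩ : ∃ a, 0 ≤ a ∧ p = q + a := ⟨p - q, by linarith, by ring⟩
  obtain ⟨b, hb, rfl⟩ : ∃ b, 0 ≤ b ∧ q = r + b := ⟨q - r, by linarith, by ring⟩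
  obtain ⟨c, hc, rfl⟩ : ∃ c, 0 ≤ c ∧ r = s + c := ⟨r - s, by linarith, by ring⟩
  nlinarith [mul_nonneg ha hb, mul_nonneg ha hc, mul_nonneg ha h4, mul_nonneg hb hc,
    mul_nonneg hb h4, mul_nonneg hc h4, mul_nonneg ha (sub_nonneg.2 h), mul_nonneg hb (sub_nonneg.2 h),
    mul_nonneg hc (sub_nonneg.2 h), mul_nonneg h4 (sub_nonneg.2 h), sq_nonneg a, sq_nonneg b, sq_nonneg c]

theorem AC_case3 (p q r s : ℝ) (h1 : q ≤ p) (h2 : r ≤ q) (h3 : s ≤ r) (h4 : 0 ≤ s)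
    (h : p ≤ 5 / 2 * q + 5 / 6 * r + 2 / 3 * s) (h' : 44 * r + 110 * s ≤ 63 * p + 14 * q) :
    13 / 4 * (p ^ 2 + q ^ 2 + r ^ 2 + s ^ 2) ≤ (1618 / 1000 * p + q + 618 / 1000 * r) ^ 2 := by
  obtain ⟨a, ha, rfl⟩ : ∃ a, 0 ≤ a ∧ p = q + a := ⟨p - q, by linarith, by ring⟩
  obtain ⟨b, hb, rfl⟩ : ∃ b, 0 ≤ b ∧ q = r + b := ⟨q - r, by linarith, by ring⟩
  obtain ⟨c, hc, rfl⟩ : ∃ c, 0 ≤ c ∧ r = s + c := ⟨r - s, by linarith, by ring⟩
  nlinarith [mul_nonneg ha hb, mul_nonneg ha hc, mul_nonneg ha h4, mul_nonneg hb hc,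
    mul_nonneg hb h4, mul_nonneg hc h4, mul_nonneg ha (sub_nonneg.2 h), mul_nonneg hb (sub_nonneg.2 h),
    mul_nonneg hc (sub_nonneg.2 h), mul_nonneg h4 (sub_nonneg.2 h), mul_nonneg ha (sub_nonneg.2 h'),
    mul_nonneg hb (sub_nonneg.2 h'), mul_nonneg hc (sub_nonneg.2 h'), mul_nonneg h4 (sub_nonneg.2 h'),
    mul_nonneg (sub_nonneg.2 h) (sub_nonneg.2 h'), sq_nonneg a, sq_nonneg b, sq_nonneg c]

theorem AC_sorted (p q r s : ℝ) (h1 : q ≤ p) (h2 : r ≤ q) (h3 : s ≤ r) (h4 : 0 ≤ s) :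
    13 / 4 * (p ^ 2 + q ^ 2 + r ^ 2 + s ^ 2) ≤ (2 * p) ^ 2 ∨
    13 / 4 * (p ^ 2 + q ^ 2 + r ^ 2 + s ^ 2) ≤ (p + q + r + s) ^ 2 ∨
    13 / 4 * (p ^ 2 + q ^ 2 + r ^ 2 + s ^ 2) ≤
      (Real.goldenRatio * p + q + (Real.goldenRatio - 1) * r) ^ 2 := by
  rcases le_total (5 / 2 * q + 5 / 6 * r + 2 / 3 * s) p with h | h
  · exact Or.inl (AC_case1 p q r s h1 h2 h3 h4 h)
  rcases le_total (63 * p + 14 * q) (44 * r + 110 * s) with h' | h'
  · exact Or.inr (Or.inl (AC_case2 p q r s h1 h2 h3 h4 h'))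
  · refine Or.inr (Or.inr ((AC_case3 p q r s h1 h2 h3 h4 h h').trans ?_))
    have h5 : (1618 / 1000 : ℝ) ≤ Real.goldenRatio := by
      rw [Real.goldenRatio]
      have : (2236 / 1000 : ℝ) ≤ √5 := by
        apply Real.le_sqrt_of_sq_le
        norm_num
      linarith
    have hr : 0 ≤ r := h4.trans h3
    have hq : 0 ≤ q := hr.trans h2
    have hp : 0 ≤ p := hq.trans h1
    apply pow_le_pow_left₀ (by positivity)
    have h6 : 1618 / 1000 * p ≤ Real.goldenRatio * p := mul_le_mul_of_nonneg_right h5 hp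
    have h7 : 618 / 1000 * r ≤ (Real.goldenRatio - 1) * r :=
      mul_le_mul_of_nonneg_right (by linarith) hr
    linarith

theorem AC_perm (u : Fin 4 → ℝ) (σ : Equiv.Perm (Fin 4)) (c : Fin 4 → ℝ)
    (hc : ∀ i, isZphi (c i)) (hc2 : ∑ i, c i ^ 2 = 4) (h0 : 0 ≤ ∑ i, c i * |u (σ i)|)
    (h : 13 / 4 * ∑ i, |u (σ i)| ^ 2 ≤ (∑ i, c i * |u (σ i)|) ^ 2) :
    ∃ w : Fin 4 → ℝ, (∀ i, isZphi (w i)) ∧ ∑ i, w i ^ 2 = 4 ∧
    0 ≤ ∑ i, w i * u i ∧ 13 / 4 * ∑ i, u i ^ 2 ≤ (∑ i, w i * u i) ^ 2 := by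
  classical
  set e : Fin 4 → ℝ := fun i => if 0 ≤ u i then 1 else -1 with he
  have he1 : ∀ i, e i ^ 2 = 1 := by
    intro i; simp only [he]; split_ifs <;> norm_num
  have he2 : ∀ i, e i * u i = |u i| := by
    intro i; simp only [he]
    split_ifs with h
    · rw [abs_of_nonneg h, one_mul]
    · rw [abs_of_neg (not_le.1 h)]; ring
  have he3 : ∀ i, isZphi (e i) := by
    intro i; simp only [he]
    split_ifs
    · exact isZphi_one
    · exact isZphi_one.neg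
  have e1 : ∑ i, c (σ.symm i) * e i * u i = ∑ i, c i * |u (σ i)| := by
    rw [← Equiv.sum_comp σ]
    refine Finset.sum_congr rfl fun i _ => ?_
    rw [σ.symm_apply_apply, mul_assoc, he2]
  have e2 : ∑ i, (c (σ.symm i) * e i) ^ 2 = ∑ i, c i ^ 2 := by
    rw [← Equiv.sum_comp σ]
    refine Finset.sum_congr rfl fun i _ => ?_
    rw [σ.symm_apply_apply, mul_pow, he1, mul_one]
  have e3 : ∑ i, |u (σ i)| ^ 2 = ∑ i, u i ^ 2 := by
    rw [← Equiv.sum_comp σ (fun i => u i ^ 2)]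
    refine Finset.sum_congr rfl fun i _ => ?_
    rw [sq_abs]
  refine ⟨fun i => c (σ.symm i) * e i, fun i => (hc _).mul (he3 i), by rw [e2, hc2], ?_, ?_⟩
  · rw [e1]; exact h0
  · rw [e1, ← e3]; exact h

theorem AC_cover (u : Fin 4 → ℝ) : ∃ w : Fin 4 → ℝ, (∀ i, isZphi (w i)) ∧ ∑ i, w i ^ 2 = 4 ∧
    0 ≤ ∑ i, w i * u i ∧ 13 / 4 * ∑ i, u i ^ 2 ≤ (∑ i, w i * u i) ^ 2 := by
  set σ := Tuple.sort (fun i => -|u i|) with hσ
  have hm : Monotone ((fun i => -|u i|) ∘ σ) := Tuple.monotone_sort _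
  have h1 : |u (σ 1)| ≤ |u (σ 0)| := by
    have := hm (show (0 : Fin 4) ≤ 1 by decide); simpa using this
  have h2 : |u (σ 2)| ≤ |u (σ 1)| := by
    have := hm (show (1 : Fin 4) ≤ 2 by decide); simpa using this
  have h3 : |u (σ 3)| ≤ |u (σ 2)| := by
    have := hm (show (2 : Fin 4) ≤ 3 by decide); simpa using this
  have h4 : 0 ≤ |u (σ 3)| := abs_nonneg _
  have hphi : 0 ≤ Real.goldenRatio - 1 := by
    have := Real.one_lt_goldenRatio; linarith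
  have hphi' : 0 ≤ Real.goldenRatio := Real.goldenRatio_pos.le
  have hn := fun i => abs_nonneg (u (σ i))
  have z2 : isZphi 2 := ⟨2, 0, by simp⟩
  have zp : isZphi Real.goldenRatio := ⟨0, 1, by simp⟩
  have zp1 : isZphi (Real.goldenRatio - 1) := ⟨-1, 1, by push_cast; ring⟩
  rcases AC_sorted _ _ _ _ h1 h2 h3 h4 with h | h | h
  · refine AC_perm u σ ![2, 0, 0, 0] ?_ ?_ ?_ ?_
    · intro i; fin_cases i
      · exact z2
      · exact isZphi_zero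
      · exact isZphi_zero
      · exact isZphi_zero
    · simp [Fin.sum_univ_four]; norm_num
    · simp [Fin.sum_univ_four]
    · simp only [Fin.sum_univ_four]
      simpa using h
  · refine AC_perm u σ ![1, 1, 1, 1] ?_ ?_ ?_ ?_
    · intro i; fin_cases i <;> exact isZphi_one
    · simp [Fin.sum_univ_four]; norm_num
    · simp only [Fin.sum_univ_four]
      simp
      positivity
    · simp only [Fin.sum_univ_four]
      simpa using h
  · refine AC_perm u σ ![Real.goldenRatio, 1, Real.goldenRatio - 1, 0] ?_ ?_ ?_ ?_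
    · intro i; fin_cases i
      · exact zp
      · exact isZphi_one
      · exact zp1
      · exact isZphi_zero
    · simp [Fin.sum_univ_four]
      have := Real.goldenRatio_sq
      nlinarith
    · simp only [Fin.sum_univ_four]
      simp
      have := hn 0; have := hn 1; have := hn 2
      positivity
    · simp only [Fin.sum_univ_four]
      simpa using h

end NSep
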