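import Pool.Agent.Lib.MP_1beec2_gt.GA

/-!
Module GB (reflections). refl e is y ↦ y - bil y e • e as a matrix; for bil e e = 2 it is an
involution, so an element of GL (refl e is defined as 1 if bil e e ≠ 2).
GB_isom: bil (refl y) (refl z) = bil y z; y in hyp4: bil y (refl y) = -1 - (bil y e)^2 < 0, so
refl y in hyp4 by GA_time; the converse since refl is an involution.
GB_arith: entries of e in Z[phi]: the matrix of refl e has entries delta_ij - e_i d_j e_j with
d_j in {1, -(4 phi + 2)}; the inverse is the matrix itself.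
GB_comm: bil e e' = 0.
-/

namespace NSep
open Matrix

/-- the matrix of the reflection in e -/
noncomputable def reflM (e : Fin 5 → ℝ) : Matrix (Fin 5) (Fin 5) ℝ :=
  fun i j => (if i = j then 1 else 0) -
    e i * (e j * (if j = 4 then -(4 * Real.goldenRatio + 2) else 1))

theorem GB_mulVec (e y : Fin 5 → ℝ) : reflM e *ᵥ y = y - bil y e • e := by
  funext i
  simp only [Matrix.mulVec, dotProduct, reflM, bil, Pi.sub_apply, Pi.smul_apply, smul_eq_mul]
  fin_cases i <;> simp [Fin.sum_univ_five] <;> ring

theorem GB_inv (e y : Fin 5 → ℝ) (he : bil e e = 2) :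
    (y - bil y e • e) - bil (y - bil y e • e) e • e = y := by
  have h1 : bil (y - bil y e • e) e = - bil y e := by
    have h2 : y - bil y e • e = y + (- bil y e) • e := by
      rw [neg_smul, sub_eq_add_neg]
    rw [h2, GA_add, GA_smul, he]
    ring
  rw [h1, neg_smul, sub_neg_eq_add, sub_add_cancel]

theorem GB_ext (A B : Matrix (Fin 5) (Fin 5) ℝ) (h : ∀ y, A *ᵥ y = B *ᵥ y) : A = B := by
  ext i j
  have := congrFun (h (Pi.single j 1)) i
  simpa using this

theorem GB_sq (e : Fin 5 → ℝ) (he : bil e e = 2) : reflM e * reflM e = 1 := by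
  apply GB_ext
  intro y
  rw [← Matrix.mulVec_mulVec, GB_mulVec, GB_mulVec, GB_inv e y he, Matrix.one_mulVec]

/-- the reflection as an element of GL -/
noncomputable def refl (e : Fin 5 → ℝ) (he : bil e e = 2) : GL (Fin 5) ℝ :=
  ⟨reflM e, reflM e, GB_sq e he, GB_sq e he⟩

theorem refl_app (e : Fin 5 → ℝ) (he : bil e e = 2) (y : Fin 5 → ℝ) :
    app (refl e he) y = y - bil y e • e := GB_mulVec e y

theorem GB_refl_sq (e : Fin 5 → ℝ) (he : bil e e = 2) : refl e he * refl e he = 1 :=
  Units.ext (GB_sq e he)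

theorem GB_comm (e e' : Fin 5 → ℝ) (he : bil e e = 2) (he' : bil e' e' = 2)
    (h : bil e e' = 0) : refl e he * refl e' he' = refl e' he' * refl e he := by
  apply Units.ext
  apply GB_ext
  intro y
  change (reflM e * reflM e') *ᵥ y = (reflM e' * reflM e) *ᵥ y
  rw [← Matrix.mulVec_mulVec, ← Matrix.mulVec_mulVec, GB_mulVec, GB_mulVec, GB_mulVec, GB_mulVec]
  have h1 : ∀ (a : ℝ) (u v w : Fin 5 → ℝ), bil v w = 0 → bil (u - a • v) w = bil u w := by
    intro a u v w hvw
    have h2 : u - a • v = u + (- a) • v := by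
      rw [neg_smul, sub_eq_add_neg]
    rw [h2, GA_add, GA_smul, hvw]
    ring
  rw [h1 _ _ _ _ h, h1 _ _ _ _ (by rw [GA_comm]; exact h)]
  abel

theorem GB_sub_bil (a b : ℝ) (y z e : Fin 5 → ℝ) :
    bil (y - a • e) (z - b • e) = bil y z - b * bil y e - a * bil e z + a * b * bil e e := by
  unfold bil
  simp only [Pi.sub_apply, Pi.smul_apply, smul_eq_mul]
  ring

theorem GB_isom (e : Fin 5 → ℝ) (he : bil e e = 2) : refl e he ∈ isomH4 := by
  have hb : ∀ y z, bil (app (refl e he) y) (app (refl e he) z) = bil y z := by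
    intro y z
    rw [refl_app, refl_app, GB_sub_bil, he, GA_comm e z]
    ring
  have hh : ∀ y, y ∈ hyp4 → app (refl e he) y ∈ hyp4 := by
    intro y hy
    apply GA_time y _ hy
    · rw [hb]
      exact hy.1
    · rw [refl_app]
      have h1 : bil y (y - bil y e • e) = bil y y - bil y e * bil y e := by
        have h2 := GB_sub_bil 0 (bil y e) y y e
        simpa using h2
      rw [h1, hy.1]
      nlinarith [mul_self_nonneg (bil y e)]
  refine ⟨hb, fun y => ⟨fun h => ?_, hh y⟩⟩
  have h1 := hh _ h
  rwa [← app_mul, GB_refl_sq, app_one] at h1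

theorem GB_arith (e : Fin 5 → ℝ) (he : bil e e = 2) (hz : ∀ i, isZphi (e i)) :
    refl e he ∈ arithH4 := by
  have hent : ∀ i j, isZphi (reflM e i j) := by
    intro i j
    unfold reflM
    rw [sub_eq_add_neg]
    apply isZphi.add
    · split_ifs
      · exact isZphi_one
      · exact isZphi_zero
    · apply isZphi.neg
      apply (hz i).mul
      apply (hz j).mul
      split_ifs
      · exact ⟨-2, -4, by push_cast; ring⟩
      · exact isZphi_one
  exact ⟨GB_isom e he, hent, hent⟩

end NSep
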