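import Pool.Agent.Lib.MP_1beec2_gt.AB
import Pool.Agent.Lib.MP_1beec2_gt.AC
import Pool.Agent.Lib.MP_1beec2_gt.GB

/-!
Module AD (cocompactness of arithH4). For w in Z[phi]^4 with w.w = 4 the vector e = (phi w, -1)
has bil e e = 4 phi^2 - (4 phi + 2) = 2 and entries in Z[phi], so refl e is in arithH4 (GB_arith).
Let y in hyp4. The set of g in arithH4 with (g y) 4 ≤ y 4 is finite (AB_disc for the compact set
{z in hyp4 | z 4 ≤ y 4}) and contains 1; choose g with z = g y and z 4 minimal over arithH4. For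
every such e: (refl e z) 4 = z 4 + bil z e ≥ z 4, so bil z e ≥ 0, that is
phi w.z' + (4 phi + 2) z4 ≥ 0 (z' the first four coordinates). With -w in place of w:
phi w.z' ≤ (4 phi + 2) z4 for all w. Take w from AC_cover for u = z':
phi^2 (13/4) |z'|^2 ≤ (4 phi + 2)^2 z4^2 and |z'|^2 = (4 phi + 2) z4^2 - 1. Since
(13/4) phi^2 - (4 phi + 2) = (13/4 - 4) phi + 13/4 - 2 = 5/4 - (3/4) phi > 0.03 this bounds z4^2
(by 30, say). So z lies in the compact set C = {z in hyp4 | z 4 ≤ 6}.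
-/

namespace NSep

theorem AD_gr : (3 : ℝ) / 2 < Real.goldenRatio := by
  have h1 := Real.one_lt_goldenRatio
  have h2 := Real.goldenRatio_sq
  nlinarith

theorem AD_bil_cont : Continuous fun y : Fin 5 → ℝ => bil y y := by
  unfold bil
  fun_prop

theorem AD_compact (M : ℝ) : IsCompact {z : Fin 5 → ℝ | z ∈ hyp4 ∧ z 4 ≤ M} := by
  have hphi := AD_gr
  have hphi2 := Real.goldenRatio_lt_two
  have hset : {z : Fin 5 → ℝ | z ∈ hyp4 ∧ z 4 ≤ M} =
      {z : Fin 5 → ℝ | bil z z = -1} ∩ ({z | 0 ≤ z 4} ∩ {z | z 4 ≤ M}) := by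
    ext z
    simp only [hyp4, Set.mem_ofPred_eq, Set.mem_inter_iff]
    constructor
    · rintro ⟨⟨h1, h2⟩, h3⟩
      exact ⟨h1, h2.le, h3⟩
    · rintro ⟨h1, h2, h3⟩
      refine ⟨⟨h1, lt_of_le_of_ne h2 ?_⟩, h3⟩
      intro h4
      unfold bil at h1
      rw [← h4] at h1
      nlinarith [mul_self_nonneg (z 0), mul_self_nonneg (z 1), mul_self_nonneg (z 2),
        mul_self_nonneg (z 3)]
  rw [hset]
  refine Metric.isCompact_of_isClosed_isBounded ?_ ?_
  · refine (isClosed_eq AD_bil_cont continuous_const).inter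
      ((isClosed_le continuous_const (continuous_apply 4)).inter
        (isClosed_le (continuous_apply 4) continuous_const))
  · refine (Metric.isBounded_iff_subset_closedBall 0).2 ⟨4 * |M| + 4, ?_⟩
    rintro z ⟨h1, h2, h3⟩
    simp only [Set.mem_ofPred_eq] at h1 h2 h3
    rw [mem_closedBall_zero_iff, pi_norm_le_iff_of_nonneg (by positivity)]
    have hM : z 4 ≤ |M| := h3.trans (le_abs_self M)
    have hM0 := abs_nonneg M
    have h5 : z 4 * z 4 ≤ |M| * |M| := mul_le_mul hM hM h2 hM0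
    have h6 : (4 * Real.goldenRatio + 2) * (z 4 * z 4) ≤ 10 * (|M| * |M|) := by
      have : (4 * Real.goldenRatio + 2) * (z 4 * z 4) ≤ 10 * (z 4 * z 4) :=
        mul_le_mul_of_nonneg_right (by linarith) (mul_self_nonneg _)
      linarith
    unfold bil at h1
    have key : ∀ t : ℝ, t * t ≤ 10 * (|M| * |M|) → |t| ≤ 4 * |M| + 4 := by
      intro t ht
      apply abs_le_of_sq_le_sq' _ (by positivity) |> abs_le.2
      nlinarith
    have q0 := mul_self_nonneg (z 0)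
    have q1 := mul_self_nonneg (z 1)
    have q2 := mul_self_nonneg (z 2)
    have q3 := mul_self_nonneg (z 3)
    have q4 := mul_self_nonneg (z 4)
    have hsum : z 0 * z 0 + z 1 * z 1 + z 2 * z 2 + z 3 * z 3 ≤ 10 * (|M| * |M|) := by linarith
    have r0 : |z 0| ≤ 4 * |M| + 4 := key _ (by linarith)
    have r1 : |z 1| ≤ 4 * |M| + 4 := key _ (by linarith)
    have r2 : |z 2| ≤ 4 * |M| + 4 := key _ (by linarith)
    have r3 : |z 3| ≤ 4 * |M| + 4 := key _ (by linarith)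
    have r4 : |z 4| ≤ 4 * |M| + 4 := key _ (by nlinarith)
    intro i
    rw [Real.norm_eq_abs]
    fin_cases i
    · exact r0
    · exact r1
    · exact r2
    · exact r3
    · exact r4

/-- the root attached to w -/
noncomputable def AD_root (w : Fin 4 → ℝ) : Fin 5 → ℝ :=
  ![Real.goldenRatio * w 0, Real.goldenRatio * w 1, Real.goldenRatio * w 2,
    Real.goldenRatio * w 3, -1]

theorem AD_root_bil (w : Fin 4 → ℝ) (h : ∑ i, w i ^ 2 = 4) : bil (AD_root w) (AD_root w) = 2 := by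
  have h2 := Real.goldenRatio_sq
  simp only [Fin.sum_univ_four] at h
  simp only [bil, AD_root, Matrix.cons_val]
  linear_combination Real.goldenRatio ^ 2 * h + 4 * h2

theorem AD_root_zphi (w : Fin 4 → ℝ) (h : ∀ i, isZphi (w i)) : ∀ i, isZphi (AD_root w i) := by
  have h0 : isZphi Real.goldenRatio := ⟨0, 1, by simp⟩
  intro i
  fin_cases i
  · exact h0.mul (h 0)
  · exact h0.mul (h 1)
  · exact h0.mul (h 2)
  · exact h0.mul (h 3)
  · exact isZphi_one.neg

theorem AD_root_z (w : Fin 4 → ℝ) (z : Fin 5 → ℝ) :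
    bil z (AD_root w) = Real.goldenRatio * (w 0 * z 0 + w 1 * z 1 + w 2 * z 2 + w 3 * z 3) +
      (4 * Real.goldenRatio + 2) * z 4 := by
  simp only [bil, AD_root, Matrix.cons_val]
  ring

theorem AD_min (y : Fin 5 → ℝ) (hy : y ∈ hyp4) : ∃ g ∈ arithH4, ∀ h ∈ arithH4,
    app g y 4 ≤ app h y 4 := by
  have hfin : {g : GL (Fin 5) ℝ | g ∈ arithH4 ∧ app g y 4 ≤ y 4}.Finite := by
    refine (AB_disc {z | z ∈ hyp4 ∧ z 4 ≤ y 4} (fun z hz => hz.1) (AD_compact (y 4))).subset ?_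
    rintro g ⟨h1, h2⟩
    exact ⟨h1, y, ⟨hy, le_rfl⟩, (h1.1.2 y).2 hy, h2⟩
  obtain ⟨g, hg, hmin⟩ := Set.exists_min_image _ (fun g => app g y 4) hfin
    ⟨1, one_mem _, by simp⟩
  refine ⟨g, hg.1, fun h hh => ?_⟩
  by_cases hle : app h y 4 ≤ y 4
  · exact hmin h ⟨hh, hle⟩
  · exact hg.2.trans (not_le.1 hle).le

theorem AD_bound (z : Fin 5 → ℝ) (hz : z ∈ hyp4) (hmin : ∀ h ∈ arithH4, z 4 ≤ app h z 4) :
    z 4 ≤ 6 := by
  have hphi := AD_gr
  have hphi2 := Real.goldenRatio_sq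
  have hp : ∀ w : Fin 4 → ℝ, (∀ i, isZphi (w i)) → ∑ i, w i ^ 2 = 4 →
      0 ≤ bil z (AD_root w) := by
    intro w h1 h2
    have h3 := hmin _ (GB_arith (AD_root w) (AD_root_bil w h2) (AD_root_zphi w h1))
    rw [refl_app] at h3
    simp only [Pi.sub_apply, Pi.smul_apply, smul_eq_mul] at h3
    have h4 : AD_root w 4 = -1 := rfl
    rw [h4] at h3
    linarith
  obtain ⟨w, h1, h2, h3, h4⟩ := AC_cover (fun i => z i.castSucc)
  have h5 := hp (fun i => - w i) (fun i => (h1 i).neg) (by simpa using h2)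
  rw [AD_root_z] at h5
  simp only [Fin.sum_univ_four] at h3 h4
  have e0 : z (Fin.castSucc (0 : Fin 4)) = z 0 := rfl
  have e1 : z (Fin.castSucc (1 : Fin 4)) = z 1 := rfl
  have e2 : z (Fin.castSucc (2 : Fin 4)) = z 2 := rfl
  have e3 : z (Fin.castSucc (3 : Fin 4)) = z 3 := rfl
  rw [e0, e1, e2, e3] at h3 h4
  obtain ⟨hz1, hz2⟩ := hz
  unfold bil at hz1
  set s := w 0 * z 0 + w 1 * z 1 + w 2 * z 2 + w 3 * z 3 with hs
  set φ := Real.goldenRatio with hφ
  by_contra hlt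
  rw [not_le] at hlt
  have h6 : φ * s ≤ (4 * φ + 2) * z 4 := by nlinarith
  have h7 : (φ * s) * (φ * s) ≤ ((4 * φ + 2) * z 4) * ((4 * φ + 2) * z 4) :=
    mul_self_le_mul_self (by positivity) h6
  have hN : z 0 ^ 2 + z 1 ^ 2 + z 2 ^ 2 + z 3 ^ 2 = (4 * φ + 2) * (z 4 * z 4) - 1 := by
    linear_combination hz1
  rw [hN] at h4
  have h8 : φ ^ 2 * (13 / 4 * ((4 * φ + 2) * (z 4 * z 4) - 1)) ≤ φ ^ 2 * s ^ 2 :=
    mul_le_mul_of_nonneg_left h4 (by positivity)
  have h9 : (φ - 1) * (z 4 * z 4) ≤ 13 / 2 * (φ + 1) := by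
    have e1 : φ ^ 2 * (13 / 4 * ((4 * φ + 2) * (z 4 * z 4) - 1)) =
        13 / 4 * ((10 * φ + 6) * (z 4 * z 4) - (φ + 1)) := by
      rw [hphi2]
      linear_combination (13 * (z 4 * z 4)) * hphi2
    have e2 : ((4 * φ + 2) * z 4) * ((4 * φ + 2) * z 4) = (32 * φ + 20) * (z 4 * z 4) := by
      linear_combination (16 * (z 4 * z 4)) * hphi2
    have e3 : φ * s * (φ * s) = φ ^ 2 * s ^ 2 := by ring
    rw [e1] at h8
    rw [e2, e3] at h7
    nlinarith
  have h10 : 36 < z 4 * z 4 := by nlinarith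
  nlinarith

theorem AD_cocompact : ∃ C : Set (Fin 5 → ℝ), C ⊆ hyp4 ∧ IsCompact C ∧
    ∀ y ∈ hyp4, ∃ g ∈ arithH4, app g y ∈ C := by
  refine ⟨{z | z ∈ hyp4 ∧ z 4 ≤ 6}, fun z hz => hz.1, AD_compact 6, fun y hy => ?_⟩
  obtain ⟨g, hg, hmin⟩ := AD_min y hy
  have hgy : app g y ∈ hyp4 := (hg.1.2 y).2 hy
  refine ⟨g, hg, hgy, AD_bound _ hgy fun h hh => ?_⟩
  rw [← app_mul]
  exact hmin _ (mul_mem hh hg)

end NSep
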