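import Pool.Agent.Lib.MP_1beec2_gt.Defs

/-!
Module AE (the congruence subgroup of level 3). AE_relIndex: g, h in arithH4 whose entries
a + b phi have the same residues a, b mod 3 (b and a are unique; or choose them) satisfy
g⁻¹ h in gam3: g⁻¹ h - 1 = g⁻¹ (h - g). So the index is at most 3^50: finite.
-/

namespace NSep
open Matrix

/-- the principal congruence subgroup of level 3 of arithH4 -/
def gam3 : Subgroup (GL (Fin 5) ℝ) where
  carrier := {g | g ∈ arithH4 ∧ ∀ i j, ∃ t, isZphi t ∧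
    (g : Matrix (Fin 5) (Fin 5) ℝ) i j = (1 : Matrix (Fin 5) (Fin 5) ℝ) i j + 3 * t}
  one_mem' := ⟨one_mem _, fun i j => ⟨0, isZphi_zero, by simp⟩⟩
  mul_mem' := by
    rintro g h ⟨h1, h2⟩ ⟨h3, h4⟩
    refine ⟨mul_mem h1 h3, fun i j => ?_⟩
    choose s hs using h2
    choose t ht using h4
    refine ⟨s i j + t i j + 3 * ∑ k, s i k * t k j, ?_, ?_⟩
    · refine ((hs i j).1.add (ht i j).1).add (isZphi.mul ⟨3, 0, by simp⟩ (isZphi.sum _ _ ?_))
      exact fun k _ => (hs i k).1.mul (ht k j).1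
    · have e1 : (g : Matrix (Fin 5) (Fin 5) ℝ) = 1 + (3 : ℝ) • Matrix.of s := by
        ext i j; simpa using (hs i j).2
      have e2 : (h : Matrix (Fin 5) (Fin 5) ℝ) = 1 + (3 : ℝ) • Matrix.of t := by
        ext i j; simpa using (ht i j).2
      have e3 : ((1 : Matrix (Fin 5) (Fin 5) ℝ) + (3 : ℝ) • Matrix.of s) *
          (1 + (3 : ℝ) • Matrix.of t) =
          1 + (3 : ℝ) • (Matrix.of s + Matrix.of t + (3 : ℝ) • (Matrix.of s * Matrix.of t)) := by
        simp only [mul_add, add_mul, mul_one, one_mul, smul_mul_assoc, mul_smul_comm, smul_add]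
        abel
      rw [Units.val_mul, e1, e2, e3]
      simp [Matrix.mul_apply]
      ring
  inv_mem' := by
    rintro g ⟨h1, h2⟩
    refine ⟨inv_mem h1, fun i j => ?_⟩
    choose s hs using h2
    refine ⟨-∑ k, ((g⁻¹ : GL (Fin 5) ℝ) : Matrix (Fin 5) (Fin 5) ℝ) i k * s k j, ?_, ?_⟩
    · exact (isZphi.sum _ _ fun k _ => ((h1.2.2) i k).mul (hs k j).1).neg
    · have e1 : (g : Matrix (Fin 5) (Fin 5) ℝ) = 1 + (3 : ℝ) • Matrix.of s := by
        ext i j; simpa using (hs i j).2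
      have e2 : ((g⁻¹ : GL (Fin 5) ℝ) : Matrix (Fin 5) (Fin 5) ℝ) *
          (g : Matrix (Fin 5) (Fin 5) ℝ) = 1 := by
        rw [← Units.val_mul]; simp
      have e3 : ((g⁻¹ : GL (Fin 5) ℝ) : Matrix (Fin 5) (Fin 5) ℝ) = 1 -
          (3 : ℝ) • (((g⁻¹ : GL (Fin 5) ℝ) : Matrix (Fin 5) (Fin 5) ℝ) * Matrix.of s) := by
        rw [e1, mul_add, mul_one, mul_smul_comm] at e2
        rw [← e2]; simp
      have e4 := congrFun (congrFun e3 i) j
      rw [e4]
      simp only [Matrix.sub_apply, Matrix.smul_apply, Matrix.mul_apply, Matrix.of_apply,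
        smul_eq_mul]
      ring

theorem gam3_le : gam3 ≤ arithH4 := fun _ h => h.1

/-- elements of arithH4 with the same residues mod 3 are in the same coset -/
theorem AE_coset (g h : GL (Fin 5) ℝ) (hg : g ∈ arithH4) (hh : h ∈ arithH4)
    (a b c d : Fin 5 → Fin 5 → ℤ)
    (h1 : ∀ i j, (g : Matrix (Fin 5) (Fin 5) ℝ) i j = a i j + b i j * Real.goldenRatio)
    (h2 : ∀ i j, (h : Matrix (Fin 5) (Fin 5) ℝ) i j = c i j + d i j * Real.goldenRatio)
    (h3 : ∀ i j, ((a i j : ℤ) : ZMod 3) = (c i j : ℤ))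
    (h4 : ∀ i j, ((b i j : ℤ) : ZMod 3) = (d i j : ℤ)) : g⁻¹ * h ∈ gam3 := by
  refine ⟨mul_mem (inv_mem hg) hh, ?_⟩
  have h5 : ∀ i j, ∃ t, isZphi t ∧ (h : Matrix (Fin 5) (Fin 5) ℝ) i j =
      (g : Matrix (Fin 5) (Fin 5) ℝ) i j + 3 * t := by
    intro i j
    obtain ⟨u, hu⟩ := (ZMod.intCast_eq_intCast_iff_dvd_sub _ _ 3).1 (h3 i j)
    obtain ⟨v, hv⟩ := (ZMod.intCast_eq_intCast_iff_dvd_sub _ _ 3).1 (h4 i j)
    refine ⟨u + v * Real.goldenRatio, ⟨u, v, rfl⟩, ?_⟩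
    rw [h1, h2]
    have hu' : (c i j : ℝ) - a i j = 3 * u := by exact_mod_cast hu
    have hv' : (d i j : ℝ) - b i j = 3 * v := by exact_mod_cast hv
    linear_combination hu' + Real.goldenRatio * hv'
  choose t ht using h5
  intro i j
  refine ⟨∑ k, ((g⁻¹ : GL (Fin 5) ℝ) : Matrix (Fin 5) (Fin 5) ℝ) i k * t k j,
    isZphi.sum _ _ fun k _ => (hg.2.2 i k).mul (ht k j).1, ?_⟩
  have e1 : (h : Matrix (Fin 5) (Fin 5) ℝ) = g + (3 : ℝ) • Matrix.of t := by
    ext i j; simpa using (ht i j).2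
  have e2 : ((g⁻¹ : GL (Fin 5) ℝ) : Matrix (Fin 5) (Fin 5) ℝ) *
      (g : Matrix (Fin 5) (Fin 5) ℝ) = 1 := by
    rw [← Units.val_mul]; simp
  rw [Units.val_mul, e1, mul_add, e2, mul_smul_comm]
  simp [Matrix.mul_apply]

theorem AE_relIndex : gam3.relIndex arithH4 ≠ 0 := by
  classical
  have key : ∀ g : arithH4, ∃ a b : Fin 5 → Fin 5 → ℤ, ∀ i j,
      ((g : GL (Fin 5) ℝ) : Matrix (Fin 5) (Fin 5) ℝ) i j =
        a i j + b i j * Real.goldenRatio := by
    intro g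
    have := g.2.2.1
    choose a b hab using this
    exact ⟨a, b, hab⟩
  choose a b hab using key
  let f : arithH4 → (Fin 5 → Fin 5 → ZMod 3 × ZMod 3) := fun g i j =>
    (((a g i j : ℤ) : ZMod 3), ((b g i j : ℤ) : ZMod 3))
  have hfin : Finite (arithH4 ⧸ gam3.subgroupOf arithH4) := by
    refine Finite.of_injective (fun q => f q.out) ?_
    intro p q hpq
    have hpq' : f p.out = f q.out := hpq
    rw [← Quotient.out_eq' p, ← Quotient.out_eq' q]
    apply QuotientGroup.eq.2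
    rw [Subgroup.mem_subgroupOf]
    simp only [Subgroup.coe_mul, Subgroup.coe_inv]
    refine AE_coset _ _ p.out.2 q.out.2 _ _ _ _ (hab _) (hab _) ?_ ?_
    · intro i j
      exact congrArg Prod.fst (congrFun (congrFun hpq' i) j)
    · intro i j
      exact congrArg Prod.snd (congrFun (congrFun hpq' i) j)
  exact Subgroup.index_ne_zero_of_finite

end NSep
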