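import Pool.Agent.Lib.MP_1beec2_gt.AE

/-!
Module AF (gam3 is torsion-free, Minkowski). Suppose g in gam3, g ^ n = 1. If 3 divides n, then
(g ^ (n / 3)) ^ 3 = 1, so by the case n = 3 and by induction it remains to treat n = 3 and n prime
to 3. Write g = 1 + 3^(k+1) N with N a matrix over Z[phi]. If n is prime to 3 then
n N = - 3^(k+1) N^2 X; if n = 3 then N = - 3^(k+1) N^2 - 3^(2k+1) N^3. In both cases N = 3 N'. So
all the entries of g - 1 are divisible by all the powers of 3 and g = 1.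
-/

namespace NSep
open Matrix

/-- the ring of matrices over Z[phi] -/
def zm : Subring (Matrix (Fin 5) (Fin 5) ℝ) where
  carrier := {M | ∀ i j, isZphi (M i j)}
  zero_mem' := fun _ _ => by simpa using isZphi_zero
  one_mem' := by
    intro i j
    by_cases hij : i = j
    · subst hij; simpa using isZphi_one
    · simpa [Matrix.one_apply_ne hij] using isZphi_zero
  add_mem' := fun h1 h2 i j => (h1 i j).add (h2 i j)
  neg_mem' := fun h i j => (h i j).neg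
  mul_mem' := by
    intro M N h1 h2 i j
    rw [Matrix.mul_apply]
    exact isZphi.sum _ _ fun k _ => (h1 i k).mul (h2 k j)

theorem AF_pow (M : Matrix (Fin 5) (Fin 5) ℝ) (hM : M ∈ zm) (n : ℕ) :
    ∃ X ∈ zm, (1 + M) ^ n = 1 + (n : ℤ) • M + M * M * X := by
  induction n with
  | zero => exact ⟨0, zero_mem _, by simp⟩
  | succ n ih =>
    obtain ⟨X, hX, h⟩ := ih
    refine ⟨X + (n : ℤ) • 1 + X * M, add_mem (add_mem hX (zsmul_mem (one_mem _) _))
      (mul_mem hX hM), ?_⟩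
    rw [pow_succ, h]
    push_cast
    simp only [mul_add, add_mul, add_smul, mul_one, one_mul, one_smul, smul_mul_assoc,
      mul_smul_comm, mul_assoc]
    abel

theorem AF_canc (c : ℤ) (hc : c ≠ 0) (A B : Matrix (Fin 5) (Fin 5) ℝ) (h : c • A = c • B) :
    A = B := by
  ext i j
  have h1 := congrFun (congrFun h i) j
  simp only [Matrix.smul_apply, zsmul_eq_mul] at h1
  have h2 : (c : ℝ) ≠ 0 := by exact_mod_cast hc
  exact mul_left_cancel₀ h2 h1

theorem AF_step (N : Matrix (Fin 5) (Fin 5) ℝ) (hN : N ∈ zm) (k n : ℕ) (hn : ¬ 3 ∣ n)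
    (h : (1 + (3 : ℤ) ^ (k + 1) • N) ^ n = 1) : ∃ N' ∈ zm, N = (3 : ℤ) • N' := by
  obtain ⟨X, hX, h1⟩ := AF_pow ((3 : ℤ) ^ (k + 1) • N) (zsmul_mem hN _) n
  rw [h1] at h
  have h2 : (n : ℤ) • N = (3 : ℤ) • (-((3 : ℤ) ^ k • (N * N * X))) := by
    apply AF_canc ((3 : ℤ) ^ (k + 1)) (by positivity)
    have h3 : (n : ℤ) • (3 : ℤ) ^ (k + 1) • N +
        ((3 : ℤ) ^ (k + 1) • N) * ((3 : ℤ) ^ (k + 1) • N) * X = 0 := by
      have : (1 : Matrix (Fin 5) (Fin 5) ℝ) + ((n : ℤ) • (3 : ℤ) ^ (k + 1) • N +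
        ((3 : ℤ) ^ (k + 1) • N) * ((3 : ℤ) ^ (k + 1) • N) * X) = 1 + 0 := by
        rw [← add_assoc, h, add_zero]
      exact add_left_cancel this
    have h4 : (3 : ℤ) ^ (k + 1) • (n : ℤ) • N = (n : ℤ) • (3 : ℤ) ^ (k + 1) • N := smul_comm _ _ _
    rw [h4, eq_neg_of_add_eq_zero_left h3]
    simp only [smul_mul_assoc, mul_smul_comm, smul_neg, smul_smul]
    congr 2
    ring
  have hco : IsCoprime (n : ℤ) 3 := by
    have : Nat.Coprime n 3 := ((Nat.Prime.coprime_iff_not_dvd Nat.prime_three).2 hn).symm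
    exact_mod_cast Nat.isCoprime_iff_coprime.2 this
  obtain ⟨a, b, hab⟩ := hco
  refine ⟨a • (-((3 : ℤ) ^ k • (N * N * X))) + b • N, add_mem (zsmul_mem (neg_mem
    (zsmul_mem (mul_mem (mul_mem hN hN) hX) _)) _) (zsmul_mem hN _), ?_⟩
  calc N = (a * n + b * 3) • N := by rw [hab, one_smul]
    _ = a • (n : ℤ) • N + (3 : ℤ) • b • N := by
        rw [add_smul, mul_smul, mul_comm b 3, mul_smul]
    _ = _ := by
        rw [h2, smul_add, smul_comm a (3 : ℤ)]

theorem AF_step3 (N : Matrix (Fin 5) (Fin 5) ℝ) (hN : N ∈ zm) (k : ℕ)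
    (h : (1 + (3 : ℤ) ^ (k + 1) • N) ^ 3 = 1) : ∃ N' ∈ zm, N = (3 : ℤ) • N' := by
  refine ⟨-((3 : ℤ) ^ k • (N * N) + (3 : ℤ) ^ (2 * k) • (N * N * N)), neg_mem (add_mem
    (zsmul_mem (mul_mem hN hN) _) (zsmul_mem (mul_mem (mul_mem hN hN) hN) _)), ?_⟩
  apply AF_canc ((3 : ℤ) ^ (k + 2)) (by positivity)
  have e : (1 + (3 : ℤ) ^ (k + 1) • N) ^ 3 = 1 + ((3 : ℤ) ^ (k + 2) • N +
      ((3 : ℤ) ^ (2 * k + 3) • (N * N) + (3 : ℤ) ^ (3 * k + 3) • (N * N * N))) := by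
    generalize hc : (3 : ℤ) ^ (k + 1) = c
    have e1 : (3 : ℤ) ^ (k + 2) = 3 * c := by rw [← hc]; ring
    have e2 : (3 : ℤ) ^ (2 * k + 3) = 3 * (c * c) := by rw [← hc]; ring
    have e3 : (3 : ℤ) ^ (3 * k + 3) = c * (c * c) := by rw [← hc]; ring
    rw [e1, e2, e3]
    have e4 : (1 + c • N) ^ 3 = (1 + c • N) * ((1 + c • N) * (1 + c • N)) := by
      rw [pow_succ, pow_two, mul_assoc]
    rw [e4]
    simp only [mul_add, add_mul, mul_one, one_mul, smul_mul_assoc, mul_smul_comm, mul_assoc,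
      mul_smul]
    have e5 : ∀ A : Matrix (Fin 5) (Fin 5) ℝ, (3 : ℤ) • A = A + A + A := by
      intro A
      rw [show (3 : ℤ) = 1 + 1 + 1 by norm_num, add_smul, add_smul, one_smul]
    rw [e5, e5]
    simp only [smul_add]
    abel
  rw [e] at h
  have h3 : (3 : ℤ) ^ (k + 2) • N + ((3 : ℤ) ^ (2 * k + 3) • (N * N) +
      (3 : ℤ) ^ (3 * k + 3) • (N * N * N)) = 0 := by
    have : (1 : Matrix (Fin 5) (Fin 5) ℝ) + ((3 : ℤ) ^ (k + 2) • N +
      ((3 : ℤ) ^ (2 * k + 3) • (N * N) + (3 : ℤ) ^ (3 * k + 3) • (N * N * N))) = 1 + 0 := by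
      rw [h, add_zero]
    exact add_left_cancel this
  rw [eq_neg_of_add_eq_zero_left h3]
  simp only [smul_neg, smul_add, smul_smul]
  congr 3
  · ring
  · ring

theorem AF_zero (t : ℝ) (h : ∀ k : ℕ, ∃ s, isZphi s ∧ t = (3 : ℝ) ^ (k + 1) * s) : t = 0 := by
  obtain ⟨s, ⟨a, b, rfl⟩, hs⟩ := h 0
  have key : ∀ k : ℕ, (3 : ℤ) ^ (k + 1) ∣ 3 * a ∧ (3 : ℤ) ^ (k + 1) ∣ 3 * b := by
    intro k
    obtain ⟨s, ⟨c, d, rfl⟩, hs'⟩ := h k
    rw [hs] at hs'
    have h1 : ((3 * b - 3 ^ (k + 1) * d : ℤ) : ℝ) * Real.goldenRatio =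
        ((3 ^ (k + 1) * c - 3 * a : ℤ) : ℝ) := by
      push_cast
      linear_combination hs'
    have h2 : 3 * b - 3 ^ (k + 1) * d = 0 := by
      by_contra hne
      have := Real.goldenRatio_irrational.intCast_mul hne
      rw [h1] at this
      exact this.ne_int _ rfl
    have h3 : 3 ^ (k + 1) * c - 3 * a = 0 := by
      rw [h2] at h1
      push_cast at h1
      have : ((3 ^ (k + 1) * c - 3 * a : ℤ) : ℝ) = 0 := by
        push_cast; linarith
      exact_mod_cast this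
    exact ⟨⟨c, by linarith⟩, ⟨d, by linarith⟩⟩
  have van : ∀ x : ℤ, (∀ k : ℕ, (3 : ℤ) ^ (k + 1) ∣ x) → x = 0 := by
    intro x hx
    apply Int.eq_zero_of_abs_lt_dvd (hx x.natAbs)
    have h1 : x.natAbs < 3 ^ (x.natAbs + 1) :=
      (Nat.lt_pow_self (by norm_num)).trans (Nat.pow_lt_pow_right (by norm_num) (by simp))
    have h2 : |x| = (x.natAbs : ℤ) := Int.abs_eq_natAbs x
    rw [h2]
    exact_mod_cast h1
  have ha := van _ fun k => (key k).1
  have hb := van _ fun k => (key k).2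
  have ha' : a = 0 := by omega
  have hb' : b = 0 := by omega
  rw [hs, ha', hb']
  simp

theorem AF_main (g : GL (Fin 5) ℝ) (hg : g ∈ gam3) (n : ℕ) (hn : ¬ 3 ∣ n ∨ n = 3)
    (h : g ^ n = 1) : g = 1 := by
  have h1 : (g : Matrix (Fin 5) (Fin 5) ℝ) ^ n = 1 := by
    rw [← Units.val_pow_eq_pow_val, h]; simp
  have key : ∀ k : ℕ, ∃ N ∈ zm, (g : Matrix (Fin 5) (Fin 5) ℝ) = 1 + (3 : ℤ) ^ (k + 1) • N := by
    intro k
    induction k with
    | zero =>
      choose s hs using hg.2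
      refine ⟨Matrix.of s, fun i j => (hs i j).1, ?_⟩
      ext i j
      rw [(hs i j).2]
      simp
    | succ k ih =>
      obtain ⟨N, hN, e⟩ := ih
      have h2 : ∃ N' ∈ zm, N = (3 : ℤ) • N' := by
        rw [e] at h1
        rcases hn with hn | rfl
        · exact AF_step N hN k n hn h1
        · exact AF_step3 N hN k h1
      obtain ⟨N', hN', rfl⟩ := h2
      exact ⟨N', hN', by rw [e, smul_smul, ← pow_succ]⟩
  apply Units.ext
  ext i j
  have h3 : (g : Matrix (Fin 5) (Fin 5) ℝ) i j - (1 : Matrix (Fin 5) (Fin 5) ℝ) i j = 0 := by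
    apply AF_zero
    intro k
    obtain ⟨N, hN, e⟩ := key k
    refine ⟨N i j, hN i j, ?_⟩
    rw [e, Matrix.add_apply, Matrix.smul_apply, zsmul_eq_mul]
    push_cast
    ring
  rw [Units.val_one]
  linarith

theorem AF_torsion (g : GL (Fin 5) ℝ) (hg : g ∈ gam3) (n : ℕ) (hn : 0 < n) (h : g ^ n = 1) :
    g = 1 := by
  induction n using Nat.strong_induction_on with
  | _ n ih =>
    by_cases h3 : 3 ∣ n
    · obtain ⟨m, rfl⟩ := h3
      have h4 : (g ^ m) ^ 3 = 1 := by rw [← pow_mul, mul_comm, h]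
      have h5 := AF_main (g ^ m) (pow_mem hg m) 3 (Or.inr rfl) h4
      exact ih m (by omega) (by omega) h5
    · exact AF_main g hg n (Or.inl h3) h

end NSep
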