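import Pool.Agent.Lib.MP_1beec2_gt.AD
import Pool.Agent.Lib.MP_1beec2_gt.AF

/-!
Module AG. IsClosedArith gam3: commensurable (relIndex both ways, gam3 ≤ arithH4), torsion-free
(AF), discontinuous (AB_disc, subset), cocompact: finitely many cosets arithH4 = union of
gam3 g_i (right cosets), C' := union of the compact sets {app g_i y | y in C} for C of AD.
-/

namespace NSep

theorem AG_cont (g : GL (Fin 5) ℝ) : Continuous (app g) := by
  unfold app
  exact Continuous.matrix_mulVec continuous_const continuous_id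

theorem AG_cocompact : ∃ C : Set (Fin 5 → ℝ), C ⊆ hyp4 ∧ IsCompact C ∧
    ∀ y ∈ hyp4, ∃ g ∈ gam3, app g y ∈ C := by
  classical
  obtain ⟨C, hC, hC', hcov⟩ := AD_cocompact
  have hfin : (gam3.subgroupOf arithH4).FiniteIndex := ⟨AE_relIndex⟩
  refine ⟨⋃ q : arithH4 ⧸ gam3.subgroupOf arithH4,
    app ((q.out : arithH4) : GL (Fin 5) ℝ)⁻¹ '' C, ?_, ?_, ?_⟩
  · intro z hz
    obtain ⟨q, y, hy, rfl⟩ := Set.mem_iUnion.1 hz
    exact ((inv_mem (q.out : arithH4).2.1 :
      (((q.out : arithH4) : GL (Fin 5) ℝ))⁻¹ ∈ isomH4).2 y).2 (hC hy)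
  · exact isCompact_iUnion fun q => hC'.image (AG_cont _)
  · intro y hy
    obtain ⟨g, hg, hgy⟩ := hcov y hy
    let g' : arithH4 := ⟨g, hg⟩
    let q : arithH4 ⧸ gam3.subgroupOf arithH4 := QuotientGroup.mk g'
    have h1 : (q.out)⁻¹ * g' ∈ gam3.subgroupOf arithH4 := by
      apply QuotientGroup.eq.1
      exact QuotientGroup.out_eq' q
    rw [Subgroup.mem_subgroupOf] at h1
    simp only [Subgroup.coe_mul, Subgroup.coe_inv] at h1
    refine ⟨_, h1, ?_⟩
    refine Set.mem_iUnion.2 ⟨q, ?_⟩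
    refine ⟨app g y, hgy, ?_⟩
    rw [← app_mul]

theorem AG_closed : IsClosedArith gam3 where
  le := fun _ h => h.1.1
  arith := ⟨AE_relIndex, by
    have : arithH4.relIndex gam3 = 1 := Subgroup.relIndex_eq_one.2 gam3_le
    rw [this]; exact one_ne_zero⟩
  torsionFree := fun g hg n hn h => AF_torsion g hg n hn h
  discontinuous := by
    intro C hC hC'
    refine (AB_disc C hC hC').subset ?_
    rintro g ⟨h1, h2⟩
    exact ⟨gam3_le h1, h2⟩
  cocompact := AG_cocompact

end NSep
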