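import Pool.Agent.Lib.MP_1beec2_gt.Data

/-!
The action of Racg adj32 on Om = states × heights. (Proved.)
-/

namespace NSep

/-- states (four colour bits and one extra bit) and heights -/
def Om : Type := (Fin 5 → ZMod 2) × ℤ

/-- constructor -/
def mkOm (q : Fin 5 → ZMod 2) (h : ℤ) : Om := (q, h)

/-- the weight of the wall of type i -/
def mag (i : Fin 32) (q : Fin 5 → ZMod 2) : ℤ := if i = va ∧ q 4 = 1 then 3 else 1

/-- the height change of the letter i in the state q -/
def om (i : Fin 32) (q : Fin 5 → ZMod 2) : ℤ :=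
  if eps i + q (col i) = 1 then -mag i q else mag i q

/-- the state change of the letter i -/
def sh (i : Fin 32) : Fin 5 → ZMod 2 :=
  Pi.single (col i) 1 + if i = v0 then Pi.single 4 1 else 0

theorem sh_add_self (i : Fin 32) : sh i + sh i = 0 := by
  funext k
  exact (by decide : ∀ t : ZMod 2, t + t = 0) _

theorem sh_col (i : Fin 32) : sh i (col i) = 1 := by
  have h := col_lt i
  by_cases hi : i = v0 <;> simp [sh, hi, Pi.single_apply]
  · rw [← hi]; exact h

theorem sh_col_adj {i j : Fin 32} (h : adj32 i j) : sh i (col j) = 0 := by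
  have h1 := col_adj i j h
  have h2 := col_lt j
  by_cases hi : i = v0 <;> simp [sh, hi, Pi.single_apply, h2, Ne.symm h1]
  · rw [← hi]; exact fun e => h1 e.symm

theorem sh_four (i : Fin 32) (hi : i ≠ v0) : sh i 4 = 0 := by
  simp [sh, hi, (col_lt i).symm]

theorem mag_self (i : Fin 32) (q : Fin 5 → ZMod 2) : mag i (q + sh i) = mag i q := by
  unfold mag
  by_cases hi : i = va
  · have h : i ≠ v0 := by rw [hi]; exact special_facts.2.1.symm
    simp [sh_four i h]
  · simp [hi]

theorem mag_adj {i j : Fin 32} (h : adj32 i j) (q : Fin 5 → ZMod 2) :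
    mag j (q + sh i) = mag j q := by
  unfold mag
  by_cases hj : j = va
  · have h' : i ≠ v0 := by
      rintro rfl
      exact special_facts.1 (adj32_sym _ _ (hj ▸ h))
    simp [sh_four i h']
  · simp [hj]

theorem om_self (i : Fin 32) (q : Fin 5 → ZMod 2) : om i (q + sh i) = -om i q := by
  unfold om
  rw [mag_self, Pi.add_apply, sh_col, ← add_assoc]
  rcases (by decide : ∀ t : ZMod 2, t = 0 ∨ t = 1) (eps i + q (col i)) with h | h <;>
    simp [h, (by decide : (1 : ZMod 2) + 1 ≠ 1)]

theorem om_adj {i j : Fin 32} (h : adj32 i j) (q : Fin 5 → ZMod 2) :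
    om j (q + sh i) = om j q := by
  unfold om
  rw [mag_adj h, Pi.add_apply, sh_col_adj h, add_zero]

theorem om_ne (i : Fin 32) (q : Fin 5 → ZMod 2) : om i q ≠ 0 := by
  unfold om mag; split_ifs <;> norm_num

theorem om_abs (i : Fin 32) (q : Fin 5 → ZMod 2) : |om i q| ≤ 3 := by
  unfold om mag; split_ifs <;> norm_num

theorem om_neg_iff (i : Fin 32) (q : Fin 5 → ZMod 2) : om i q < 0 ↔ eps i + q (col i) = 1 := by
  unfold om mag; split_ifs <;> simp_all

/-- the permutation of a letter -/
def omPerm (i : Fin 32) : Equiv.Perm Om where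
  toFun x := (x.1 + sh i, x.2 + om i x.1)
  invFun x := (x.1 + sh i, x.2 + om i x.1)
  left_inv x := by
    refine Prod.ext ?_ ?_
    · show x.1 + sh i + sh i = x.1
      rw [add_assoc, sh_add_self, add_zero]
    · show x.2 + om i x.1 + om i (x.1 + sh i) = x.2
      rw [om_self]; ring
  right_inv x := by
    refine Prod.ext ?_ ?_
    · show x.1 + sh i + sh i = x.1
      rw [add_assoc, sh_add_self, add_zero]
    · show x.2 + om i x.1 + om i (x.1 + sh i) = x.2
      rw [om_self]; ring

theorem omPerm_sq (i : Fin 32) : omPerm i * omPerm i = 1 := by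
  exact Equiv.ext fun x => (omPerm i).left_inv x

theorem omPerm_comm (i j : Fin 32) (h : adj32 i j) :
    omPerm i * omPerm j = omPerm j * omPerm i := by
  refine Equiv.ext fun x => ?_
  refine Prod.ext ?_ ?_
  · show x.1 + sh j + sh i = x.1 + sh i + sh j
    abel
  · show x.2 + om j x.1 + om i (x.1 + sh j) = x.2 + om i x.1 + om j (x.1 + sh i)
    rw [om_adj h, om_adj (adj32_sym _ _ h)]; ring

/-- the action -/
def omHom : Racg adj32 →* Equiv.Perm Om := rlift omPerm omPerm_sq omPerm_comm

instance : MulAction (Racg adj32) Om := MulAction.compHom Om omHom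

theorem gen_smul (i : Fin 32) (q : Fin 5 → ZMod 2) (h : ℤ) :
    gen adj32 i • mkOm q h = mkOm (q + sh i) (h + om i q) := by
  show omHom (gen adj32 i) (mkOm q h) = _
  rw [omHom, rlift_gen]; rfl

/-- the base point -/
def o0 : Om := mkOm 0 0

/-- the group F, as a subgroup of Racg adj32 -/
def F32 : Subgroup (Racg adj32) := MulAction.stabilizer (Racg adj32) o0

theorem mkOm_eta (x : Om) : x = mkOm x.1 x.2 := rfl

/-- translation invariance: g moves the state independently of the height -/
theorem smul_shift (g : Racg adj32) (q : Fin 5 → ZMod 2) (h t : ℤ) :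
    g • mkOm q (h + t) = mkOm (g • mkOm q h).1 ((g • mkOm q h).2 + t) := by
  induction g using racg_induction generalizing q h with
  | h1 => simp only [one_smul]; rfl
  | h2 i g ih =>
    rw [mul_smul, mul_smul, ih, gen_smul, mkOm_eta (g • mkOm q h), gen_smul]
    refine Prod.ext rfl ?_
    show _ + t + _ = _ + _ + t
    simp only [mkOm]
    ring

end NSep
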