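import Pool.Agent.Lib.MP_1beec2_gt.Inc

/-!
Module C1. Computations with D32.
C1_D: every element of D32 is gc^k or gc^k * ga (the set of these elements is closed under left
multiplication by ga and gb: ga * gc^k = gc^(-k) * ga, gb = gc⁻¹ * ga ... ; closure induction).
C1_c: gc moves mkOm 0 h to mkOm 0 (h+2) and mkOm (sh v0) h to mkOm (sh v0) (h+4) (two uses of
gen_smul; first b then a; sh va + sh vb = 0, since va and vb have the same colour and are not v0;
the values of om: decide, or unfold om mag).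
C1_zpow: powers.
C1_a: the colour coordinate col va of gc^k * ga • mkOm q h is q (col va) + 1.
C1_F: F32 fixes all mkOm 0 h (smul_shift).
-/

namespace NSep

theorem C1_aa : ga * ga = 1 := gen_mul_self _
theorem C1_bb : gb * gb = 1 := gen_mul_self _

theorem C1_conj : ga * gc * ga⁻¹ = gc⁻¹ := by
  have h1 : ga⁻¹ = ga := gen_inv _
  have h2 : gb⁻¹ = gb := gen_inv _
  rw [gc, mul_inv_rev, h1, h2, ← mul_assoc, C1_aa, one_mul]

theorem C1_conj_zpow (k : ℤ) : ga * gc ^ k = gc ^ (-k) * ga := by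
  have h : ga * gc ^ k * ga⁻¹ = gc ^ (-k) := by
    rw [← conj_zpow, C1_conj, inv_zpow, zpow_neg]
  rw [← h, inv_mul_cancel_right]

theorem C1_b : gb = gc⁻¹ * ga := by
  have h1 : ga⁻¹ = ga := gen_inv _
  have h2 : gb⁻¹ = gb := gen_inv _
  rw [gc, mul_inv_rev, h1, h2, mul_assoc, C1_aa, mul_one]

theorem C1_D (d : Racg adj32) (hd : d ∈ D32) : ∃ k : ℤ, d = gc ^ k ∨ d = gc ^ k * ga := by
  have key : ∀ x : Racg adj32, (∃ k : ℤ, x = gc ^ k ∨ x = gc ^ k * ga) →
      ∃ k : ℤ, ga * x = gc ^ k ∨ ga * x = gc ^ k * ga := by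
    rintro x ⟨k, rfl | rfl⟩
    · exact ⟨-k, Or.inr (C1_conj_zpow k)⟩
    · refine ⟨-k, Or.inl ?_⟩
      rw [← mul_assoc, C1_conj_zpow, mul_assoc, C1_aa, mul_one]
  have key2 : ∀ x : Racg adj32, (∃ k : ℤ, x = gc ^ k ∨ x = gc ^ k * ga) →
      ∃ k : ℤ, gb * x = gc ^ k ∨ gb * x = gc ^ k * ga := by
    intro x hx
    obtain ⟨k, hk⟩ := key x hx
    refine ⟨k - 1, ?_⟩
    rw [C1_b, mul_assoc]
    rcases hk with hk | hk
    · left; rw [hk, sub_eq_neg_add, zpow_add, zpow_neg_one]
    · right; rw [hk, sub_eq_neg_add, zpow_add, zpow_neg_one, mul_assoc]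
  induction hd using Subgroup.closure_induction_left with
  | one => exact ⟨0, Or.inl (by simp)⟩
  | mul_left x hx y _ ih =>
    rcases hx with rfl | rfl
    · exact key _ ih
    · exact key2 _ ih
  | inv_mul_cancel x hx y _ ih =>
    have h1 : ga⁻¹ = ga := gen_inv _
    have h2 : gb⁻¹ = gb := gen_inv _
    rcases hx with rfl | rfl
    · rw [h1]; exact key _ ih
    · rw [h2]; exact key2 _ ih

theorem C1_c0 (h : ℤ) : gc • mkOm 0 h = mkOm 0 (h + 2) := by
  rw [gc, mul_smul, ga, gb, gen_smul, gen_smul]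
  refine Prod.ext ?_ ?_
  · show (0 : Fin 5 → ZMod 2) + sh vb + sh va = 0
    decide +kernel
  · show h + om vb 0 + om va (0 + sh vb) = h + 2
    have h1 : om vb 0 = 1 := by decide +kernel
    have h2 : om va (0 + sh vb) = 1 := by decide +kernel
    rw [h1, h2]; ring

theorem C1_c1 (h : ℤ) : gc • mkOm (sh v0) h = mkOm (sh v0) (h + 4) := by
  rw [gc, mul_smul, ga, gb, gen_smul, gen_smul]
  refine Prod.ext ?_ ?_
  · show sh v0 + sh vb + sh va = sh v0
    decide +kernel
  · show h + om vb (sh v0) + om va (sh v0 + sh vb) = h + 4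
    have h1 : om vb (sh v0) = 1 := by decide +kernel
    have h2 : om va (sh v0 + sh vb) = 3 := by decide +kernel
    rw [h1, h2]; ring

theorem C1_zpow_aux (q : Fin 5 → ZMod 2) (m : ℤ) (hm : ∀ h, gc • mkOm q h = mkOm q (h + m))
    (k h : ℤ) : gc ^ k • mkOm q h = mkOm q (h + m * k) := by
  induction k using Int.induction_on generalizing h with
  | zero => simp
  | succ n ih =>
    rw [zpow_add_one, mul_smul, hm, ih]
    congr 1; ring
  | pred n ih =>
    have h1 : gc⁻¹ • mkOm q h = mkOm q (h - m) := by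
      rw [inv_smul_eq_iff, hm]; congr 1; ring
    rw [sub_eq_add_neg, zpow_add, zpow_neg_one, mul_smul, h1, ih]
    congr 1; ring

theorem C1_zpow (k h : ℤ) : gc ^ k • mkOm 0 h = mkOm 0 (h + 2 * k) ∧
    gc ^ k • mkOm (sh v0) h = mkOm (sh v0) (h + 4 * k) :=
  ⟨C1_zpow_aux 0 2 C1_c0 k h, C1_zpow_aux _ 4 C1_c1 k h⟩

theorem C1_col_c (x : Om) : ((gc • x).1) (col va) = x.1 (col va) := by
  rw [mkOm_eta x, gc, mul_smul, ga, gb, gen_smul, gen_smul]
  show (x.1 + sh vb + sh va) (col va) = x.1 (col va)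
  have h1 : sh vb (col va) + sh va (col va) = 0 := by decide +kernel
  simp only [Pi.add_apply, add_assoc, h1, add_zero]

theorem C1_col_zpow (k : ℤ) (x : Om) : ((gc ^ k • x).1) (col va) = x.1 (col va) := by
  induction k using Int.induction_on generalizing x with
  | zero => simp
  | succ n ih => rw [zpow_add_one, mul_smul, ih, C1_col_c]
  | pred n ih =>
    rw [sub_eq_add_neg, zpow_add, zpow_neg_one, mul_smul, ih]
    have := C1_col_c (gc⁻¹ • x)
    rw [smul_inv_smul] at this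
    exact this.symm

theorem C1_a (k h : ℤ) (q : Fin 5 → ZMod 2) :
    (((gc ^ k * ga) • mkOm q h).1) (col va) = q (col va) + 1 := by
  rw [mul_smul, C1_col_zpow, ga, gen_smul]
  show (q + sh va) (col va) = _
  rw [Pi.add_apply, sh_col]

theorem C1_F (f : Racg adj32) (hf : f ∈ F32) (h : ℤ) : f • mkOm 0 h = mkOm 0 h := by
  have h1 : f • mkOm 0 0 = mkOm 0 0 := hf
  have h2 := smul_shift f 0 0 h
  rw [h1] at h2
  rw [zero_add] at h2
  rw [h2]
  refine Prod.ext rfl ?_
  show (0 : ℤ) + h = h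
  ring

theorem C1_v0 (h : ℤ) : gv • mkOm 0 h = mkOm (sh v0) (h + om v0 0) ∧
    gv • mkOm (sh v0) h = mkOm 0 (h - om v0 0) := by
  constructor
  · rw [gv, gen_smul, zero_add]
  · rw [gv, gen_smul, sh_add_self]
    have := om_self v0 0
    rw [zero_add] at this
    rw [this]; congr 1

end NSep
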