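import Pool.Agent.Lib.MP_1beec2_gt.C1

/-!
Module C2. In all of these apply the element d of D32 to mkOm 0 h or mkOm (sh v0) h and compare,
with C1_D, C1_zpow, C1_a, C1_F, C1_v0; sh v0 (col v0) = 1, sh v0 (col va) = 0, col v0 ≠ col va.
(i) f = gc^k: height 2k = 0, so k = 0; f = gc^k ga: the colour coordinate changes.
(ii) gv f gv = gc^k: apply to gv • o0: height 4k = 0.
(iii) f gv = d: the coordinate col v0 of d • o0 is 0 (d = gc^k: state 0; d = gc^k ga: state
sh va), but f = d gv fixes o0: d • (gv • o0) has coordinate col v0 equal to 1. Similarly (iv), (vi).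
(v) gv (f gc⁻¹) gv = gc^k: apply both sides to gv • o0 = mkOm (sh v0) _: the left side changes the
height by -2, the right side by 4k.
C2_norm: gc⁻¹ f gc fixes o0. C2_c1: gv gc gv • o0 = mkOm 0 4 = gc^2 • o0.
C2_ne: (gen vf * gen wf)^2 is in F32 and is not 1: map Racg adj32 to DihedralGroup 4, vf to sr 0,
wf to sr 1, the other generators to 1.
-/

namespace NSep

theorem C2_snd {q q' : Fin 5 → ZMod 2} {h h' : ℤ} (e : mkOm q h = mkOm q' h') : h = h' :=
  congrArg Prod.snd e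

theorem C2_fst {q q' : Fin 5 → ZMod 2} {h h' : ℤ} (e : mkOm q h = mkOm q' h') : q = q' :=
  congrArg Prod.fst e

/-- the coordinate col v0 is not changed by D32 -/
theorem C2_col_D (d : Racg adj32) (hd : d ∈ D32) (x : Om) :
    ((d • x).1) (col v0) = x.1 (col v0) := by
  have ha : ∀ x : Om, ((ga • x).1) (col v0) = x.1 (col v0) := by
    intro x
    rw [mkOm_eta x, ga, gen_smul]
    show (x.1 + sh va) (col v0) = x.1 (col v0)
    have h1 : sh va (col v0) = 0 := by decide +kernel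
    rw [Pi.add_apply, h1, add_zero]
  have hb : ∀ x : Om, ((gb • x).1) (col v0) = x.1 (col v0) := by
    intro x
    rw [mkOm_eta x, gb, gen_smul]
    show (x.1 + sh vb) (col v0) = x.1 (col v0)
    have h1 : sh vb (col v0) = 0 := by decide +kernel
    rw [Pi.add_apply, h1, add_zero]
  have h1 : ga⁻¹ = ga := gen_inv _
  have h2 : gb⁻¹ = gb := gen_inv _
  induction hd using Subgroup.closure_induction_left with
  | one => rw [one_smul]
  | mul_left y hy z _ ih =>
    rcases hy with rfl | rfl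
    · rw [mul_smul, ha, ih]
    · rw [mul_smul, hb, ih]
  | inv_mul_cancel y hy z _ ih =>
    rcases hy with rfl | rfl
    · rw [h1, mul_smul, ha, ih]
    · rw [h2, mul_smul, hb, ih]

theorem C2_sh_v0 : sh v0 (col v0) = 1 := sh_col v0

theorem C2_sh_va : sh v0 (col va) = 0 := by decide +kernel

theorem C2_gv_gv : gv * gv = 1 := gen_mul_self _

theorem C2_gv_inv : gv⁻¹ = gv := gen_inv _

theorem C2_i (f : Racg adj32) (hf : f ∈ F32) (hd : f ∈ D32) : f = 1 := by
  have hF := C1_F f hf 0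
  obtain ⟨k, rfl | rfl⟩ := C1_D f hd
  · rw [(C1_zpow k 0).1] at hF
    have := C2_snd hF
    have hk : k = 0 := by omega
    rw [hk, zpow_zero]
  · have h1 := C1_a k 0 0
    rw [hF] at h1
    have h2 : (0 : ZMod 2) = 0 + 1 := h1
    exact absurd h2 (by decide)

theorem C2_ii (f : Racg adj32) (hf : f ∈ F32) (hd : gv * f * gv ∈ D32) : f = 1 := by
  have hF := C1_F f hf 0
  have h0 : (gv * f * gv) • mkOm (sh v0) (om v0 0) = mkOm (sh v0) (om v0 0) := by
    rw [mul_smul, mul_smul, (C1_v0 _).2, sub_self, hF, (C1_v0 _).1, zero_add]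
  obtain ⟨k, hk | hk⟩ := C1_D _ hd
  · rw [hk, (C1_zpow k _).2] at h0
    have := C2_snd h0
    have hk0 : k = 0 := by omega
    rw [hk0, zpow_zero] at hk
    have : f = gv⁻¹ * (gv * f * gv) * gv⁻¹ := by group
    rw [this, hk, mul_one, C2_gv_inv, C2_gv_gv]
  · have h1 := C1_a k (om v0 0) (sh v0)
    rw [← hk, h0] at h1
    have h2 : sh v0 (col va) = sh v0 (col va) + 1 := h1
    exact absurd h2 (by rw [C2_sh_va]; decide)

theorem C2_iii (f : Racg adj32) (hf : f ∈ F32) : f * gv ∉ D32 := by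
  intro hd
  have h1 := C2_col_D _ hd (mkOm (sh v0) (om v0 0))
  rw [mul_smul, (C1_v0 _).2, C1_F f hf] at h1
  have h2 : (0 : ZMod 2) = sh v0 (col v0) := h1
  rw [C2_sh_v0] at h2
  exact absurd h2 (by decide)

theorem C2_iv (f : Racg adj32) (hf : f ∈ F32) : gv * f ∉ D32 := by
  intro hd
  have h1 := C2_col_D _ hd (mkOm 0 0)
  rw [mul_smul, C1_F f hf, (C1_v0 _).1] at h1
  have h2 : sh v0 (col v0) = (0 : ZMod 2) := h1
  rw [C2_sh_v0] at h2
  exact absurd h2 (by decide)

theorem C2_cinv (h : ℤ) : gc⁻¹ • mkOm 0 h = mkOm 0 (h - 2) := by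
  have := (C1_zpow (-1) h).1
  rw [zpow_neg_one] at this
  rw [this]; congr 1

theorem C2_v (f : Racg adj32) (hf : f ∈ F32) : gv * (f * gc⁻¹) * gv ∉ D32 := by
  intro hd
  have h0 : (gv * (f * gc⁻¹) * gv) • mkOm (sh v0) (om v0 0) =
      mkOm (sh v0) (0 - 2 + om v0 0) := by
    rw [mul_smul, mul_smul, (C1_v0 _).2, sub_self, mul_smul, C2_cinv, C1_F f hf, (C1_v0 _).1]
  obtain ⟨k, hk | hk⟩ := C1_D _ hd
  · rw [hk, (C1_zpow k _).2] at h0
    have := C2_snd h0
    omega
  · have h1 := C1_a k (om v0 0) (sh v0)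
    rw [← hk, h0] at h1
    have h2 : sh v0 (col va) = sh v0 (col va) + 1 := h1
    exact absurd h2 (by rw [C2_sh_va]; decide)

theorem C2_vi (f : Racg adj32) (hf : f ∈ F32) : f * gc⁻¹ * gv ∉ D32 := by
  intro hd
  have h1 := C2_col_D _ hd (mkOm (sh v0) (om v0 0))
  rw [mul_smul, (C1_v0 _).2, mul_smul, C2_cinv, C1_F f hf] at h1
  have h2 : (0 : ZMod 2) = sh v0 (col v0) := h1
  rw [C2_sh_v0] at h2
  exact absurd h2 (by decide)

theorem C2_norm (f : Racg adj32) (hf : f ∈ F32) : gc⁻¹ * f * gc ∈ F32 := by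
  show (gc⁻¹ * f * gc) • o0 = o0
  rw [o0, mul_smul, mul_smul, C1_c0, C1_F f hf, C2_cinv]
  congr 1

theorem C2_c1 : gv * gc * gv * (gc ^ 2)⁻¹ ∈ F32 := by
  show (gv * gc * gv * (gc ^ 2)⁻¹) • o0 = o0
  have h1 : (gc ^ 2)⁻¹ • mkOm 0 0 = mkOm 0 (0 - 4) := by
    rw [inv_smul_eq_iff, pow_two, mul_smul, C1_c0, C1_c0]
    congr 1
  rw [o0, mul_smul, h1, mul_smul, (C1_v0 _).1, mul_smul, C1_c1, (C1_v0 _).2]
  congr 1

theorem C2_ne : ∃ f ∈ F32, f ≠ 1 := by
  refine ⟨gen adj32 vf * (gen adj32 wf * (gen adj32 vf * gen adj32 wf)), ?_, ?_⟩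
  · show _ • o0 = o0
    rw [o0, mul_smul, mul_smul, mul_smul, gen_smul, gen_smul, gen_smul, gen_smul]
    refine Prod.ext ?_ ?_
    · show (0 : Fin 5 → ZMod 2) + sh wf + sh vf + sh wf + sh vf = 0
      decide +kernel
    · show (0 : ℤ) + om wf 0 + om vf (0 + sh wf) + om wf (0 + sh wf + sh vf) +
        om vf (0 + sh wf + sh vf + sh wf) = 0
      decide +kernel
  · intro h
    let t : Fin 32 → DihedralGroup 4 := fun i =>
      if i = vf then DihedralGroup.sr 0 else if i = wf then DihedralGroup.sr 1 else 1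
    have ht1 : ∀ i, t i * t i = 1 := by decide +kernel
    have ht2 : ∀ i j, adj32 i j → t i * t j = t j * t i := by decide +kernel
    have h1 := congrArg (rlift t ht1 ht2) h
    simp only [map_mul, rlift_gen, map_one] at h1
    exact absurd h1 (by decide +kernel)

end NSep
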