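import Mathlib

/-!
Module FP (finite presentability).
FP_retract: r is surjective and its kernel is the normal closure of the finite set of the elements
(i (r g))⁻¹ * g, g in a finite generating set of G: modulo this set g = i (r g) for generators,
hence for all g; so g in the kernel is trivial modulo the set. Use
Group.IsFinitelyPresented.of_surjective.
FP_finiteIndex (Reidemeister-Schreier): let phi : FreeGroup (Fin n) → G be the presentation with
finite relator set R (from IsFinitelyPresented), X = G / K (finite), t : X → G with t x • K = x
and t K = 1. Let P be the presented group with generators (k, x), k : Fin n, x : X, and for every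
relator r in R and every x : X the relator kappa r x, where kappa : FreeGroup (Fin n) → X →
FreeGroup (Fin n × X) is the crossed map with kappa (of k) x = of (k, x) and
kappa (g h) x = kappa g (h x) * kappa h x (first component of the action of FreeGroup (Fin n) on
X × FreeGroup: lift of permutations). Phi : K → P, g ↦ kappa g K (well defined by the relators:
let G act on X × P). Psi : P → K, (k, x) ↦ (t (k x))⁻¹ phi(k) (t x) is well defined, and
Psi (kappa g x) = (t (g x))⁻¹ g (t x) for all g by induction, so Psi (Phi g) = g for g in K.
Apply FP_retract.
-/

namespace NSep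

theorem FP_retract {G H : Type*} [Group G] [Group H] (hG : Group.IsFinitelyPresented G)
    (i : H →* G) (r : G →* H) (h : ∀ x, r (i x) = x) : Group.IsFinitelyPresented H := by
  obtain ⟨n, φ, hφ, _⟩ := hG.out
  have hs : Function.Surjective r := fun x => ⟨i x, h x⟩
  refine Group.IsFinitelyPresented.of_surjective r hs ?_
  refine ⟨Set.range (fun k : Fin n => (i (r (φ (FreeGroup.of k))))⁻¹ * φ (FreeGroup.of k)),
    Set.finite_range _, ?_⟩
  set S : Set G := Set.range (fun k : Fin n => (i (r (φ (FreeGroup.of k))))⁻¹ *
    φ (FreeGroup.of k)) with hS
  apply le_antisymm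
  · apply Subgroup.normalClosure_le_normal
    rintro _ ⟨k, rfl⟩
    change r _ = 1
    rw [map_mul, map_inv, h, inv_mul_cancel]
  · intro g hg
    have hg' : r g = 1 := hg
    have h1 : (QuotientGroup.mk' (Subgroup.normalClosure S)).comp φ
        = ((QuotientGroup.mk' (Subgroup.normalClosure S)).comp (i.comp r)).comp φ := by
      apply FreeGroup.ext_hom
      intro k
      change (QuotientGroup.mk (φ (FreeGroup.of k)) : G ⧸ Subgroup.normalClosure S)
        = QuotientGroup.mk (i (r (φ (FreeGroup.of k))))
      rw [eq_comm, QuotientGroup.eq]
      exact Subgroup.subset_normalClosure ⟨k, rfl⟩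
    obtain ⟨w, hw⟩ := hφ g
    have h2 := DFunLike.congr_fun h1 w
    change (QuotientGroup.mk (φ w) : G ⧸ Subgroup.normalClosure S)
      = QuotientGroup.mk (i (r (φ w))) at h2
    rw [hw, hg', map_one] at h2
    exact (QuotientGroup.eq_one_iff g).1 h2

end NSep
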