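import Pool.Agent.Lib.MP_1beec2_gt.M2

/-!
Module M4. kap is a cocycle on everything with values in the group Racg adj itself; on R 0 it is
the coboundary (t0 (i x))⁻¹ * gen i * t0 x. Claim: the same on every R n, with t depending on n,
t = t0 on R 0. Induction on n: for x in R (n+1) \ R n choose v with gen v • x in R n (clause b:
Good lists are nonempty) and put t x := gen v * t (v x) * kap v x (t unchanged on R n).
Then kap v x = (t (v x))⁻¹ * gen v * t x. The set of i with gen i • x in R n is connected
(M1_connected), and if kap i x = (t (i x))⁻¹ gen i (t x) and adj i j, i x, j x in R n (so i j x in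
R n by clause c), then kap j (i x) * kap i x = kap i (j x) * kap j x gives
(t (j i x))⁻¹ gen j gen i (t x) = (t (i j x))⁻¹ gen i (t (j x)) * kap j x, so
kap j x = (t (j x))⁻¹ gen j (t x). For edges ending in x use the first cocycle relation. By clause a
there are no edges inside R (n+1) \ R n.
-/

namespace NSep

variable {ι : Type*} {adj : ι → ι → Prop} {X : Type*} [MulAction (Racg adj) X]

theorem M4_coboundary (sym : ∀ i j, adj i j → adj j i) (irr : ∀ i, ¬ adj i i)
    (R : ℕ → Set X) (hR : ∀ n, StepOK adj (R n) (R (n + 1)))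
    (kap : ι → X → Racg adj) (hk : Coc adj Set.univ kap) (t0 : X → Racg adj)
    (h0 : ∀ i x, x ∈ R 0 → gen adj i • x ∈ R 0 →
      kap i x = (t0 (gen adj i • x))⁻¹ * gen adj i * t0 x) (n : ℕ) :
    ∃ t : X → Racg adj, (∀ x ∈ R 0, t x = t0 x) ∧
      ∀ i x, x ∈ R n → gen adj i • x ∈ R n →
        kap i x = (t (gen adj i • x))⁻¹ * gen adj i * t x := by
  have _ := irr
  induction n with
  | zero => exact ⟨t0, fun _ _ => rfl, h0⟩
  | succ n ih =>
    obtain ⟨t, ht0, ht⟩ := ih
    have hs := hR n
    have h0n : R 0 ⊆ R n := by
      clear ht ht0 hs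
      induction n with
      | zero => exact subset_rfl
      | succ n ih => exact ih.trans (hR n).sub
    -- the new values
    have hex : ∀ x, ∃ s : Racg adj, (x ∈ R n → s = t x) ∧ (x ∈ R (n + 1) → x ∉ R n →
        ∃ v, gen adj v • x ∈ R n ∧ s = gen adj v * t (gen adj v • x) * kap v x) := by
      intro x
      by_cases hx : x ∈ R n
      · exact ⟨t x, fun _ => rfl, fun _ h => absurd hx h⟩
      · by_cases hx' : x ∈ R (n + 1)
        · obtain ⟨l, hl, hl'⟩ := hs.b x hx' hx
          have hne : ∃ v, v ∈ l := by
            cases hl with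
            | single v => exact ⟨v, List.mem_cons_self⟩
            | cons v l p h1 h2 h3 h4 h5 => exact ⟨v, List.mem_cons_self⟩
          obtain ⟨v, hv⟩ := hne
          exact ⟨gen adj v * t (gen adj v • x) * kap v x, fun h => absurd h hx,
            fun _ _ => ⟨v, (hl' v).mp hv, rfl⟩⟩
        · exact ⟨1, fun h => absurd h hx, fun h => absurd h hx'⟩
    choose t' ht1 ht2 using hex
    -- the relation at a new vertex
    have hrel : ∀ x, x ∈ R (n + 1) → x ∉ R n → ∀ i, gen adj i • x ∈ R n →
        kap i x = (t (gen adj i • x))⁻¹ * gen adj i * t' x := by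
      intro x hx hx' i hi
      obtain ⟨v, hv, hv'⟩ := ht2 x hx hx'
      obtain ⟨l, hl, hl'⟩ := hs.b x hx hx'
      refine M1_connected sym hl (fun i => kap i x = (t (gen adj i • x))⁻¹ * gen adj i * t' x)
        v ((hl' v).mpr hv) ?_ ?_ i ((hl' i).mpr hi)
      · show kap v x = (t (gen adj v • x))⁻¹ * gen adj v * t' x
        rw [hv', mul_assoc, mul_assoc, gen_mul_gen_mul, inv_mul_cancel_left]
      · intro a ha b hb hab hpa
        show kap b x = (t (gen adj b • x))⁻¹ * gen adj b * t' x
        have hpa' : kap a x = (t (gen adj a • x))⁻¹ * gen adj a * t' x := hpa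
        have hax : gen adj a • x ∈ R n := (hl' a).mp ha
        have hbx : gen adj b • x ∈ R n := (hl' b).mp hb
        have habx : gen adj a • gen adj b • x ∈ R n := hs.c x hx hx' a b hab hax hbx
        have hcomm : gen adj b • gen adj a • x = gen adj a • gen adj b • x := by
          rw [← mul_smul, ← mul_smul, gen_comm hab]
        have hbax : gen adj b • gen adj a • x ∈ R n := hcomm ▸ habx
        have e1 := hk.2 a b x hab trivial trivial trivial trivial
        have e2 := ht a (gen adj b • x) hbx habx
        have e3 := ht b (gen adj a • x) hax hbax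
        rw [e2, e3, hpa', hcomm] at e1
        have e4 : gen adj a * (gen adj b * gen adj a) = gen adj b := by
          rw [← gen_comm hab, gen_mul_gen_mul]
        calc kap b x = ((t (gen adj a • gen adj b • x))⁻¹ * gen adj a * t (gen adj b • x))⁻¹ *
              ((t (gen adj a • gen adj b • x))⁻¹ * gen adj a * t (gen adj b • x) * kap b x) := by
              group
          _ = (t (gen adj b • x))⁻¹ * ((gen adj a)⁻¹ * (gen adj b * gen adj a)) * t' x := by
              rw [e1]; group
          _ = _ := by rw [gen_inv, e4]
    refine ⟨t', fun x hx => ?_, fun i x hx hix => ?_⟩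
    · rw [ht1 x (h0n hx), ht0 x hx]
    · by_cases h1 : x ∈ R n
      · by_cases h2 : gen adj i • x ∈ R n
        · rw [ht i x h1 h2, ht1 x h1, ht1 _ h2]
        · have h3 : gen adj i • gen adj i • x = x := by
            rw [← mul_smul, gen_mul_self, one_smul]
          have h4 := hrel (gen adj i • x) hix h2 i (by rw [h3]; exact h1)
          have h5 := hk.1 i x trivial trivial
          rw [h4, h3] at h5
          rw [ht1 x h1]
          have h6 : kap i x = ((t x)⁻¹ * gen adj i * t' (gen adj i • x))⁻¹ :=
            (inv_eq_of_mul_eq_one_right h5).symm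
          rw [h6, mul_inv_rev, mul_inv_rev, gen_inv, inv_inv, mul_assoc]
      · have h2 : gen adj i • x ∈ R n := hs.a x hx h1 i hix
        rw [hrel x hx h1 i h2, ht1 _ h2]

end NSep
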