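import Pool.Agent.Lib.MP_1beec2_gt.MorseDefs

/-!
Module M5 (levels). R n := {x | -n ≤ h x ≤ 3 M + n}. Clauses for x in R (n+1) \ R n, that is
h x = 3 M + n + 1 or h x = -n-1.
Top: i x in R n iff h (i x) < h x (different from h x, and h (i x) ≥ h x - M ≥ -n); two letters:
h (i j x) - h (j x) = h (i x) - h x < 0 by sq; so h (i j x) ≥ h x - 2 M ≥ -n and ≤ 3 M + n. Three
letters: h (i j k x) - h (j k x) = h (i k x) - h (k x) = h (i x) - h x < 0, using sq at k x and at
x, so ≥ h x - 3 M ≥ -n. Bottom is symmetric. Clause a: neighbours in R (n+1) have another height;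
they are in R n because 3 M + 1 > M.
-/

namespace NSep

variable {ι : Type*} {adj : ι → ι → Prop} {X : Type*} [MulAction (Racg adj) X]

theorem M5_levels (sym : ∀ i j, adj i j → adj j i) (h : X → ℤ) (M : ℕ)
    (hne : ∀ i x, h (gen adj i • x) ≠ h x)
    (hM : ∀ i x, |h (gen adj i • x) - h x| ≤ M)
    (sq : ∀ i j x, adj i j → h (gen adj i • gen adj j • x) - h (gen adj j • x) =
      h (gen adj i • x) - h x)
    (leg1 : ∀ x, GoodSet adj {i | h (gen adj i • x) < h x})
    (leg2 : ∀ x, GoodSet adj {i | h x < h (gen adj i • x)}) (n : ℕ) :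
    StepOK adj {x | -(n : ℤ) ≤ h x ∧ h x ≤ 3 * M + n}
      {x | -((n + 1 : ℕ) : ℤ) ≤ h x ∧ h x ≤ 3 * M + (n + 1 : ℕ)} := by
  have _ := sym
  have hl : ∀ i x, h x - M ≤ h (gen adj i • x) := fun i x => by
    have := (abs_le.mp (hM i x)).1; linarith
  have hu : ∀ i x, h (gen adj i • x) ≤ h x + M := fun i x => by
    have := (abs_le.mp (hM i x)).2; linarith
  have hM0 : (0 : ℤ) ≤ M := Int.natCast_nonneg _
  have hn0 : (0 : ℤ) ≤ n := Int.natCast_nonneg _
  -- the height of a new point
  have hnew : ∀ x ∈ {x | -((n + 1 : ℕ) : ℤ) ≤ h x ∧ h x ≤ 3 * M + (n + 1 : ℕ)},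
      x ∉ {x | -(n : ℤ) ≤ h x ∧ h x ≤ 3 * M + n} →
      h x = 3 * M + n + 1 ∨ h x = -(n : ℤ) - 1 := by
    rintro x ⟨h1, h2⟩ h3
    simp only [Set.mem_ofPred_eq, not_and, not_le] at h3
    push_cast at h1 h2
    by_cases h4 : -(n : ℤ) ≤ h x
    · left; have := h3 h4; omega
    · right; omega
  refine ⟨?_, ?_, ?_, ?_, ?_⟩
  · rintro x ⟨h1, h2⟩
    exact ⟨by push_cast; omega, by push_cast; omega⟩
  · rintro x hx hx' i ⟨h1, h2⟩
    have h3 := hne i x
    have h4 := hl i x
    have h5 := hu i x
    push_cast at h1 h2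
    rcases hnew x hx hx' with h6 | h6
    · exact ⟨by omega, by omega⟩
    · exact ⟨by omega, by omega⟩
  · intro x hx hx'
    rcases hnew x hx hx' with h6 | h6
    · have : {i | gen adj i • x ∈ {x | -(n : ℤ) ≤ h x ∧ h x ≤ 3 * M + n}} =
          {i | h (gen adj i • x) < h x} := by
        ext i
        have h3 := hne i x
        have h4 := hl i x
        have h5 := hu i x
        simp only [Set.mem_ofPred_eq]
        constructor
        · rintro ⟨_, h7⟩; omega
        · intro h7; exact ⟨by omega, by omega⟩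
      rw [this]; exact leg1 x
    · have : {i | gen adj i • x ∈ {x | -(n : ℤ) ≤ h x ∧ h x ≤ 3 * M + n}} =
          {i | h x < h (gen adj i • x)} := by
        ext i
        have h3 := hne i x
        have h4 := hl i x
        have h5 := hu i x
        simp only [Set.mem_ofPred_eq]
        constructor
        · rintro ⟨h7, _⟩; omega
        · intro h7; exact ⟨by omega, by omega⟩
      rw [this]; exact leg2 x
  · rintro x hx hx' i j hij ⟨h1, h2⟩ ⟨h3, h4⟩
    have e := sq i j x hij
    have i1 := hl i x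
    have i2 := hu i x
    have j1 := hl j x
    have j2 := hu j x
    have i3 := hne i x
    have j3 := hne j x
    rcases hnew x hx hx' with h6 | h6
    · exact ⟨by omega, by omega⟩
    · exact ⟨by omega, by omega⟩
  · rintro x hx hx' i j k hij hjk hik ⟨h1, h2⟩ ⟨h3, h4⟩ ⟨h5, h7⟩
    have e1 := sq i j (gen adj k • x) hij
    have e2 := sq i k x hik
    have e3 := sq j k x hjk
    have i1 := hl i x
    have i2 := hu i x
    have j1 := hl j x
    have j2 := hu j x
    have k1 := hl k x
    have k2 := hu k x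
    have i3 := hne i x
    have j3 := hne j x
    have k3 := hne k x
    rcases hnew x hx hx' with h6 | h6
    · exact ⟨by omega, by omega⟩
    · exact ⟨by omega, by omega⟩

end NSep
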