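import Pool.Agent.Lib.MP_1beec2_gt.M3
import Pool.Agent.Lib.MP_1beec2_gt.M4
import Pool.Agent.Lib.MP_1beec2_gt.M5
import Pool.Agent.Lib.MP_1beec2_gt.FP

/-!
Module M6. The stabilizer S of x0 is finitely presented.
-/

namespace NSep

variable {ι : Type*} {adj : ι → ι → Prop} {X : Type*} [MulAction (Racg adj) X]

section M6

open Classical in
/-- the generators -/
noncomputable def M6_gn (R : Set X) (i : ι) (x : X) : FreeGroup (ι × R) :=
  if h : x ∈ R then FreeGroup.of (i, ⟨x, h⟩) else 1

open Classical in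
/-- relators of the first kind -/
noncomputable def M6_r1 (adj : ι → ι → Prop) {X : Type*} [MulAction (Racg adj) X] (R : Set X)
    (p : ι × R) : FreeGroup (ι × R) :=
  if gen adj p.1 • (p.2 : X) ∈ R then
    M6_gn R p.1 (gen adj p.1 • (p.2 : X)) * M6_gn R p.1 (p.2 : X) else 1

open Classical in
/-- relators of the second kind -/
noncomputable def M6_r2 (adj : ι → ι → Prop) {X : Type*} [MulAction (Racg adj) X] (R : Set X)
    (p : ι × ι × R) : FreeGroup (ι × R) :=
  if adj p.1 p.2.1 ∧ gen adj p.1 • (p.2.2 : X) ∈ R ∧ gen adj p.2.1 • (p.2.2 : X) ∈ R ∧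
      gen adj p.1 • gen adj p.2.1 • (p.2.2 : X) ∈ R then
    (M6_gn R p.1 (gen adj p.2.1 • (p.2.2 : X)) * M6_gn R p.2.1 (p.2.2 : X)) *
    (M6_gn R p.2.1 (gen adj p.1 • (p.2.2 : X)) * M6_gn R p.1 (p.2.2 : X))⁻¹ else 1

/-- all relators -/
noncomputable def M6_rels (adj : ι → ι → Prop) {X : Type*} [MulAction (Racg adj) X] (R : Set X) :
    Set (FreeGroup (ι × R)) :=
  Set.range (M6_r1 adj R) ∪ Set.range (M6_r2 adj R)

theorem M6_fin_rels [Finite ι] {R : Set X} (hR : R.Finite) : (M6_rels adj R).Finite := by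
  have : Finite R := hR
  exact (Set.finite_range _).union (Set.finite_range _)

theorem M6_coc (R : Set X) :
    Coc adj R (fun i x => PresentedGroup.mk (M6_rels adj R) (M6_gn R i x)) := by
  constructor
  · intro i x hx hix
    rw [← map_mul]
    apply PresentedGroup.one_of_mem
    refine Or.inl ⟨(i, ⟨x, hx⟩), ?_⟩
    unfold M6_r1
    rw [if_pos hix]
  · intro i j x hij hx hix hjx hijx
    rw [← map_mul, ← map_mul, ← mul_inv_eq_one, ← map_inv, ← map_mul]
    apply PresentedGroup.one_of_mem
    refine Or.inr ⟨(i, j, ⟨x, hx⟩), ?_⟩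
    unfold M6_r2
    rw [if_pos ⟨hij, hix, hjx, hijx⟩]

/-- the element of the stabilizer -/
noncomputable def M6_st (x0 : X) (t0 : X → Racg adj) (ht : ∀ x, t0 x • x0 = x) (i : ι) (x : X) :
    MulAction.stabilizer (Racg adj) x0 :=
  ⟨(t0 (gen adj i • x))⁻¹ * gen adj i * t0 x, by
    rw [MulAction.mem_stabilizer_iff, mul_smul, mul_smul, ht, inv_smul_eq_iff, ht]⟩

theorem M6_gg (i : ι) (x : X) : gen adj i • gen adj i • x = x := by
  rw [← mul_smul, gen_mul_self, one_smul]

theorem M6_gc {i j : ι} (h : adj i j) (x : X) :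
    gen adj i • gen adj j • x = gen adj j • gen adj i • x := by
  rw [← mul_smul, gen_comm h, mul_smul]

/-- the homomorphism to the stabilizer -/
noncomputable def M6_psi (R : Set X) (x0 : X) (t0 : X → Racg adj) (ht : ∀ x, t0 x • x0 = x) :
    PresentedGroup (M6_rels adj R) →* MulAction.stabilizer (Racg adj) x0 :=
  PresentedGroup.toGroup (f := fun p : ι × R => M6_st x0 t0 ht p.1 (p.2 : X)) (by
    have key : ∀ i x, x ∈ R → FreeGroup.lift (fun p : ι × R => M6_st x0 t0 ht p.1 (p.2 : X))
        (M6_gn R i x) = M6_st x0 t0 ht i x := by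
      intro i x hx
      unfold M6_gn
      rw [dif_pos hx, FreeGroup.lift_apply_of]
    rintro w (⟨⟨i, x, hx⟩, rfl⟩ | ⟨⟨i, j, x, hx⟩, rfl⟩)
    · unfold M6_r1
      split_ifs with h
      · rw [map_mul, key _ _ h, key _ _ hx]
        apply Subtype.ext
        show (t0 (gen adj i • gen adj i • x))⁻¹ * gen adj i * t0 (gen adj i • x) *
          ((t0 (gen adj i • x))⁻¹ * gen adj i * t0 x) = 1
        rw [M6_gg]
        have : (t0 x)⁻¹ * gen adj i * t0 (gen adj i • x) *
          ((t0 (gen adj i • x))⁻¹ * gen adj i * t0 x) = (t0 x)⁻¹ * (gen adj i * gen adj i) * t0 x := by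
          group
        rw [this, gen_mul_self]
        group
      · exact map_one _
    · unfold M6_r2
      split_ifs with h
      · obtain ⟨h1, h2, h3, h4⟩ := h
        rw [map_mul, map_inv, map_mul, map_mul, key _ _ h3, key _ _ hx, key _ _ h2, key _ _ hx]
        rw [mul_inv_eq_one]
        apply Subtype.ext
        show (t0 (gen adj i • gen adj j • x))⁻¹ * gen adj i * t0 (gen adj j • x) *
          ((t0 (gen adj j • x))⁻¹ * gen adj j * t0 x) =
          (t0 (gen adj j • gen adj i • x))⁻¹ * gen adj j * t0 (gen adj i • x) *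
          ((t0 (gen adj i • x))⁻¹ * gen adj i * t0 x)
        rw [M6_gc h1 x]
        have e1 : (t0 (gen adj j • gen adj i • x))⁻¹ * gen adj i * t0 (gen adj j • x) *
          ((t0 (gen adj j • x))⁻¹ * gen adj j * t0 x) =
          (t0 (gen adj j • gen adj i • x))⁻¹ * (gen adj i * gen adj j) * t0 x := by group
        have e2 : (t0 (gen adj j • gen adj i • x))⁻¹ * gen adj j * t0 (gen adj i • x) *
          ((t0 (gen adj i • x))⁻¹ * gen adj i * t0 x) =
          (t0 (gen adj j • gen adj i • x))⁻¹ * (gen adj j * gen adj i) * t0 x := by group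
        rw [e1, e2, gen_comm h1]
      · exact map_one _)

theorem M6_psi_gn (R : Set X) (x0 : X) (t0 : X → Racg adj) (ht : ∀ x, t0 x • x0 = x) (i : ι)
    (x : X) (hx : x ∈ R) :
    M6_psi R x0 t0 ht (PresentedGroup.mk (M6_rels adj R) (M6_gn R i x)) =
      M6_st x0 t0 ht i x := by
  unfold M6_gn
  rw [dif_pos hx]
  exact PresentedGroup.toGroup.of _

theorem M6_coc_map {P Q : Type*} [Group P] [Group Q] {R : Set X} {kap : ι → X → P}
    (h : Coc adj R kap) (f : P →* Q) : Coc adj R (fun i x => f (kap i x)) := by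
  constructor
  · intro i x hx hix
    rw [← map_mul, h.1 i x hx hix, map_one]
  · intro i j x hij hx h1 h2 h3
    rw [← map_mul, h.2 i j x hij hx h1 h2 h3, map_mul]

theorem M6_main [Finite ι] (sym : ∀ i j, adj i j → adj j i) (irr : ∀ i, ¬ adj i i)
    (R : ℕ → Set X) (hR : ∀ n, StepOK adj (R n) (R (n + 1))) (hU : ∀ x, ∃ n, x ∈ R n)
    (hfin : (R 0).Finite) (x0 : X) (hx0 : x0 ∈ R 0) (t0 : X → Racg adj)
    (ht : ∀ x, t0 x • x0 = x) (ht0 : t0 x0 = 1) :
    Group.IsFinitelyPresented (MulAction.stabilizer (Racg adj) x0) := by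
  have : Finite (R 0) := hfin
  have : Finite (ι × R 0) := inferInstance
  have hPr : Group.IsFinitelyPresented (PresentedGroup (M6_rels adj (R 0))) := by
    have : Finite (M6_rels adj (R 0)) := M6_fin_rels hfin
    infer_instance
  obtain ⟨kap, hk1, hk2⟩ := M3_limit sym irr R hR hU _ (M6_coc (adj := adj) (R 0))
  obtain ⟨E, hE1, hE2, hE3⟩ := M3_eval kap hk1
  set Psi := M6_psi (R 0) x0 t0 ht with hPsi
  have hmono : ∀ m n, m ≤ n → R m ⊆ R n := by
    intro m n hmn
    induction n, hmn using Nat.le_induction with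
    | base => exact subset_rfl
    | succ n _ ih => exact ih.trans (hR n).sub
  -- the homomorphism Phi
  have hst : ∀ g : MulAction.stabilizer (Racg adj) x0, (g : Racg adj) • x0 = x0 := fun g => g.2
  let Phi : MulAction.stabilizer (Racg adj) x0 →* PresentedGroup (M6_rels adj (R 0)) :=
    { toFun := fun g => E (g : Racg adj) x0
      map_one' := hE2 x0
      map_mul' := by
        intro g h
        show E ((g : Racg adj) * (h : Racg adj)) x0 = _
        rw [hE3, hst h] }
  refine FP_retract hPr Phi Psi ?_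
  -- the cocycle with values in the group
  set kW : ι → X → Racg adj := fun i x => ((Psi (kap i x) : MulAction.stabilizer (Racg adj) x0) :
    Racg adj) with hkW
  have hkWc : Coc adj Set.univ kW :=
    M6_coc_map (M6_coc_map hk1 Psi) (MulAction.stabilizer (Racg adj) x0).subtype
  have h0 : ∀ i x, x ∈ R 0 → gen adj i • x ∈ R 0 →
      kW i x = (t0 (gen adj i • x))⁻¹ * gen adj i * t0 x := by
    intro i x hx hix
    show ((Psi (kap i x) : MulAction.stabilizer (Racg adj) x0) : Racg adj) = _
    rw [hk2 i x hx hix]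
    show ((Psi (PresentedGroup.mk (M6_rels adj (R 0)) (M6_gn (R 0) i x)) :
      MulAction.stabilizer (Racg adj) x0) : Racg adj) = _
    rw [hPsi, M6_psi_gn (R 0) x0 t0 ht i x hx]
    rfl
  have key : ∀ g : Racg adj, ∀ x : X, ∃ n0, ∀ n, n0 ≤ n → ∀ t : X → Racg adj,
      (∀ i x, x ∈ R n → gen adj i • x ∈ R n →
        kW i x = (t (gen adj i • x))⁻¹ * gen adj i * t x) →
      ((Psi (E g x) : MulAction.stabilizer (Racg adj) x0) : Racg adj) =
        (t (g • x))⁻¹ * g * t x := by
    intro g x
    induction g using racg_induction with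
    | h1 =>
      refine ⟨0, fun n _ t _ => ?_⟩
      rw [hE2, map_one, one_smul, mul_one, inv_mul_cancel]
      rfl
    | h2 i g ih =>
      obtain ⟨n1, hn1⟩ := ih
      obtain ⟨n2, hn2⟩ := hU (g • x)
      obtain ⟨n3, hn3⟩ := hU (gen adj i • g • x)
      refine ⟨max n1 (max n2 n3), fun n hn t hT => ?_⟩
      have a1 : n1 ≤ n := (le_max_left _ _).trans hn
      have a2 : n2 ≤ n := ((le_max_left _ _).trans (le_max_right _ _)).trans hn
      have a3 : n3 ≤ n := ((le_max_right _ _).trans (le_max_right _ _)).trans hn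
      have b1 := hn1 n a1 t hT
      have b2 := hT i (g • x) (hmono _ _ a2 hn2) (hmono _ _ a3 hn3)
      have b3 : ((Psi (E (gen adj i * g) x) : MulAction.stabilizer (Racg adj) x0) : Racg adj) =
          kW i (g • x) * ((Psi (E g x) : MulAction.stabilizer (Racg adj) x0) : Racg adj) := by
        rw [hE3, map_mul, hE1]
        rfl
      rw [b3, b1, b2, mul_smul]
      group
  intro g
  apply Subtype.ext
  obtain ⟨n0, hn0⟩ := key (g : Racg adj) x0
  obtain ⟨t, ht1, ht2⟩ := M4_coboundary sym irr R hR kW hkWc t0 h0 n0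
  have := hn0 n0 le_rfl t ht2
  rw [hst g, ht1 x0 hx0, ht0] at this
  show ((Psi (E (g : Racg adj) x0) : MulAction.stabilizer (Racg adj) x0) : Racg adj) = g
  rw [this]
  group

end M6

theorem M6_fp [Finite ι] (sym : ∀ i j, adj i j → adj j i) (irr : ∀ i, ¬ adj i i)
    [MulAction.IsPretransitive (Racg adj) X] (h : X → ℤ) (M : ℕ)
    (hne : ∀ i x, h (gen adj i • x) ≠ h x)
    (hM : ∀ i x, |h (gen adj i • x) - h x| ≤ M)
    (sq : ∀ i j x, adj i j → h (gen adj i • gen adj j • x) - h (gen adj j • x) =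
      h (gen adj i • x) - h x)
    (leg1 : ∀ x, GoodSet adj {i | h (gen adj i • x) < h x})
    (leg2 : ∀ x, GoodSet adj {i | h x < h (gen adj i • x)})
    (fin : ∀ a b : ℤ, {x | a ≤ h x ∧ h x ≤ b}.Finite) (x0 : X) :
    Group.IsFinitelyPresented (MulAction.stabilizer (Racg adj) x0) := by
  classical
  set h' : X → ℤ := fun x => h x - h x0 with hh'
  have hR := M5_levels (adj := adj) sym h' M
    (fun i x => by
      have := hne i x
      show h (gen adj i • x) - h x0 ≠ h x - h x0
      omega)
    (fun i x => by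
      have := hM i x
      show |h (gen adj i • x) - h x0 - (h x - h x0)| ≤ M
      rw [sub_sub_sub_cancel_right]
      exact this)
    (fun i j x hij => by
      have := sq i j x hij
      show h (gen adj i • gen adj j • x) - h x0 - (h (gen adj j • x) - h x0) =
        h (gen adj i • x) - h x0 - (h x - h x0)
      omega)
    (fun x => by
      have := leg1 x
      have e : {i | h' (gen adj i • x) < h' x} = {i | h (gen adj i • x) < h x} := by
        ext i
        show h (gen adj i • x) - h x0 < h x - h x0 ↔ h (gen adj i • x) < h x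
        omega
      rw [e]
      exact this)
    (fun x => by
      have := leg2 x
      have e : {i | h' x < h' (gen adj i • x)} = {i | h x < h (gen adj i • x)} := by
        ext i
        show h x - h x0 < h (gen adj i • x) - h x0 ↔ h x < h (gen adj i • x)
        omega
      rw [e]
      exact this)
  have htr : ∀ x : X, ∃ g : Racg adj, g • x0 = x := fun x => MulAction.exists_smul_eq _ x0 x
  choose t1 ht1 using htr
  refine M6_main sym irr (fun n => {x | -(n : ℤ) ≤ h' x ∧ h' x ≤ 3 * M + n}) hR ?_ ?_ x0 ?_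
    (fun x => if x = x0 then 1 else t1 x) ?_ ?_
  · intro x
    refine ⟨(h' x).natAbs, ?_, ?_⟩
    · have : -((h' x).natAbs : ℤ) ≤ h' x := by omega
      exact this
    · have : h' x ≤ 3 * (M : ℤ) + ((h' x).natAbs : ℤ) := by omega
      exact this
  · refine (fin (h x0) (3 * M + h x0)).subset ?_
    rintro x ⟨hx1, hx2⟩
    have e1 : -((0 : ℕ) : ℤ) ≤ h x - h x0 := hx1
    have e2 : h x - h x0 ≤ 3 * M + ((0 : ℕ) : ℤ) := hx2
    constructor
    · push_cast at e1; omega
    · push_cast at e2; omega
  · have e : h' x0 = 0 := sub_self _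
    show -((0 : ℕ) : ℤ) ≤ h' x0 ∧ h' x0 ≤ 3 * M + ((0 : ℕ) : ℤ)
    rw [e]
    constructor <;> omega
  · intro x
    show (if x = x0 then (1 : Racg adj) else t1 x) • x0 = x
    split_ifs with hx
    · rw [one_smul, hx]
    · exact ht1 x
  · show (if x0 = x0 then (1 : Racg adj) else t1 x0) = 1
    rw [if_pos rfl]

end NSep
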