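import Pool.Agent.Lib.MP_1beec2_gt.O
import Pool.Agent.Lib.MP_1beec2_gt.M6

/-!
Module F1. Apply M6_fp to X := the orbit of o0 in Om (MulAction.orbit, transitive), h := height,
M := 3, with gen_smul: the height change is om i q, om_ne, om_abs, om_adj (sq), the descending set
is {v | eps v + q (col v) = 1} (om_neg_iff), good by O_good; the ascending set is the set for the
state q + (1,1,1,1,1). Finite: Om → states × heights is injective. The stabilizer of the base
point in the orbit is F32.
-/

namespace NSep

/-- the orbit of the base point -/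
abbrev F1X : Type := MulAction.orbit (Racg adj32) o0

/-- the height -/
def F1h (x : F1X) : ℤ := x.1.2

/-- the state -/
def F1q (x : F1X) : Fin 5 → ZMod 2 := x.1.1

theorem F1_smul_h (i : Fin 32) (x : F1X) :
    F1h (gen adj32 i • x) = F1h x + om i (F1q x) := by
  have h := gen_smul i x.1.1 x.1.2
  exact congrArg Prod.snd h

theorem F1_smul_q (i : Fin 32) (x : F1X) :
    F1q (gen adj32 i • x) = F1q x + sh i := by
  have h := gen_smul i x.1.1 x.1.2
  exact congrArg Prod.fst h

theorem F1_fp : Group.IsFinitelyPresented F32 := by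
  have hfin : ∀ a b : ℤ, {x : F1X | a ≤ F1h x ∧ F1h x ≤ b}.Finite := by
    intro a b
    have hinj : Function.Injective (fun x : F1X => ((F1q x, F1h x) : (Fin 5 → ZMod 2) × ℤ)) := by
      intro x y hxy
      exact Subtype.ext hxy
    refine Set.Finite.of_finite_image (f := fun x : F1X =>
      ((F1q x, F1h x) : (Fin 5 → ZMod 2) × ℤ)) ?_ hinj.injOn
    refine Set.Finite.subset ((Set.finite_univ (α := Fin 5 → ZMod 2)).prod
      (Set.finite_Icc a b)) ?_
    rintro _ ⟨x, hx, rfl⟩
    exact ⟨trivial, hx⟩
  have key := M6_fp (adj := adj32) (X := F1X) adj32_sym adj32_irr F1h 3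
    (fun i x => by
      rw [F1_smul_h]
      have := om_ne i (F1q x)
      omega)
    (fun i x => by
      rw [F1_smul_h, add_sub_cancel_left]
      exact om_abs i _)
    (fun i j x hij => by
      rw [F1_smul_h i (gen adj32 j • x), F1_smul_h i x, F1_smul_q,
        om_adj (adj32_sym _ _ hij)]
      ring)
    (fun x => by
      have h := O_good (F1q x)
      have e : {i | F1h (gen adj32 i • x) < F1h x} =
          {v | eps v + F1q x (col v) = 1} := by
        ext i
        rw [Set.mem_ofPred_eq, Set.mem_ofPred_eq, F1_smul_h, ← om_neg_iff]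
        omega
      rw [e]; exact h)
    (fun x => by
      have h := O_good (F1q x + 1)
      have e : {i | F1h x < F1h (gen adj32 i • x)} =
          {v | eps v + (F1q x + 1) (col v) = 1} := by
        ext i
        rw [Set.mem_ofPred_eq, Set.mem_ofPred_eq, F1_smul_h]
        have h1 := om_neg_iff i (F1q x)
        have h2 := om_ne i (F1q x)
        have h3 : (F1h x < F1h x + om i (F1q x)) ↔ ¬ (om i (F1q x) < 0) := by
          constructor <;> intro h <;> omega
        rw [h3, h1, Pi.add_apply, Pi.one_apply, ← add_assoc]
        rcases (by decide : ∀ t : ZMod 2, t = 0 ∨ t = 1) (eps i + F1q x (col i)) with h | h <;>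
          simp [h, (by decide : (1 : ZMod 2) + 1 ≠ 1)]
      rw [e]; exact h)
    hfin ⟨o0, MulAction.mem_orbit_self _⟩
  have e : MulAction.stabilizer (Racg adj32)
      (⟨o0, MulAction.mem_orbit_self _⟩ : F1X) = F32 := by
    ext g
    rw [MulAction.mem_stabilizer_iff, F32, MulAction.mem_stabilizer_iff]
    exact Subtype.ext_iff
  rw [← e]
  exact key

end NSep
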