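import Mathlib

/-!
Module NS (the non-separability argument). K has finite index, contains F and s. Work with left
cosets of K, or directly: let n > 0 be least with c ^ n ∈ K (exists: finite index).
(1) for f in F and k : Nat: c^(-k) f c^k ∈ F (norm, induction), so f c^k K = c^k K.
(2) c1 = f0 c^2, so c1^j K = c^(2j) K (induction on j, by (1)).
(3) s c^(2j) K = s c1^j K = c^j s K = c^j K.
(4) n is odd: if n = 2 m then, by (3) with j = m, K = s K = s c^n K = c^m K, so c^m ∈ K, against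
minimality (0 < m < n).
(5) n + 1 = 2 m: c K = c^(n+1) K, so s c K = s c^(2m) K = c^m K by (3). By (1) F fixes c^m K, so
f s c K = s c K, that is c⁻¹ s⁻¹ f s c ∈ K.
-/

namespace NSep

theorem NS_conj {G : Type*} [Group G] (F : Subgroup G) (c : G)
    (norm : ∀ f ∈ F, c⁻¹ * f * c ∈ F) (k : ℕ) : ∀ f ∈ F, (c ^ k)⁻¹ * f * c ^ k ∈ F := by
  induction k with
  | zero => intro f hf; simpa using hf
  | succ k ih =>
    intro f hf
    have h := norm _ (ih f hf)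
    have e : (c ^ (k + 1))⁻¹ * f * c ^ (k + 1) = c⁻¹ * ((c ^ k)⁻¹ * f * c ^ k) * c := by
      rw [pow_succ, mul_inv_rev]
      group
    rw [e]
    exact h

theorem NS_mem {G : Type*} [Group G] (F : Subgroup G) (c c1 s : G)
    (norm : ∀ f ∈ F, c⁻¹ * f * c ∈ F) (hc1 : c1 * (c ^ 2)⁻¹ ∈ F) (hs : s * c1 = c * s)
    (K : Subgroup G) (hK : K.FiniteIndex) (hF : F ≤ K) (hsK : s ∈ K) (f : G) (hf : f ∈ F) :
    c⁻¹ * s⁻¹ * f * s * c ∈ K := by
  classical
  -- (2)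
  have h2 : ∀ j : ℕ, (c ^ (2 * j))⁻¹ * c1 ^ j ∈ K := by
    intro j
    induction j with
    | zero => simp
    | succ j ih =>
      have h := hF (NS_conj F c norm (2 * (j + 1)) _ hc1)
      have e : (c ^ (2 * (j + 1)))⁻¹ * c1 ^ (j + 1) =
          ((c ^ (2 * (j + 1)))⁻¹ * (c1 * (c ^ 2)⁻¹) * c ^ (2 * (j + 1))) *
            ((c ^ (2 * j))⁻¹ * c1 ^ j) := by
        rw [pow_succ' c1 j, show 2 * (j + 1) = 2 + 2 * j by ring, pow_add]
        group
      rw [e]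
      exact K.mul_mem h ih
  -- s c1^j = c^j s
  have h3' : ∀ j : ℕ, s * c1 ^ j = c ^ j * s := by
    intro j
    induction j with
    | zero => simp
    | succ j ih => rw [pow_succ, ← mul_assoc, ih, mul_assoc, hs, ← mul_assoc, ← pow_succ]
  -- (3)
  have h3 : ∀ j : ℕ, (c ^ j)⁻¹ * s * c ^ (2 * j) ∈ K := by
    intro j
    have e : (c ^ j)⁻¹ * s * c ^ (2 * j) = s * ((c ^ (2 * j))⁻¹ * c1 ^ j)⁻¹ := by
      have h4 : s = c ^ j * s * (c1 ^ j)⁻¹ := by rw [← h3' j, mul_inv_cancel_right]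
      rw [mul_inv_rev, inv_inv]
      calc (c ^ j)⁻¹ * s * c ^ (2 * j) = (c ^ j)⁻¹ * (c ^ j * s * (c1 ^ j)⁻¹) * c ^ (2 * j) := by
            rw [← h4]
        _ = s * ((c1 ^ j)⁻¹ * c ^ (2 * j)) := by group
    rw [e]
    exact K.mul_mem hsK (K.inv_mem (h2 j))
  -- the period
  have hex : ∃ n : ℕ, 0 < n ∧ c ^ n ∈ K := by
    obtain ⟨n, hn, -, h⟩ := Subgroup.exists_pow_mem_of_index_ne_zero hK.index_ne_zero c
    exact ⟨n, hn, h⟩
  obtain ⟨hn0, hn1⟩ := Nat.find_spec hex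
  have hmin : ∀ m : ℕ, m < Nat.find hex → ¬ (0 < m ∧ c ^ m ∈ K) := fun m hm => Nat.find_min hex hm
  generalize Nat.find hex = n at hn0 hn1 hmin
  rcases Nat.even_or_odd n with he | ho
  · exfalso
    obtain ⟨m, hm⟩ := he
    have hm2 : n = 2 * m := by omega
    have h5 := h3 m
    rw [← hm2] at h5
    have h6 : (c ^ m)⁻¹ ∈ K := by
      have h7 := K.mul_mem (K.mul_mem h5 (K.inv_mem hn1)) (K.inv_mem hsK)
      have e : (c ^ m)⁻¹ * s * c ^ n * (c ^ n)⁻¹ * s⁻¹ = (c ^ m)⁻¹ := by group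
      rwa [e] at h7
    have h8 := K.inv_mem h6
    rw [inv_inv] at h8
    exact hmin m (by omega) ⟨by omega, h8⟩
  · obtain ⟨m, hm⟩ := ho
    have h5 := h3 (m + 1)
    have hg : (c ^ (m + 1))⁻¹ * s * c ∈ K := by
      have h7 := K.mul_mem h5 (K.inv_mem hn1)
      have e : (c ^ (m + 1))⁻¹ * s * c ^ (2 * (m + 1)) * (c ^ n)⁻¹ = (c ^ (m + 1))⁻¹ * s * c := by
        rw [show 2 * (m + 1) = 1 + n by omega, pow_add, pow_one]
        group
      rwa [e] at h7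
    have hf1 := hF (NS_conj F c norm (m + 1) f hf)
    have e : c⁻¹ * s⁻¹ * f * s * c = ((c ^ (m + 1))⁻¹ * s * c)⁻¹ *
        ((c ^ (m + 1))⁻¹ * f * c ^ (m + 1)) * ((c ^ (m + 1))⁻¹ * s * c) := by
      group
    rw [e]
    exact K.mul_mem (K.mul_mem (K.inv_mem hg) hf1) hg

end NSep
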