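import Mathlib

/-!
Module PP (ping-pong). W is a group, F a subgroup, A a subset (the half-space P x), x and v
involutions, s = x * v. Put Ap := Aᶜ, Am := {v * h | h ∉ A}.
Facts: s maps the complement of Am into Ap: if y ∉ Am then v * y ∈ A (otherwise y = v * (v * y)),
so x * (v * y) ∉ A by flip. s⁻¹ = v * x maps the complement of Ap (that is A) into Am:
y ∈ A gives x * y ∉ A. Ap and Am are disjoint (h3 with f = 1: v * h ∈ A for h ∉ A).
For f in F, f ≠ 1: f Ap ⊆ A (h1), f Am is disjoint from Am (h2: v * (f * v * h) ∈ A);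
for all f in F: f Am ⊆ A (h3), f Ap is disjoint from Am (h4).
PP_injective: ping-pong lemma Monoid.CoprodI.lift_injective_of_ping_pong for the two groups F and
Multiplicative Int (index type Bool or Fin 2) with Xs := Ap ∪ Am and
XF := {f * h | f ∈ F, f ≠ 1, h ∈ Xs} ∪ F; the map from Monoid.Coprod to CoprodI (lift of the two
injections) is injective since it has a left inverse. (s^k maps XF into Xs for k ≠ 0: s^k maps
the complement of Am into Ap for k > 0 and the complement of Ap into Am for k < 0; XF is disjoint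
from Ap and Am by h1..h6.)
PP_fp: the subgroup F ⊔ zpowers s is the range of that injective homomorphism, and
Monoid.Coprod of two finitely presented groups is finitely presented (Mathlib instance).
PP_orbit: every element of F ⊔ zpowers s lies in F ∪ F Ap ∪ F Am (lift_word_ping_pong, the base
point 1 lies in XF, and if the last syllable is in F multiply: f ∈ XF).
PP_not_mem: z = c⁻¹ s⁻¹ f s c lies in c⁻¹ Am: s * c = x * (v * c) ∉ A by hc1 and flip;
f * (s * c) ∈ A by h1; s⁻¹ * (f * (s * c)) ∈ Am. By PP_orbit: z ∈ F contradicts hc4,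
z ∈ F Ap contradicts hc3, z ∈ F Am contradicts hc2.
-/

namespace NSep

open Monoid

/-- the hypotheses of the ping-pong -/
structure PPH {W : Type*} [Group W] (F : Subgroup W) (A : Set W) (x v : W) : Prop where
  hx : x * x = 1
  hv : v * v = 1
  flip : ∀ h, x * h ∈ A ↔ h ∉ A
  h1 : ∀ f ∈ F, f ≠ 1 → ∀ h, h ∉ A → f * h ∈ A
  h2 : ∀ f ∈ F, f ≠ 1 → ∀ h, h ∉ A → v * f * v * h ∈ A
  h3 : ∀ f ∈ F, ∀ h, h ∉ A → f * v * h ∈ A
  h4 : ∀ f ∈ F, ∀ h, h ∉ A → v * f * h ∈ A
  h5 : ∀ f ∈ F, f ∈ A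
  h6 : ∀ f ∈ F, v * f ∈ A

/-- the complement of `Ap ∪ Am` -/
def PPXF {W : Type*} [Group W] (A : Set W) (v : W) : Set W := {z | z ∈ A ∧ v * z ∈ A}

section

variable {W : Type*} [Group W] {F : Subgroup W} {A : Set W} {x v : W}

theorem PP_inv_eq (H : PPH F A x v) : (x * v)⁻¹ = v * x := by
  rw [inv_eq_iff_mul_eq_one]
  calc x * v * (v * x) = x * (v * v) * x := by simp only [mul_assoc]
    _ = 1 := by rw [H.hv, mul_one, H.hx]

theorem PP_vv (H : PPH F A x v) (y : W) : v * (v * y) = y := by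
  rw [← mul_assoc, H.hv, one_mul]

theorem PP_xx (H : PPH F A x v) (y : W) : x * (x * y) = y := by
  rw [← mul_assoc, H.hx, one_mul]

/-- `Ap` and `Am` are disjoint -/
theorem PP_disj (H : PPH F A x v) {y : W} (hy : y ∉ A) : v * y ∈ A := by
  have h := H.h3 1 F.one_mem y hy
  rwa [one_mul] at h

theorem PP_disj' (H : PPH F A x v) {y : W} (hy : v * y ∉ A) : y ∈ A := by
  by_contra h
  exact hy (PP_disj H h)

theorem PP_step_pos (H : PPH F A x v) {y : W} (hy : v * y ∈ A) : x * v * y ∉ A := by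
  intro h
  rw [mul_assoc] at h
  exact (H.flip _).1 h hy

theorem PP_step_neg (H : PPH F A x v) {y : W} (hy : y ∈ A) : v * ((x * v)⁻¹ * y) ∉ A := by
  intro h
  rw [PP_inv_eq H, mul_assoc, PP_vv H] at h
  exact (H.flip _).1 h hy

theorem PP_pos (H : PPH F A x v) {y : W} (hy : v * y ∈ A) (n : ℕ) :
    (x * v) ^ (n + 1) * y ∉ A := by
  induction n with
  | zero => simpa using PP_step_pos H hy
  | succ n ih =>
    rw [pow_succ', mul_assoc (x * v)]
    exact PP_step_pos H (PP_disj H ih)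

theorem PP_neg (H : PPH F A x v) {y : W} (hy : y ∈ A) (n : ℕ) :
    v * (((x * v)⁻¹) ^ (n + 1) * y) ∉ A := by
  induction n with
  | zero =>
    rw [zero_add, pow_one]
    exact PP_step_neg H hy
  | succ n ih =>
    rw [pow_succ' (x * v)⁻¹ (n + 1), mul_assoc ((x * v)⁻¹)]
    exact PP_step_neg H (PP_disj' H ih)

theorem PP_zpow (H : PPH F A x v) {k : ℤ} (hk : k ≠ 0) {y : W} (hy : y ∈ PPXF A v) :
    (x * v) ^ k * y ∉ PPXF A v := by
  rcases lt_or_gt_of_ne hk with h | h
  · obtain ⟨n, hn⟩ : ∃ n : ℕ, k = -((n + 1 : ℕ) : ℤ) := ⟨(-k - 1).toNat, by omega⟩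
    rw [hn, zpow_neg, zpow_natCast, ← inv_pow]
    intro h2
    exact PP_neg H hy.1 n h2.2
  · obtain ⟨n, hn⟩ : ∃ n : ℕ, k = ((n + 1 : ℕ) : ℤ) := ⟨(k - 1).toNat, by omega⟩
    rw [hn, zpow_natCast]
    intro h2
    exact PP_pos H hy.2 n h2.1

theorem PP_Fstep (H : PPH F A x v) {f : W} (hf : f ∈ F) (hf1 : f ≠ 1) {y : W}
    (hy : y ∉ PPXF A v) : f * y ∈ PPXF A v := by
  by_cases h : y ∈ A
  · have h2 : v * y ∉ A := fun h3 => hy ⟨h, h3⟩
    have e : v * (v * y) = y := PP_vv H y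
    refine ⟨?_, ?_⟩
    · have h3 := H.h3 f hf _ h2
      rwa [mul_assoc, e] at h3
    · have h3 := H.h2 f hf hf1 _ h2
      rwa [mul_assoc, e, mul_assoc] at h3
  · refine ⟨H.h1 f hf hf1 y h, ?_⟩
    have h3 := H.h4 f hf y h
    rwa [mul_assoc] at h3

theorem PP_base (H : PPH F A x v) {f : W} (hf : f ∈ F) : f ∈ PPXF A v := ⟨H.h5 f hf, H.h6 f hf⟩

theorem PP_zpow_ne (H : PPH F A x v) {k : ℤ} (hk : k ≠ 0) : (x * v) ^ k ≠ 1 := by
  intro h
  have h1 := PP_zpow H hk (PP_base H F.one_mem)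
  rw [h, one_mul] at h1
  exact h1 (PP_base H F.one_mem)

/-- the two groups -/
def PPK (F : Subgroup W) (s : W) (b : Bool) : Subgroup W := cond b F (Subgroup.zpowers s)

/-- the map from the free product -/
def PPL (F : Subgroup W) (s : W) : CoprodI (fun b => ↥(PPK F s b)) →* W :=
  CoprodI.lift fun b => (PPK F s b).subtype

theorem PP_word (H : PPH F A x v) (w : CoprodI.Word (fun b => ↥(PPK F (x * v) b))) :
    (w.fstIdx = some false → PPL F (x * v) w.prod ∉ PPXF A v) ∧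
    (w.fstIdx ≠ some false → PPL F (x * v) w.prod ∈ PPXF A v) ∧
    (w.fstIdx = none → PPL F (x * v) w.prod = 1) ∧
    (PPL F (x * v) w.prod ∈ F ∨ ∃ f ∈ F, f * PPL F (x * v) w.prod ∉ PPXF A v) ∧
    (PPL F (x * v) w.prod = 1 → w = CoprodI.Word.empty) := by
  induction w using CoprodI.Word.consRecOn with
  | empty =>
    have e : PPL F (x * v) (CoprodI.Word.empty : CoprodI.Word
        (fun b => ↥(PPK F (x * v) b))).prod = 1 := by
      rw [CoprodI.Word.prod_empty, map_one]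
    rw [e]
    refine ⟨fun h => ?_, fun _ => PP_base H F.one_mem, fun _ => rfl, Or.inl F.one_mem,
      fun _ => rfl⟩
    simp [CoprodI.Word.fstIdx, CoprodI.Word.empty] at h
  | cons i m w h1 h2 ih =>
    obtain ⟨i1, i2, i3, i4, i5⟩ := ih
    have e : PPL F (x * v) (CoprodI.Word.cons (M := fun b => ↥(PPK F (x * v) b)) m w h1 h2).prod =
        (m : W) * PPL F (x * v) w.prod := by
      rw [CoprodI.Word.prod_cons, map_mul]
      congr 1
    rw [e, CoprodI.Word.fstIdx_cons]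
    cases i with
    | false =>
      have hm : (m : W) ∈ Subgroup.zpowers (x * v) := m.2
      obtain ⟨k, hk⟩ := hm
      have hk0 : k ≠ 0 := by
        rintro rfl
        apply h2
        apply Subtype.ext
        rw [← hk]
        simp
      have hk' : (x * v) ^ k = (m : W) := hk
      have hn : (m : W) * PPL F (x * v) w.prod ∉ PPXF A v := by
        rw [← hk']
        exact PP_zpow H hk0 (i2 h1)
      refine ⟨fun _ => hn, fun h => absurd rfl h, fun h => ?_, Or.inr ⟨1, F.one_mem, ?_⟩,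
        fun h => ?_⟩
      · simp at h
      · rw [one_mul]; exact hn
      · exfalso
        rw [h] at hn
        exact hn (PP_base H F.one_mem)
    | true =>
      have hmF : (m : W) ∈ F := m.2
      have hm1 : (m : W) ≠ 1 := fun h => h2 (Subtype.ext h)
      have hcase : w.fstIdx = none ∨ w.fstIdx = some false := by
        rcases hw : w.fstIdx with _ | b
        · left; rfl
        · right
          cases b with
          | false => rfl
          | true => exact absurd hw h1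
      rcases hcase with hc | hc
      · rw [i3 hc, mul_one]
        refine ⟨fun h => ?_, fun _ => PP_base H hmF, fun h => ?_, Or.inl hmF,
          fun h => absurd h hm1⟩
        · simp at h
        · simp at h
      · have hn := i1 hc
        refine ⟨fun h => ?_, fun _ => PP_Fstep H hmF hm1 hn, fun h => ?_,
          Or.inr ⟨(m : W)⁻¹, F.inv_mem hmF, ?_⟩, fun h => ?_⟩
        · simp at h
        · simp at h
        · rw [inv_mul_cancel_left]; exact hn
        · exfalso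
          have e2 : PPL F (x * v) w.prod = (m : W)⁻¹ := eq_inv_of_mul_eq_one_right h
          rw [e2] at hn
          exact hn (PP_base H (F.inv_mem hmF))

theorem PP_L_injective (H : PPH F A x v) : Function.Injective (PPL F (x * v)) := by
  classical
  rw [injective_iff_map_eq_one]
  intro g hg
  obtain ⟨w, rfl⟩ : ∃ w : CoprodI.Word (fun b => ↥(PPK F (x * v) b)), w.prod = g :=
    ⟨CoprodI.Word.equiv g, CoprodI.Word.equiv.symm_apply_apply g⟩
  rw [(PP_word H w).2.2.2.2 hg, CoprodI.Word.prod_empty]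

theorem PP_L_range (F : Subgroup W) (s : W) : (PPL F s).range = F ⊔ Subgroup.zpowers s := by
  unfold PPL
  rw [CoprodI.range_eq_iSup]
  simp only [Subgroup.range_subtype]
  rw [iSup_bool_eq]
  rfl

/-- every element of the group generated by `F` and `s` -/
theorem PP_orbit (H : PPH F A x v) {g : W} (hg : g ∈ F ⊔ Subgroup.zpowers (x * v)) :
    g ∈ F ∨ ∃ f ∈ F, f * g ∉ PPXF A v := by
  classical
  rw [← PP_L_range] at hg
  obtain ⟨u, rfl⟩ := hg
  obtain ⟨w, rfl⟩ : ∃ w : CoprodI.Word (fun b => ↥(PPK F (x * v) b)), w.prod = u :=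
    ⟨CoprodI.Word.equiv u, CoprodI.Word.equiv.symm_apply_apply u⟩
  exact (PP_word H w).2.2.2.1

/-- the map onto the cyclic group -/
def PPz (s : W) : Multiplicative ℤ →* ↥(Subgroup.zpowers s) :=
  zpowersHom _ ⟨s, Subgroup.mem_zpowers s⟩

theorem PPz_coe (s : W) (n : Multiplicative ℤ) : (PPz s n : W) = s ^ n.toAdd := by
  unfold PPz
  rw [zpowersHom_apply]
  simp

theorem PPz_bijective (H : PPH F A x v) : Function.Bijective (PPz (x * v)) := by
  constructor
  · rw [injective_iff_map_eq_one]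
    intro n hn
    have h1 : ((PPz (x * v) n : ↥(Subgroup.zpowers (x * v))) : W) = 1 := by rw [hn]; rfl
    rw [PPz_coe] at h1
    by_contra h2
    exact PP_zpow_ne H (k := n.toAdd) (fun h3 => h2 (Multiplicative.toAdd.injective h3)) h1
  · rintro ⟨y, k, hk⟩
    refine ⟨Multiplicative.ofAdd k, Subtype.ext ?_⟩
    rw [PPz_coe]
    exact hk

theorem PP_inj (H : PPH F A x v) :
    Function.Injective (Monoid.Coprod.lift F.subtype (zpowersHom W (x * v))) := by
  classical
  let K : Bool → Type _ := fun b => ↥(PPK F (x * v) b)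
  let i1 : ↥F →* CoprodI (fun b => ↥(PPK F (x * v) b)) :=
    (CoprodI.of (M := fun b => ↥(PPK F (x * v) b)) (i := true))
  let i2 : ↥(Subgroup.zpowers (x * v)) →* CoprodI (fun b => ↥(PPK F (x * v) b)) :=
    (CoprodI.of (M := fun b => ↥(PPK F (x * v) b)) (i := false))
  let Ψ : Monoid.Coprod ↥F (Multiplicative ℤ) →* CoprodI (fun b => ↥(PPK F (x * v) b)) :=
    Monoid.Coprod.lift i1 (i2.comp (PPz (x * v)))
  let ez : Multiplicative ℤ ≃* ↥(Subgroup.zpowers (x * v)) :=
    MulEquiv.ofBijective (PPz (x * v)) (PPz_bijective H)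
  let j : ∀ b : Bool, ↥(PPK F (x * v) b) →* Monoid.Coprod ↥F (Multiplicative ℤ) := fun b =>
    match b with
    | true => (Monoid.Coprod.inl : ↥F →* Monoid.Coprod ↥F (Multiplicative ℤ))
    | false => (Monoid.Coprod.inr : Multiplicative ℤ →* _).comp
        (ez.symm : ↥(Subgroup.zpowers (x * v)) →* Multiplicative ℤ)
  let Θ : CoprodI (fun b => ↥(PPK F (x * v) b)) →* Monoid.Coprod ↥F (Multiplicative ℤ) :=
    CoprodI.lift j
  have h1 : Θ.comp Ψ = MonoidHom.id _ := by
    apply Monoid.Coprod.hom_ext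
    · ext f
      show Θ (Ψ (Monoid.Coprod.inl f)) = Monoid.Coprod.inl f
      have e1 : Ψ (Monoid.Coprod.inl f) = i1 f := Monoid.Coprod.lift_apply_inl _ _ f
      rw [e1]
      exact CoprodI.lift_of j (i := true) f
    · ext
      show Θ (Ψ (Monoid.Coprod.inr _)) = Monoid.Coprod.inr _
      have e1 : ∀ n, Ψ (Monoid.Coprod.inr n) = i2 (PPz (x * v) n) :=
        fun n => Monoid.Coprod.lift_apply_inr _ _ n
      rw [e1]
      have e2 : ∀ y, Θ (i2 y) = Monoid.Coprod.inr (ez.symm y) :=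
        fun y => CoprodI.lift_of j (i := false) y
      rw [e2]
      congr 1
      exact ez.symm_apply_apply _
  have h2 : Function.Injective Ψ := by
    apply Function.LeftInverse.injective (g := Θ)
    intro m
    exact DFunLike.congr_fun h1 m
  have h3 : (PPL F (x * v)).comp Ψ = Monoid.Coprod.lift F.subtype (zpowersHom W (x * v)) := by
    apply Monoid.Coprod.hom_ext
    · ext f
      show PPL F (x * v) (Ψ (Monoid.Coprod.inl f)) = _
      have e1 : Ψ (Monoid.Coprod.inl f) = i1 f := Monoid.Coprod.lift_apply_inl _ _ f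
      rw [e1]
      exact CoprodI.lift_of (fun b => (PPK F (x * v) b).subtype) (i := true) f
    · ext
      show PPL F (x * v) (Ψ (Monoid.Coprod.inr _)) = Monoid.Coprod.lift F.subtype
        (zpowersHom W (x * v)) (Monoid.Coprod.inr _)
      have e1 : ∀ n, Ψ (Monoid.Coprod.inr n) = i2 (PPz (x * v) n) :=
        fun n => Monoid.Coprod.lift_apply_inr _ _ n
      rw [e1, Monoid.Coprod.lift_apply_inr]
      have e2 : ∀ y, PPL F (x * v) (i2 y) = (y : W) :=
        fun y => CoprodI.lift_of (fun b => (PPK F (x * v) b).subtype) (i := false) y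
      rw [e2, PPz_coe, zpowersHom_apply]
  rw [← h3]
  exact (PP_L_injective H).comp h2

end

theorem PP_injective {W : Type*} [Group W] (F : Subgroup W) (A : Set W) (x v : W)
    (hx : x * x = 1) (hv : v * v = 1) (flip : ∀ h, x * h ∈ A ↔ h ∉ A)
    (h1 : ∀ f ∈ F, f ≠ 1 → ∀ h, h ∉ A → f * h ∈ A)
    (h2 : ∀ f ∈ F, f ≠ 1 → ∀ h, h ∉ A → v * f * v * h ∈ A)
    (h3 : ∀ f ∈ F, ∀ h, h ∉ A → f * v * h ∈ A)
    (h4 : ∀ f ∈ F, ∀ h, h ∉ A → v * f * h ∈ A)
    (h5 : ∀ f ∈ F, f ∈ A) (h6 : ∀ f ∈ F, v * f ∈ A) (hne : ∃ f ∈ F, f ≠ 1) :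
    Function.Injective (Monoid.Coprod.lift F.subtype (zpowersHom W (x * v))) :=
  PP_inj ⟨hx, hv, flip, h1, h2, h3, h4, h5, h6⟩

theorem PP_fp {W : Type*} [Group W] (F : Subgroup W) (A : Set W) (x v : W)
    (hx : x * x = 1) (hv : v * v = 1) (flip : ∀ h, x * h ∈ A ↔ h ∉ A)
    (h1 : ∀ f ∈ F, f ≠ 1 → ∀ h, h ∉ A → f * h ∈ A)
    (h2 : ∀ f ∈ F, f ≠ 1 → ∀ h, h ∉ A → v * f * v * h ∈ A)
    (h3 : ∀ f ∈ F, ∀ h, h ∉ A → f * v * h ∈ A)
    (h4 : ∀ f ∈ F, ∀ h, h ∉ A → v * f * h ∈ A)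
    (h5 : ∀ f ∈ F, f ∈ A) (h6 : ∀ f ∈ F, v * f ∈ A) (hne : ∃ f ∈ F, f ≠ 1)
    (hF : Group.IsFinitelyPresented F) :
    Group.IsFinitelyPresented ↥(F ⊔ Subgroup.zpowers (x * v)) := by
  have hinj := PP_injective F A x v hx hv flip h1 h2 h3 h4 h5 h6 hne
  have hr : (Monoid.Coprod.lift F.subtype (zpowersHom W (x * v))).range =
      F ⊔ Subgroup.zpowers (x * v) := by
    rw [Monoid.Coprod.range_lift, Subgroup.range_subtype]
    rfl
  have e : Monoid.Coprod ↥F (Multiplicative ℤ) ≃* ↥(F ⊔ Subgroup.zpowers (x * v)) :=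
    (MonoidHom.ofInjective hinj).trans (MulEquiv.subgroupCongr hr)
  exact Group.IsFinitelyPresented.equiv e

theorem PP_not_mem {W : Type*} [Group W] (F : Subgroup W) (A : Set W) (x v : W)
    (hx : x * x = 1) (hv : v * v = 1) (flip : ∀ h, x * h ∈ A ↔ h ∉ A)
    (h1 : ∀ f ∈ F, f ≠ 1 → ∀ h, h ∉ A → f * h ∈ A)
    (h2 : ∀ f ∈ F, f ≠ 1 → ∀ h, h ∉ A → v * f * v * h ∈ A)
    (h3 : ∀ f ∈ F, ∀ h, h ∉ A → f * v * h ∈ A)
    (h4 : ∀ f ∈ F, ∀ h, h ∉ A → v * f * h ∈ A)
    (h5 : ∀ f ∈ F, f ∈ A) (h6 : ∀ f ∈ F, v * f ∈ A)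
    (c : W) (hc1 : v * c ∈ A)
    (hc2 : ∀ f ∈ F, ∀ h, h ∉ A → v * (f * c⁻¹) * v * h ∈ A)
    (hc3 : ∀ f ∈ F, ∀ h, h ∉ A → f * c⁻¹ * v * h ∈ A)
    (hc4 : ∀ f ∈ F, v * c * f ∈ A)
    (f : W) (hf : f ∈ F) (hf1 : f ≠ 1) :
    c⁻¹ * (x * v)⁻¹ * f * (x * v) * c ∉ F ⊔ Subgroup.zpowers (x * v) := by
  have H : PPH F A x v := ⟨hx, hv, flip, h1, h2, h3, h4, h5, h6⟩
  intro hz
  have a1 : x * v * c ∉ A := PP_step_pos H hc1
  have a2 : f * (x * v * c) ∈ A := h1 f hf hf1 _ a1
  have a3 : v * ((x * v)⁻¹ * (f * (x * v * c))) ∉ A := PP_step_neg H a2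
  set y := (x * v)⁻¹ * (f * (x * v * c)) with hy
  have ez : c⁻¹ * (x * v)⁻¹ * f * (x * v) * c = c⁻¹ * y := by
    rw [hy]
    simp only [mul_assoc]
  rw [ez] at hz
  have ey : v * (v * y) = y := PP_vv H y
  rcases PP_orbit H hz with h | ⟨g, hg, h⟩
  · have b1 := hc4 _ h
    have b2 : v * c * (c⁻¹ * y) = v * y := by group
    rw [b2] at b1
    exact a3 b1
  · apply h
    refine ⟨?_, ?_⟩
    · have b1 := hc3 g hg _ a3
      have b2 : g * c⁻¹ * v * (v * y) = g * (c⁻¹ * y) := by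
        rw [mul_assoc (g * c⁻¹), ey, mul_assoc]
      rwa [b2] at b1
    · have b1 := hc2 g hg _ a3
      have b2 : v * (g * c⁻¹) * v * (v * y) = v * (g * (c⁻¹ * y)) := by
        rw [mul_assoc (v * (g * c⁻¹)), ey]
        simp only [mul_assoc]
      rwa [b2] at b1

end NSep
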