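import Pool.Agent.Lib.MP_1beec2_gt.WordsDefs

/-!
Module W2 (exchange). Induction on u. Empty word: front adj e v [] is e v; otherwise third case.
Step u = w :: u'. If w = v: second case with u' (for adj v w' and front w' (v :: u') use
adj w' v). If w ≠ v and not adj v w: front holds. If w ≠ v and adj v w: apply the induction
hypothesis to u'. Front: front. Second case with u'': take w :: u'' (red: front w u' gives
front w u'' by the last clause; gen v and gen w commute). Third case: third case.
Then W2_exists_red by Subgroup.closure_induction_left (generators are their own inverses).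
-/

namespace NSep

variable {ι : Type*} {adj : ι → ι → Prop}

theorem W2_exchange (sym : ∀ i j, adj i j → adj j i) (e : ι → Prop) :
    ∀ u : List ι, red adj e u → ∀ v,
      front adj e v u ∨
      (∃ u' : List ι, red adj e u' ∧ (∀ w ∈ u', w ∈ u) ∧ u'.length < u.length ∧
        gen adj v * word adj u = word adj u' ∧
        ∀ w, adj v w → front adj e w u → front adj e w u') ∨
      (¬ e v ∧ (∀ w ∈ u, adj v w) ∧ gen adj v * word adj u = word adj u * gen adj v) := by
  intro u
  induction u with
  | nil =>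
    intro _ v
    by_cases hv : e v
    · exact Or.inl hv
    · exact Or.inr (Or.inr ⟨hv, by simp, by simp⟩)
  | cons w u ih =>
    rintro ⟨hw, hu⟩ v
    by_cases hwv : w = v
    · subst hwv
      refine Or.inr (Or.inl ⟨u, hu, fun x hx => List.mem_cons_of_mem _ hx, by simp, by simp, ?_⟩)
      intro x hx hf
      exact hf.2 (sym _ _ hx)
    by_cases ha : adj v w
    · rcases ih hu v with h1 | ⟨u', h1, h2, h3, h4, h5⟩ | ⟨h1, h2, h3⟩
      · exact Or.inl ⟨hwv, fun _ => h1⟩
      · refine Or.inr (Or.inl ⟨w :: u', ⟨h5 w ha hw, h1⟩, ?_, ?_, ?_, ?_⟩)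
        · intro x hx
          rcases List.mem_cons.1 hx with rfl | hx
          · exact List.mem_cons_self
          · exact List.mem_cons_of_mem _ (h2 x hx)
        · simpa using h3
        · rw [word_cons, word_cons, ← mul_assoc, gen_comm ha, mul_assoc, h4]
        · rintro x hx ⟨hf1, hf2⟩
          exact ⟨hf1, fun h => h5 x hx (hf2 h)⟩
      · refine Or.inr (Or.inr ⟨h1, ?_, ?_⟩)
        · intro x hx
          rcases List.mem_cons.1 hx with rfl | hx
          · exact ha
          · exact h2 x hx
        · rw [word_cons, ← mul_assoc, gen_comm ha, mul_assoc, h3, mul_assoc]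
    · exact Or.inl ⟨hwv, fun h => absurd h ha⟩

theorem W2_exists_red (sym : ∀ i j, adj i j → adj j i) (e : ι → Prop) (J : Set ι)
    (g : Racg adj) (hg : g ∈ Subgroup.closure (gen adj '' J)) :
    ∃ u : List ι, red adj e u ∧ (∀ w ∈ u, w ∈ J) ∧
      ∃ d ∈ Subgroup.closure (gen adj '' {v | v ∈ J ∧ ¬ e v}), g = word adj u * d := by
  have key : ∀ v ∈ J, ∀ y : Racg adj, (∃ u : List ι, red adj e u ∧ (∀ w ∈ u, w ∈ J) ∧
      ∃ d ∈ Subgroup.closure (gen adj '' {v | v ∈ J ∧ ¬ e v}), y = word adj u * d) →
      ∃ u : List ι, red adj e u ∧ (∀ w ∈ u, w ∈ J) ∧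
      ∃ d ∈ Subgroup.closure (gen adj '' {v | v ∈ J ∧ ¬ e v}),
        gen adj v * y = word adj u * d := by
    rintro v hv y ⟨u, hu, huJ, d, hd, rfl⟩
    rcases W2_exchange sym e u hu v with h1 | ⟨u', h1, h2, h3, h4, h5⟩ | ⟨h1, h2, h3⟩
    · refine ⟨v :: u, ⟨h1, hu⟩, ?_, d, hd, ?_⟩
      · intro x hx
        rcases List.mem_cons.1 hx with rfl | hx
        · exact hv
        · exact huJ x hx
      · rw [word_cons, mul_assoc]
    · refine ⟨u', h1, fun x hx => huJ x (h2 x hx), d, hd, ?_⟩
      rw [← mul_assoc, h4]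
    · refine ⟨u, hu, huJ, gen adj v * d, ?_, ?_⟩
      · exact mul_mem (Subgroup.subset_closure ⟨v, ⟨hv, h1⟩, rfl⟩) hd
      · rw [← mul_assoc, h3, mul_assoc]
  induction hg using Subgroup.closure_induction_left with
  | one => exact ⟨[], trivial, by simp, 1, one_mem _, by simp⟩
  | mul_left x hx y _ ih =>
    obtain ⟨v, hv, rfl⟩ := hx
    exact key v hv y ih
  | inv_mul_cancel x hx y _ ih =>
    obtain ⟨v, hv, rfl⟩ := hx
    rw [gen_inv]
    exact key v hv y ih

end NSep
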