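import Pool.Agent.Lib.MP_1beec2_gt.W1
import Pool.Agent.Lib.MP_1beec2_gt.W2

/-!
Module W3. Consequences of W1 and W2.
W3_half: for g and i take (W2_exists_red with e = fun _ => True, J = univ) a reduced word u of g
(the rest d is in the closure of the empty set, d = 1); by W2_exchange for v = i either front i u,
so g ∈ Pp i (W1 with B = {1}), or gen i * g = word u' with u' reduced; in the second case apply
W2_exchange to u' and i: it cannot be the second case again by a length argument, simpler: prove
first the lemma: for every g and i, g ∈ Pp i or gen i * g ∈ Pp i. Take the shortest reduced word u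
of g (or just: choose u reduced for g with W2; if front i u is false then gen i * g = word u' with
u' strictly shorter; induct on the length of u: gen i * word u' = word u; for u' either front i u',
so gen i * g = word u' ∈ Pp i, or gen i * word u' = word u'' with u'' shorter than u', but then
word u'' = g with u'' shorter than u: choose u of minimal length among reduced words of g.)
So g ∈ Pp i or g = gen i * (gen i * g) ∈ Pm i (flip1). With disj this gives all clauses of Half
(P := Pp).
W3_exists_not_mem: g ≠ 1 has a nonempty reduced word v :: u; front v u gives word u ∈ P v, so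
g = gen v * word u ∉ P v.
W3_mem_x: g in the subgroup generated by the other generators: a reduced word u without the letter
x satisfies front (fun _ => True) x u, so g ∈ P x.
W3_push: g in that subgroup, not in D: W2_exists_red with e v := (¬ adj v x), J = {x}ᶜ:
g = word u * d, d ∈ D, u ≠ [] (otherwise g ∈ D). D preserves the complement of P x (comm).
With B = (P x)ᶜ, W1 applies (far) to letters v ≠ x. Then by induction on u: for v :: u' with
front v u': word u' * h ∈ P v, so v * (word u' * h) ∉ P v; if v is not adjacent to x: far gives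
P x. If v is adjacent to x: u' ≠ [] (front v [] is ¬ adj v x), the induction hypothesis gives
word u' * h ∈ P x and comm finishes. (Note: W1 is for all v with e v; for the letter x itself
e x should be false: use e v := ¬ adj v x ∧ v ≠ x in W1 and W2, letters of u are ≠ x.)
-/

namespace NSep

variable {ι : Type*} {adj : ι → ι → Prop}

theorem W3_red (sym : ∀ i j, adj i j → adj j i) (J : Set ι) (g : Racg adj)
    (hg : g ∈ Subgroup.closure (gen adj '' J)) :
    ∃ u : List ι, red adj (fun _ => True) u ∧ (∀ w ∈ u, w ∈ J) ∧ word adj u = g := by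
  obtain ⟨u, hu, huJ, d, hd, hgd⟩ := W2_exists_red sym (fun _ => True) J g hg
  refine ⟨u, hu, huJ, ?_⟩
  have h1 : {v | v ∈ J ∧ ¬ (fun _ : ι => True) v} = ∅ := by
    ext v
    simp
  rw [h1, Set.image_empty, Subgroup.closure_empty, Subgroup.mem_bot] at hd
  rw [hgd, hd, mul_one]

theorem W3_mem_univ (g : Racg adj) : g ∈ Subgroup.closure (gen adj '' Set.univ) := by
  induction g using racg_induction with
  | h1 => exact one_mem _
  | h2 i g ih => exact mul_mem (Subgroup.subset_closure ⟨i, Set.mem_univ _, rfl⟩) ih

theorem W3_key (sym : ∀ i j, adj i j → adj j i) {Pp Pm : ι → Set (Racg adj)}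
    (hP : PreHalf adj Pp Pm) (g : Racg adj) (i : ι) : g ∈ Pp i ∨ gen adj i * g ∈ Pp i := by
  have hB : ∀ v, (fun _ : ι => True) v → ∀ h ∈ ({1} : Set (Racg adj)), h ∈ Pp v := by
    intro v _ h hh
    rw [Set.mem_singleton_iff.1 hh]
    exact hP.one_mem v
  have hfront : ∀ u : List ι, red adj (fun _ => True) u → front adj (fun _ => True) i u →
      word adj u ∈ Pp i := by
    intro u hu hf
    have := W1_word_mem sym hP (fun _ => True) {1} hB u hu i hf 1 rfl
    rwa [mul_one] at this
  have hex : ∃ n : ℕ, ∃ u : List ι, u.length = n ∧ red adj (fun _ => True) u ∧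
      word adj u = g := by
    obtain ⟨u, hu, _, huw⟩ := W3_red sym Set.univ g (W3_mem_univ g)
    exact ⟨u.length, u, rfl, hu, huw⟩
  classical
  obtain ⟨u, hlen, hu, huw⟩ := Nat.find_spec hex
  rcases W2_exchange sym (fun _ => True) u hu i with h1 | ⟨u', hu', _, hl', hw', _⟩ | ⟨h1, _⟩
  · left
    rw [← huw]
    exact hfront u hu h1
  · right
    rw [← huw, hw']
    rcases W2_exchange sym (fun _ => True) u' hu' i with h2 | ⟨u2, hu2, _, hl2, hw2, _⟩ | ⟨h2, _⟩
    · exact hfront u' hu' h2
    · exfalso
      have h3 : word adj u2 = g := by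
        rw [← hw2, ← hw', gen_mul_gen_mul, huw]
      have h4 := Nat.find_min hex (m := u2.length) (by omega)
      exact h4 ⟨u2, rfl, hu2, h3⟩
    · exact absurd trivial h2
  · exact absurd trivial h1

theorem W3_half (sym : ∀ i j, adj i j → adj j i) {Pp Pm : ι → Set (Racg adj)}
    (hP : PreHalf adj Pp Pm) : Half adj Pp := by
  have hor : ∀ i g, g ∈ Pp i ∨ g ∈ Pm i := by
    intro i g
    rcases W3_key sym hP g i with h | h
    · exact Or.inl h
    · right
      have := hP.flip1 i _ h
      rwa [gen_mul_gen_mul] at this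
  refine ⟨hP.one_mem, ?_, ?_, ?_⟩
  · intro i g
    constructor
    · intro h hg
      exact hP.disj i _ h (hP.flip1 i g hg)
    · intro h
      rcases hor i g with h1 | h1
      · exact absurd h1 h
      · exact hP.flip2 i g h1
  · intro i j g hij
    constructor
    · intro h
      have := hP.comm i j _ hij h
      rwa [gen_mul_gen_mul] at this
    · exact hP.comm i j g hij
  · intro i j g hij hne
    rcases hor i g with h1 | h1
    · exact Or.inl h1
    · exact Or.inr (hP.far i j g hij hne h1)

theorem W3_pre {P : ι → Set (Racg adj)} (hP : Half adj P) :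
    PreHalf adj P (fun i => (P i)ᶜ) := by
  refine ⟨hP.one_mem, ?_, ?_, ?_, ?_, ?_⟩
  · intro i g hg hg2
    exact hg2 hg
  · intro i g hg h
    exact (hP.flip i g).1 h hg
  · intro i g hg
    exact (hP.flip i g).2 hg
  · intro i j g hij hg
    exact (hP.comm i j g hij).2 hg
  · intro i j g hij hne hg
    rcases hP.far i j g hij hne with h | h
    · exact absurd h hg
    · exact h

theorem W3_exists_not_mem (sym : ∀ i j, adj i j → adj j i) {P : ι → Set (Racg adj)}
    (hP : Half adj P) (g : Racg adj) (hg : g ≠ 1) : ∃ v, g ∉ P v := by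
  obtain ⟨u, hu, _, huw⟩ := W3_red sym Set.univ g (W3_mem_univ g)
  rcases u with _ | ⟨v, u⟩
  · exact absurd huw.symm hg
  · refine ⟨v, ?_⟩
    rw [← huw, word_cons, hP.flip]
    intro h
    apply h
    have := W1_word_mem sym (W3_pre hP) (fun _ => True) {1} (by
      intro w _ k hk
      rw [Set.mem_singleton_iff.1 hk]
      exact hP.one_mem w) u hu.2 v hu.1 1 rfl
    rwa [mul_one] at this

theorem W3_mem_x (sym : ∀ i j, adj i j → adj j i) {P : ι → Set (Racg adj)}
    (hP : Half adj P) (x : ι) (g : Racg adj)
    (hg : g ∈ Subgroup.closure (gen adj '' {x}ᶜ)) : g ∈ P x := by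
  obtain ⟨u, hu, huJ, huw⟩ := W3_red sym {x}ᶜ g hg
  have hf : ∀ u : List ι, (∀ w ∈ u, w ∈ ({x}ᶜ : Set ι)) → front adj (fun _ => True) x u := by
    intro u
    induction u with
    | nil => intro _; exact trivial
    | cons w u ih =>
      intro h
      refine ⟨fun hw => h w List.mem_cons_self hw, fun _ => ih fun w' hw' =>
        h w' (List.mem_cons_of_mem _ hw')⟩
  have := W1_word_mem sym (W3_pre hP) (fun _ => True) {1} (by
      intro w _ k hk
      rw [Set.mem_singleton_iff.1 hk]
      exact hP.one_mem w) u hu x (hf u huJ) 1 rfl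
  rwa [mul_one, huw] at this

theorem W3_push (sym : ∀ i j, adj i j → adj j i) {P : ι → Set (Racg adj)}
    (hP : Half adj P) (x : ι) (g : Racg adj)
    (hg : g ∈ Subgroup.closure (gen adj '' {x}ᶜ))
    (hg' : g ∉ Subgroup.closure (gen adj '' {v | v ≠ x ∧ adj v x})) (h : Racg adj)
    (hh : h ∉ P x) : g * h ∈ P x := by
  obtain ⟨u, hu, huJ, d, hd, hgd⟩ := W2_exists_red sym (fun v => ¬ adj v x ∧ v ≠ x) {x}ᶜ g hg
  have hset : {v | v ∈ ({x}ᶜ : Set ι) ∧ ¬ (fun v => ¬ adj v x ∧ v ≠ x) v} =
      {v | v ≠ x ∧ adj v x} := by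
    ext v
    simp only [Set.mem_compl_iff, Set.mem_singleton_iff, Set.mem_ofPred_eq]
    constructor
    · rintro ⟨h1, h2⟩
      refine ⟨h1, ?_⟩
      by_contra h3
      exact h2 ⟨h3, h1⟩
    · rintro ⟨h1, h2⟩
      exact ⟨h1, fun h3 => h3.1 h2⟩
  rw [hset] at hd
  have hdh : ∀ d ∈ Subgroup.closure (gen adj '' {v | v ≠ x ∧ adj v x}), ∀ k,
      (d * k ∈ P x ↔ k ∈ P x) := by
    intro d hd
    induction hd using Subgroup.closure_induction with
    | mem y hy =>
      obtain ⟨v, hv, rfl⟩ := hy
      intro k
      exact hP.comm x v k (sym _ _ hv.2)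
    | one =>
      intro k
      rw [one_mul]
    | mul a b _ _ iha ihb =>
      intro k
      rw [mul_assoc, iha, ihb]
    | inv a _ iha =>
      intro k
      have h1 := iha (a⁻¹ * k)
      rw [mul_inv_cancel_left] at h1
      exact h1.symm
  have hk0 : d * h ∉ P x := fun h1 => hh ((hdh d hd h).1 h1)
  have hu0 : u ≠ [] := by
    rintro rfl
    apply hg'
    rw [hgd, word_nil, one_mul]
    exact hd
  have hW1 := W1_word_mem sym (W3_pre hP) (fun v => ¬ adj v x ∧ v ≠ x) (P x)ᶜ (by
    intro v hv k hk
    rcases hP.far v x k hv.1 hv.2 with h1 | h1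
    · exact h1
    · exact absurd h1 hk)
  have hmain : ∀ u : List ι, red adj (fun v => ¬ adj v x ∧ v ≠ x) u → (∀ w ∈ u, w ≠ x) →
      u ≠ [] → ∀ k, k ∉ P x → word adj u * k ∈ P x := by
    intro u
    induction u with
    | nil => intro _ _ h1; exact absurd rfl h1
    | cons v u ih =>
      intro hr hx _ k hk
      have hvx : v ≠ x := hx v List.mem_cons_self
      have h1 := hW1 u hr.2 v hr.1 k hk
      rw [word_cons, mul_assoc]
      have h2 : gen adj v * (word adj u * k) ∉ P v := fun h3 => (hP.flip v _).1 h3 h1
      by_cases hadj : adj v x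
      · have hune : u ≠ [] := by
          rintro rfl
          exact hr.1.1 hadj
        have h3 := ih hr.2 (fun w hw => hx w (List.mem_cons_of_mem _ hw)) hune k hk
        exact (hP.comm x v _ (sym _ _ hadj)).2 h3
      · rcases hP.far v x (gen adj v * (word adj u * k)) hadj hvx with h3 | h3
        · exact absurd h3 h2
        · exact h3
  rw [hgd, mul_assoc]
  exact hmain u hu (fun w hw => huJ w hw) hu0 _ hk0

end NSep
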