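import Pool.Agent.Lib.MP_1beec2_gt.C2
import Pool.Agent.Lib.MP_1beec2_gt.F1
import Pool.Agent.Lib.MP_1beec2_gt.W3
import Pool.Agent.Lib.MP_1beec2_gt.PP
import Pool.Agent.Lib.MP_1beec2_gt.NS

/-!
Module C3. F := F32.map inc (finitely presented, isomorphic to F32 by inc_injective), A := P 32,
x := gen 32, v := inc gv, c := inc gc. The closure of gen '' {v | v ≠ 32 ∧ adj33 v 32} is
D32.map inc (adj33_x). By W3_push (with inc_mem), for g in Racg adj32 not in D32 and h not in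
P 32: inc g * h ∈ P 32; this gives h1..h4, hc2, hc3 of module PP from C2_i .. C2_vi; W3_mem_x gives
h5, h6, hc1, hc4 (inc g ∈ P 32); flip from Half. s := x * v, H := F ⊔ zpowers s,
z := c⁻¹ s⁻¹ f s c with f in F, f ≠ 1 (C2_ne). PP_fp, PP_not_mem. For K of finite index containing
H use NS_mem with c1 := inc (gv * gc * gv): s * c1 = x * v * v * c * v = x * c * v = c * x * v =
c * s (x commutes with inc ga and inc gb: adj33_x).
-/

namespace NSep

theorem C3_closure : Subgroup.closure (gen adj33 '' {v : Fin 33 | v ≠ 32 ∧ adj33 v 32}) ≤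
    D32.map inc := by
  rw [Subgroup.closure_le]
  rintro _ ⟨v, ⟨_, hv⟩, rfl⟩
  rcases (adj33_x v).1 hv with rfl | rfl
  · exact ⟨ga, Subgroup.subset_closure (by simp), inc_gen va⟩
  · exact ⟨gb, Subgroup.subset_closure (by simp), inc_gen vb⟩

theorem C3_push {P : Fin 33 → Set (Racg adj33)} (hP : Half adj33 P) (g : Racg adj32)
    (hg : g ∉ D32) (h : Racg adj33) (hh : h ∉ P 32) : inc g * h ∈ P 32 := by
  refine W3_push adj33_sym hP 32 (inc g) (inc_mem g) (fun hm => hg ?_) h hh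
  obtain ⟨d, hd, e⟩ := C3_closure hm
  rwa [← inc_injective e]

theorem C3_mem {P : Fin 33 → Set (Racg adj33)} (hP : Half adj33 P) (g : Racg adj32) :
    inc g ∈ P 32 := W3_mem_x adj33_sym hP 32 (inc g) (inc_mem g)

theorem C3_xc : gen adj33 32 * inc gc = inc gc * gen adj33 32 := by
  have ha : gen adj33 32 * inc ga = inc ga * gen adj33 32 := by
    rw [ga, inc_gen]
    exact gen_comm (adj33_sym _ _ ((adj33_x _).2 (Or.inl rfl)))
  have hb : gen adj33 32 * inc gb = inc gb * gen adj33 32 := by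
    rw [gb, inc_gen]
    exact gen_comm (adj33_sym _ _ ((adj33_x _).2 (Or.inr rfl)))
  rw [gc, map_mul, ← mul_assoc, ha, mul_assoc, hb, mul_assoc]

theorem C3_main (P : Fin 33 → Set (Racg adj33)) (hP : Half adj33 P) :
    ∃ (H : Subgroup (Racg adj33)) (z : Racg adj33), Group.IsFinitelyPresented H ∧ z ∉ H ∧
      ∀ K : Subgroup (Racg adj33), K.FiniteIndex → H ≤ K → z ∈ K := by
  obtain ⟨f, hf, hf1⟩ := C2_ne
  have hx : gen adj33 32 * gen adj33 32 = 1 := gen_mul_self _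
  have hv : inc gv * inc gv = 1 := by rw [← map_mul, C2_gv_gv, map_one]
  have flip : ∀ h, gen adj33 32 * h ∈ P 32 ↔ h ∉ P 32 := hP.flip 32
  have h1 : ∀ f ∈ F32.map inc, f ≠ 1 → ∀ h, h ∉ P 32 → f * h ∈ P 32 := by
    rintro _ ⟨f, hf, rfl⟩ hne h hh
    exact C3_push hP f (fun hd => hne (by rw [C2_i f hf hd, map_one])) h hh
  have h2 : ∀ f ∈ F32.map inc, f ≠ 1 → ∀ h, h ∉ P 32 → inc gv * f * inc gv * h ∈ P 32 := by
    rintro _ ⟨f, hf, rfl⟩ hne h hh
    rw [← map_mul, ← map_mul]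
    exact C3_push hP _ (fun hd => hne (by rw [C2_ii f hf hd, map_one])) h hh
  have h3 : ∀ f ∈ F32.map inc, ∀ h, h ∉ P 32 → f * inc gv * h ∈ P 32 := by
    rintro _ ⟨f, hf, rfl⟩ h hh
    rw [← map_mul]
    exact C3_push hP _ (C2_iii f hf) h hh
  have h4 : ∀ f ∈ F32.map inc, ∀ h, h ∉ P 32 → inc gv * f * h ∈ P 32 := by
    rintro _ ⟨f, hf, rfl⟩ h hh
    rw [← map_mul]
    exact C3_push hP _ (C2_iv f hf) h hh
  have h5 : ∀ f ∈ F32.map inc, f ∈ P 32 := by
    rintro _ ⟨f, hf, rfl⟩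
    exact C3_mem hP f
  have h6 : ∀ f ∈ F32.map inc, inc gv * f ∈ P 32 := by
    rintro _ ⟨f, hf, rfl⟩
    rw [← map_mul]
    exact C3_mem hP _
  have hne : ∃ f ∈ F32.map inc, f ≠ 1 :=
    ⟨inc f, ⟨f, hf, rfl⟩, fun e => hf1 (inc_injective (by rw [e, map_one]))⟩
  have hF : Group.IsFinitelyPresented ↥(F32.map inc) := by
    have := F1_fp
    exact Group.IsFinitelyPresented.equiv (F32.equivMapOfInjective inc inc_injective)
  have hc1 : inc gv * inc gc ∈ P 32 := by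
    rw [← map_mul]; exact C3_mem hP _
  have hc2 : ∀ f ∈ F32.map inc, ∀ h, h ∉ P 32 →
      inc gv * (f * (inc gc)⁻¹) * inc gv * h ∈ P 32 := by
    rintro _ ⟨f, hf, rfl⟩ h hh
    rw [← map_inv, ← map_mul, ← map_mul, ← map_mul]
    exact C3_push hP _ (C2_v f hf) h hh
  have hc3 : ∀ f ∈ F32.map inc, ∀ h, h ∉ P 32 → f * (inc gc)⁻¹ * inc gv * h ∈ P 32 := by
    rintro _ ⟨f, hf, rfl⟩ h hh
    rw [← map_inv, ← map_mul, ← map_mul]
    exact C3_push hP _ (C2_vi f hf) h hh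
  have hc4 : ∀ f ∈ F32.map inc, inc gv * inc gc * f ∈ P 32 := by
    rintro _ ⟨f, hf, rfl⟩
    rw [← map_mul, ← map_mul]
    exact C3_mem hP _
  refine ⟨F32.map inc ⊔ Subgroup.zpowers (gen adj33 32 * inc gv),
    (inc gc)⁻¹ * (gen adj33 32 * inc gv)⁻¹ * inc f * (gen adj33 32 * inc gv) * inc gc,
    PP_fp _ (P 32) _ _ hx hv flip h1 h2 h3 h4 h5 h6 hne hF,
    PP_not_mem _ (P 32) _ _ hx hv flip h1 h2 h3 h4 h5 h6 _ hc1 hc2 hc3 hc4 _
      ⟨f, hf, rfl⟩ (fun e => hf1 (inc_injective (by rw [e, map_one]))), ?_⟩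
  intro K hK hHK
  refine NS_mem (F32.map inc) (inc gc) (inc (gv * gc * gv)) (gen adj33 32 * inc gv) ?_ ?_ ?_ K hK
    (le_trans le_sup_left hHK) (hHK (Subgroup.mem_sup_right (Subgroup.mem_zpowers _))) _
    ⟨f, hf, rfl⟩
  · rintro _ ⟨f, hf, rfl⟩
    exact ⟨gc⁻¹ * f * gc, C2_norm f hf, by rw [map_mul, map_mul, map_inv]⟩
  · exact ⟨gv * gc * gv * (gc ^ 2)⁻¹, C2_c1, by simp only [map_mul, map_inv, map_pow]⟩
  · rw [map_mul, map_mul]
    calc gen adj33 32 * inc gv * (inc gv * inc gc * inc gv)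
        = gen adj33 32 * (inc gv * inc gv) * inc gc * inc gv := by group
      _ = gen adj33 32 * inc gc * inc gv := by rw [hv, mul_one]
      _ = inc gc * (gen adj33 32 * inc gv) := by rw [C3_xc, mul_assoc]

end NSep
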