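import Pool.Agent.Lib.MP_1beec2_gt.MorseDefs

/-!
The finite data. Vertices 0..31 are the sphere J in the 600-cell, vertex 32 is x. nbrL: adjacency
bit masks. rootL: the 33 space-like vectors (phi * 2v, -1), entries a + b phi as pairs (a, b).
colL, epsL: the colouring of J with 4 colours and the initial state. ordL: for each of the 16
states (q mod 16, bit c of q = colour c flipped) the vertices v of the state, newest first, with
the path of the earlier neighbours of v.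
-/

namespace NSep

def nbrL : List ℕ := [4295030784, 134228128, 268448032, 536906368, 1073763584, 402726918, 2147534336, 671221770, 1342443540, 2684911688, 3222290512, 41099, 24853, 6183, 37969, 19017, 408944672, 692060288, 1377829120, 2709520896, 3263169536, 373620736, 220397568, 2266497024, 617218048, 1152647168, 4359979008, 4391074, 2425124, 17433224, 34866448, 9963072, 67108865]

def nbr (i : Fin 33) : ℕ := nbrL.getD i 0

/-- adjacency of the 33 vertices -/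
def adj33 (i j : Fin 33) : Prop := (nbr i).testBit j = true

instance : DecidableRel adj33 := fun i j => inferInstanceAs (Decidable ((nbr i).testBit j = true))

/-- adjacency of the 32 vertices of the sphere -/
def adj32 (i j : Fin 32) : Prop := adj33 i.castSucc j.castSucc

instance : DecidableRel adj32 := fun i j =>
  inferInstanceAs (Decidable (adj33 i.castSucc j.castSucc))

def rootL : List (List (ℤ × ℤ)) := [
  [(0, -2), (0, 0), (0, 0), (0, 0), (-1, 0)],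
  [(0, -1), (0, -1), (0, -1), (0, 1), (-1, 0)],
  [(0, -1), (0, -1), (0, 1), (0, 1), (-1, 0)],
  [(0, -1), (1, 0), (-1, -1), (0, 0), (-1, 0)],
  [(0, -1), (1, 0), (1, 1), (0, 0), (-1, 0)],
  [(0, -1), (-1, -1), (0, 0), (1, 0), (-1, 0)],
  [(0, -1), (1, 1), (0, 0), (-1, 0), (-1, 0)],
  [(0, -1), (-1, 0), (-1, -1), (0, 0), (-1, 0)],
  [(0, -1), (-1, 0), (1, 1), (0, 0), (-1, 0)],
  [(0, -1), (0, 1), (0, -1), (0, -1), (-1, 0)],
  [(0, -1), (0, 1), (0, 1), (0, -1), (-1, 0)],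
  [(-1, -1), (0, 0), (0, -1), (1, 0), (-1, 0)],
  [(-1, -1), (0, 0), (0, 1), (1, 0), (-1, 0)],
  [(-1, -1), (-1, 0), (0, 0), (0, 1), (-1, 0)],
  [(-1, -1), (0, 1), (1, 0), (0, 0), (-1, 0)],
  [(-1, -1), (0, 1), (-1, 0), (0, 0), (-1, 0)],
  [(0, 0), (0, -2), (0, 0), (0, 0), (-1, 0)],
  [(0, 0), (0, -1), (-1, -1), (-1, 0), (-1, 0)],
  [(0, 0), (0, -1), (1, 1), (-1, 0), (-1, 0)],
  [(0, 0), (1, 0), (0, -1), (-1, -1), (-1, 0)],
  [(0, 0), (1, 0), (0, 1), (-1, -1), (-1, 0)],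
  [(0, 0), (-1, -1), (1, 0), (0, -1), (-1, 0)],
  [(0, 0), (-1, -1), (-1, 0), (0, -1), (-1, 0)],
  [(0, 0), (0, 0), (0, 0), (0, -2), (-1, 0)],
  [(0, 0), (-1, 0), (0, -1), (-1, -1), (-1, 0)],
  [(0, 0), (-1, 0), (0, 1), (-1, -1), (-1, 0)],
  [(-1, 0), (0, -1), (0, 0), (-1, -1), (-1, 0)],
  [(-1, 0), (-1, -1), (0, -1), (0, 0), (-1, 0)],
  [(-1, 0), (-1, -1), (0, 1), (0, 0), (-1, 0)],
  [(-1, 0), (0, 0), (-1, -1), (0, -1), (-1, 0)],
  [(-1, 0), (0, 0), (1, 1), (0, -1), (-1, 0)],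
  [(-1, 0), (0, 1), (0, 0), (-1, -1), (-1, 0)],
  [(-1, -1), (-1, 0), (0, 0), (0, -1), (-1, 0)]]

/-- the coordinates of the roots -/
def rootC (i : Fin 33) (k : Fin 5) : ℤ × ℤ := (rootL.getD i []).getD k (0, 0)

/-- multiplication of a + b phi -/
def mulP (x y : ℤ × ℤ) : ℤ × ℤ := (x.1 * y.1 + x.2 * y.2, x.1 * y.2 + x.2 * y.1 + x.2 * y.2)

/-- the bilinear form on vectors over Z[phi] -/
def bilC (x y : Fin 5 → ℤ × ℤ) : ℤ × ℤ :=
  mulP (x 0) (y 0) + mulP (x 1) (y 1) + mulP (x 2) (y 2) + mulP (x 3) (y 3) -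
    mulP (2, 4) (mulP (x 4) (y 4))

def colL : List ℕ := [1, 1, 1, 1, 1, 3, 1, 0, 3, 2, 0, 3, 2, 0, 3, 0, 1, 1, 1, 1, 1, 2, 3, 2, 0, 3, 1, 2, 0, 3, 2, 3]
def epsL : List ℕ := [1, 0, 1, 0, 1, 0, 1, 1, 1, 1, 0, 1, 0, 0, 0, 1, 1, 0, 0, 1, 0, 1, 1, 0, 0, 1, 0, 1, 1, 0, 0, 0]

/-- colour -/
def col (i : Fin 32) : Fin 5 := Fin.ofNat 5 (colL.getD i 0)

/-- initial state -/
def eps (i : Fin 32) : ZMod 2 := ((epsL.getD i 0 : ℕ) : ZMod 2)

/-- the special vertices: va, vb are the two neighbours of x in J -/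
def va : Fin 32 := 0
def vb : Fin 32 := 26
def v0 : Fin 32 := 5
def vf : Fin 32 := 1
def wf : Fin 32 := 8

def ordL : List (List (ℕ × List ℕ)) := [
  [(16, [27, 22, 21, 28]), (25, [21]), (4, [8]), (19, [9]), (0, [11, 15]), (9, [6, 15]), (2, [8, 28]), (6, [15]), (8, [28]), (15, [11]), (28, [21]), (21, [22]), (11, [7]), (22, [27]), (7, [27]), (27, [])],
  [(27, [16, 22]), (11, [0, 13]), (0, [13]), (25, [21]), (13, [2]), (16, [21, 22]), (21, [22]), (2, [8]), (22, [24]), (8, [4]), (4, [10]), (10, [6]), (24, [19]), (6, [9]), (9, [19]), (19, [])],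
  [(1, [11, 7, 27]), (3, [7, 11, 15, 9]), (18, [8, 28, 21, 25]), (9, [15]), (15, [11]), (11, [7]), (17, [7, 27, 22]), (20, [25]), (8, [28]), (25, [21, 26]), (7, [27]), (28, [21]), (21, [22, 26]), (27, [22]), (26, [22]), (22, [])],
  [(8, [18]), (21, [18, 25, 26, 22]), (17, [24, 22, 27]), (10, [20]), (13, [1, 11]), (20, [25]), (9, [3]), (18, [25]), (24, [22, 26]), (3, [11]), (25, [26]), (11, [1]), (26, [22]), (22, [27]), (27, [1]), (1, [])],
  [(7, [11]), (19, [23]), (6, [15]), (4, [12, 8, 30]), (22, [16]), (16, [28]), (11, [0, 15]), (2, [12, 8, 28]), (23, [25]), (15, [0]), (28, [8]), (25, [30]), (30, [8]), (0, [12]), (12, [8]), (8, [])],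
  [(11, [0, 13]), (13, [0, 12, 2]), (8, [2, 12, 4, 30]), (0, [12]), (19, [23, 24]), (2, [12]), (16, [22]), (6, [10]), (22, [24]), (10, [4, 30]), (12, [4]), (4, [30]), (30, [25]), (25, [23]), (24, [23]), (23, [])],
  [(25, [18, 30, 20, 23, 26]), (11, [1, 7, 3, 15]), (18, [28, 8, 30]), (1, [7]), (28, [8]), (15, [3]), (12, [8]), (3, [7]), (8, [30]), (7, [17]), (17, [22]), (30, [20]), (22, [26]), (20, [23]), (26, [23]), (23, [])],
  [(18, [8, 30, 25]), (25, [26, 23, 20, 30]), (1, [11, 13]), (17, [22, 24]), (22, [24, 26]), (24, [23, 26]), (3, [11]), (10, [20, 30]), (11, [13]), (26, [23]), (23, [20]), (13, [12]), (12, [8]), (8, [30]), (30, [20]), (20, [])],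
  [(0, [14, 15]), (6, [14, 15, 9, 31]), (21, [16, 28]), (31, [9, 19]), (5, [2, 28, 16, 27]), (4, [14]), (19, [9, 29]), (14, [15]), (2, [28]), (15, [9]), (9, [29]), (29, [7]), (28, [16]), (7, [27]), (16, [27]), (27, [])],
  [(29, [9, 19, 24]), (6, [9, 31, 10, 14]), (27, [5, 16]), (21, [16]), (2, [5, 13]), (9, [19, 31]), (16, [5]), (5, [13]), (4, [10, 14]), (13, [0]), (24, [19]), (19, [31]), (0, [14]), (31, [10]), (10, [14]), (14, [])],
  [(27, [5, 1, 7, 17]), (18, [21, 28]), (20, [31]), (31, [9]), (29, [9, 3, 7, 17]), (17, [7]), (14, [15]), (15, [3, 9]), (26, [21]), (21, [28]), (28, [5]), (5, [1]), (1, [7]), (9, [3]), (3, [7]), (7, [])],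
  [(18, [21]), (13, [1, 5]), (5, [1, 27]), (3, [9, 29]), (1, [27]), (27, [17]), (20, [10, 31]), (21, [26]), (26, [24]), (24, [17, 29]), (17, [29]), (14, [10]), (29, [9]), (9, [31]), (31, [10]), (10, [])],
  [(16, [5, 28]), (15, [0, 14, 6]), (23, [19, 31]), (7, [29]), (28, [2, 5]), (29, [19]), (5, [2]), (0, [12, 14]), (19, [31]), (31, [6]), (6, [14]), (14, [4, 12]), (30, [4]), (4, [12]), (12, [2]), (2, [])],
  [(30, [4, 10]), (16, [5]), (23, [24, 19, 31]), (29, [19, 24]), (10, [4, 14, 6, 31]), (4, [12, 14]), (5, [2, 13]), (12, [2, 13, 0, 14]), (24, [19]), (19, [31]), (2, [13]), (31, [6]), (13, [0]), (6, [14]), (0, [14]), (14, [])],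
  [(31, [20, 23]), (17, [7, 29]), (12, [14]), (26, [23]), (23, [20]), (20, [30]), (30, [18]), (14, [15]), (29, [3, 7]), (18, [28]), (15, [3]), (28, [5]), (5, [1]), (3, [7]), (1, [7]), (7, [])],
  [(17, [24, 29]), (3, [29]), (26, [23, 24]), (20, [23, 31, 10, 30]), (5, [1, 13]), (1, [13]), (29, [24]), (13, [12]), (24, [23]), (23, [31]), (12, [14]), (18, [30]), (14, [10]), (30, [10]), (10, [31]), (31, [])]]

theorem adj33_sym : ∀ i j, adj33 i j → adj33 j i := by decide +kernel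

theorem adj33_irr : ∀ i, ¬ adj33 i i := by decide +kernel

theorem adj32_sym : ∀ i j, adj32 i j → adj32 j i := fun _ _ h => adj33_sym _ _ h

theorem adj32_irr : ∀ i, ¬ adj32 i i := fun _ h => adj33_irr _ h

/-- the two neighbours of x -/
theorem adj33_x : ∀ i : Fin 33, adj33 i 32 ↔ i = va.castSucc ∨ i = vb.castSucc := by
  decide +kernel

/-- the Gram matrix -/
theorem gramC : ∀ i j : Fin 33,
    (i = j → bilC (rootC i) (rootC j) = (2, 0)) ∧
    (adj33 i j → bilC (rootC i) (rootC j) = (0, 0)) ∧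
    (i ≠ j → ¬ adj33 i j →
      (bilC (rootC i) (rootC j)).1 ≤ 0 ∧ (bilC (rootC i) (rootC j)).2 ≤ -2) := by
  decide +kernel

theorem rootC_four : ∀ i : Fin 33, rootC i 4 = (-1, 0) := by decide +kernel

/-- colouring facts -/
theorem col_lt : ∀ i, col i ≠ 4 := by decide +kernel
theorem col_adj : ∀ i j, adj32 i j → col i ≠ col j := by decide +kernel
theorem col_facts : col va = col vb ∧ col v0 ≠ col va ∧ col vf ≠ col wf ∧ eps va = 1 ∧
    eps vb = 0 := by decide +kernel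
theorem special_facts : ¬ adj32 va v0 ∧ v0 ≠ va ∧ v0 ≠ vb ∧ va ≠ vb ∧ ¬ adj32 va vb ∧
    ¬ adj32 vf wf ∧ vf ≠ wf ∧ vf ≠ va ∧ vf ≠ vb ∧ vf ≠ v0 ∧ wf ≠ va ∧ wf ≠ vb ∧ wf ≠ v0 := by
  decide +kernel

end NSep
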