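import Mathlib

/-!
Definitions used in the statement of the result for MP_1beec2_gt.
Hyperbolic 4-space is the sheet x4 > 0 of the hyperboloid bil y y = -1 for the form
x0^2 + x1^2 + x2^2 + x3^2 - (4 phi + 2) x4^2, where phi is the golden ratio. The conjugate form
x0^2 + x1^2 + x2^2 + x3^2 - (4 psi + 2) x4^2 is positive definite, so the group of integral points
over Z[phi] is an arithmetic lattice of simplest type in the isometry group of hyperbolic 4-space.
-/

namespace NSep
open Matrix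

/-- the Lorentzian bilinear form of the quadratic form
x0^2 + x1^2 + x2^2 + x3^2 - (4 phi + 2) x4^2 -/
noncomputable def bil (y z : Fin 5 → ℝ) : ℝ :=
  y 0 * z 0 + y 1 * z 1 + y 2 * z 2 + y 3 * z 3 - (4 * Real.goldenRatio + 2) * (y 4 * z 4)

/-- the hyperboloid model of hyperbolic 4-space -/
def hyp4 : Set (Fin 5 → ℝ) := {y | bil y y = -1 ∧ 0 < y 4}

/-- the action of a matrix on a vector -/
noncomputable def app (g : GL (Fin 5) ℝ) (y : Fin 5 → ℝ) : Fin 5 → ℝ :=
  (g : Matrix (Fin 5) (Fin 5) ℝ) *ᵥ y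

@[simp] theorem app_one (y : Fin 5 → ℝ) : app 1 y = y := by
  simp [app]

theorem app_mul (g h : GL (Fin 5) ℝ) (y : Fin 5 → ℝ) : app (g * h) y = app g (app h y) := by
  simp [app, Matrix.mulVec_mulVec]

@[simp] theorem app_inv_app (g : GL (Fin 5) ℝ) (y : Fin 5 → ℝ) : app g⁻¹ (app g y) = y := by
  rw [← app_mul]; simp

@[simp] theorem app_app_inv (g : GL (Fin 5) ℝ) (y : Fin 5 → ℝ) : app g (app g⁻¹ y) = y := by
  rw [← app_mul]; simp

/-- the isometry group of hyperbolic 4-space: all matrices which preserve the form and the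
sheet -/
def isomH4 : Subgroup (GL (Fin 5) ℝ) where
  carrier := {g | (∀ y z, bil (app g y) (app g z) = bil y z) ∧ ∀ y, app g y ∈ hyp4 ↔ y ∈ hyp4}
  one_mem' := by simp
  mul_mem' := by
    rintro g h ⟨h1, h2⟩ ⟨h3, h4⟩
    refine ⟨fun y z => ?_, fun y => ?_⟩
    · rw [app_mul, app_mul, h1, h3]
    · rw [app_mul, h2, h4]
  inv_mem' := by
    rintro g ⟨h1, h2⟩
    refine ⟨fun y z => ?_, fun y => ?_⟩
    · rw [← h1, app_app_inv, app_app_inv]
    · rw [← h2, app_app_inv]

/-- membership in the ring Z[phi] -/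
def isZphi (t : ℝ) : Prop := ∃ a b : ℤ, t = a + b * Real.goldenRatio

/-- closure properties of Z[phi] -/
theorem isZphi_zero : isZphi 0 := ⟨0, 0, by simp⟩
theorem isZphi_one : isZphi 1 := ⟨1, 0, by simp⟩
theorem isZphi.add {s t : ℝ} (hs : isZphi s) (ht : isZphi t) : isZphi (s + t) := by
  obtain ⟨a, b, rfl⟩ := hs
  obtain ⟨c, d, rfl⟩ := ht
  exact ⟨a + c, b + d, by push_cast; ring⟩
theorem isZphi.neg {s : ℝ} (hs : isZphi s) : isZphi (-s) := by
  obtain ⟨a, b, rfl⟩ := hs
  exact ⟨-a, -b, by push_cast; ring⟩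
theorem isZphi.mul {s t : ℝ} (hs : isZphi s) (ht : isZphi t) : isZphi (s * t) := by
  obtain ⟨a, b, rfl⟩ := hs
  obtain ⟨c, d, rfl⟩ := ht
  refine ⟨a * c + b * d, a * d + b * c + b * d, ?_⟩
  have := Real.goldenRatio_sq
  push_cast
  linear_combination (b : ℝ) * d * this
theorem isZphi.sum {ι : Type*} (s : Finset ι) (f : ι → ℝ) (h : ∀ i ∈ s, isZphi (f i)) :
    isZphi (∑ i ∈ s, f i) := by
  classical
  induction s using Finset.induction_on with
  | empty => simpa using isZphi_zero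
  | insert a s ha ih =>
    rw [Finset.sum_insert ha]
    exact (h a (Finset.mem_insert_self _ _)).add
      (ih fun i hi => h i (Finset.mem_insert_of_mem hi))

/-- the arithmetic group O'(f, Z[phi]): the isometries whose matrix and inverse matrix have all
their entries in Z[phi] -/
def arithH4 : Subgroup (GL (Fin 5) ℝ) where
  carrier := {g | g ∈ isomH4 ∧ (∀ i j, isZphi ((g : Matrix (Fin 5) (Fin 5) ℝ) i j)) ∧
    ∀ i j, isZphi (((g⁻¹ : GL (Fin 5) ℝ) : Matrix (Fin 5) (Fin 5) ℝ) i j)}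
  one_mem' := by
    have h : ∀ i j : Fin 5, isZphi (((1 : GL (Fin 5) ℝ) : Matrix (Fin 5) (Fin 5) ℝ) i j) := by
      intro i j
      by_cases hij : i = j
      · subst hij; simpa using isZphi_one
      · simpa [Matrix.one_apply_ne hij] using isZphi_zero
    exact ⟨one_mem _, h, by simpa using h⟩
  mul_mem' := by
    rintro g h ⟨h1, h2, h3⟩ ⟨h4, h5, h6⟩
    refine ⟨mul_mem h1 h4, fun i j => ?_, fun i j => ?_⟩
    · rw [Units.val_mul, Matrix.mul_apply]
      exact isZphi.sum _ _ fun k _ => (h2 i k).mul (h5 k j)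
    · rw [_root_.mul_inv_rev, Units.val_mul, Matrix.mul_apply]
      exact isZphi.sum _ _ fun k _ => (h6 i k).mul (h3 k j)
  inv_mem' := by
    rintro g ⟨h1, h2, h3⟩
    exact ⟨inv_mem h1, h3, by simpa using h2⟩

/-- Gamma is the group of a closed arithmetic hyperbolic 4-manifold in the commensurability
class of the arithmetic group arithH4: a torsion-free group of isometries of hyperbolic 4-space,
commensurable with arithH4, acting properly discontinuously and cocompactly. -/
structure IsClosedArith (Γ : Subgroup (GL (Fin 5) ℝ)) : Prop where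
  le : Γ ≤ isomH4
  arith : Subgroup.Commensurable Γ arithH4
  torsionFree : ∀ g ∈ Γ, ∀ n : ℕ, 0 < n → g ^ n = 1 → g = 1
  discontinuous : ∀ C : Set (Fin 5 → ℝ), C ⊆ hyp4 → IsCompact C →
    {g : GL (Fin 5) ℝ | g ∈ Γ ∧ ∃ y ∈ C, app g y ∈ C}.Finite
  cocompact : ∃ C : Set (Fin 5 → ℝ), C ⊆ hyp4 ∧ IsCompact C ∧ ∀ y ∈ hyp4, ∃ g ∈ Γ, app g y ∈ C

/-- a subgroup is separable if it is an intersection of subgroups of finite index -/
def IsSeparable {G : Type*} [Group G] (H : Subgroup G) : Prop :=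
  ∀ g : G, g ∉ H → ∃ K : Subgroup G, K.FiniteIndex ∧ H ≤ K ∧ g ∉ K

end NSep
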