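import Pool.Agent.Lib.MP_1beec2_gt.FP

/-!
Module FP2 (Reidemeister-Schreier), see the comment of module FP.
-/

namespace NSep

section skew

variable {G X P : Type*} [Group G] [MulAction G X] [Group P] {n : ℕ}

/-- one generator of the skew product action -/
def fp2_perm (a : G) (c : X → P) : Equiv.Perm (X × P) where
  toFun z := (a • z.1, c z.1 * z.2)
  invFun z := (a⁻¹ • z.1, (c (a⁻¹ • z.1))⁻¹ * z.2)
  left_inv z := by
    refine Prod.ext ?_ ?_
    · simp
    · simp
  right_inv z := by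
    refine Prod.ext ?_ ?_
    · simp
    · simp

/-- the skew product action of the free group -/
def fp2_rho (φ : FreeGroup (Fin n) →* G) (c : Fin n → X → P) :
    FreeGroup (Fin n) →* Equiv.Perm (X × P) :=
  FreeGroup.lift (fun k => fp2_perm (φ (FreeGroup.of k)) (c k))

/-- the crossed map -/
def fp2_kap (φ : FreeGroup (Fin n) →* G) (c : Fin n → X → P) (g : FreeGroup (Fin n)) (x : X) : P :=
  (fp2_rho φ c g (x, 1)).2

theorem fp2_rho_of (φ : FreeGroup (Fin n) →* G) (c : Fin n → X → P) (k : Fin n) (x : X) (w : P) :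
    fp2_rho φ c (FreeGroup.of k) (x, w) = (φ (FreeGroup.of k) • x, c k x * w) := by
  unfold fp2_rho
  rw [FreeGroup.lift_apply_of]
  rfl

theorem fp2_rho_apply (φ : FreeGroup (Fin n) →* G) (c : Fin n → X → P) (g : FreeGroup (Fin n)) :
    ∀ (x : X) (w : P), fp2_rho φ c g (x, w) = (φ g • x, fp2_kap φ c g x * w) := by
  induction g using FreeGroup.induction_on with
  | C1 =>
    intro x w
    simp [fp2_kap]
  | of k =>
    intro x w
    unfold fp2_kap
    rw [fp2_rho_of, fp2_rho_of]
    simp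
  | inv_of k _ =>
    intro x w
    have h1 : ∀ (y : X) (v : P), fp2_rho φ c (FreeGroup.of k)⁻¹ (y, v)
        = ((φ (FreeGroup.of k))⁻¹ • y, (c k ((φ (FreeGroup.of k))⁻¹ • y))⁻¹ * v) := by
      intro y v
      rw [map_inv, Equiv.Perm.inv_def, Equiv.symm_apply_eq, fp2_rho_of]
      simp
    unfold fp2_kap
    rw [h1, h1]
    simp
  | mul g h hg hh =>
    intro x w
    unfold fp2_kap
    rw [map_mul, Equiv.Perm.mul_apply, Equiv.Perm.mul_apply, hh x w, hh x 1, hg, hg]
    simp [mul_smul, mul_assoc]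

theorem fp2_kap_one (φ : FreeGroup (Fin n) →* G) (c : Fin n → X → P) (x : X) :
    fp2_kap φ c 1 x = 1 := by
  simp [fp2_kap]

theorem fp2_kap_of (φ : FreeGroup (Fin n) →* G) (c : Fin n → X → P) (k : Fin n) (x : X) :
    fp2_kap φ c (FreeGroup.of k) x = c k x := by
  unfold fp2_kap
  rw [fp2_rho_of, mul_one]

theorem fp2_kap_mul (φ : FreeGroup (Fin n) →* G) (c : Fin n → X → P) (g h : FreeGroup (Fin n))
    (x : X) : fp2_kap φ c (g * h) x = fp2_kap φ c g (φ h • x) * fp2_kap φ c h x := by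
  conv_lhs => unfold fp2_kap
  rw [map_mul, Equiv.Perm.mul_apply, fp2_rho_apply φ c h, fp2_rho_apply φ c g, mul_one]

theorem fp2_kap_inv (φ : FreeGroup (Fin n) →* G) (c : Fin n → X → P) (g : FreeGroup (Fin n))
    (x : X) : fp2_kap φ c g⁻¹ x = (fp2_kap φ c g (φ g⁻¹ • x))⁻¹ := by
  have h := fp2_kap_mul φ c g g⁻¹ x
  rw [mul_inv_cancel, fp2_kap_one] at h
  exact (inv_eq_of_mul_eq_one_right h.symm).symm

/-- uniqueness of crossed maps -/
theorem fp2_kap_unique (φ : FreeGroup (Fin n) →* G) (c : Fin n → X → P)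
    (f : FreeGroup (Fin n) → X → P) (hf : ∀ k x, f (FreeGroup.of k) x = c k x)
    (hm : ∀ g h x, f (g * h) x = f g (φ h • x) * f h x) (g : FreeGroup (Fin n)) :
    ∀ x, f g x = fp2_kap φ c g x := by
  have h1 : ∀ x, f 1 x = 1 := by
    intro x
    have := hm 1 1 x
    rw [mul_one, map_one, one_smul] at this
    exact (mul_eq_left.1 this.symm)
  induction g using FreeGroup.induction_on with
  | C1 =>
    intro x
    rw [h1, fp2_kap_one]
  | of k =>
    intro x
    rw [hf, fp2_kap_of]
  | inv_of k ih =>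
    intro x
    have h := hm (FreeGroup.of k) (FreeGroup.of k)⁻¹ x
    rw [mul_inv_cancel, h1] at h
    rw [fp2_kap_inv, ← ih]
    exact (inv_eq_of_mul_eq_one_right h.symm).symm
  | mul g h hg hh =>
    intro x
    rw [hm, fp2_kap_mul, hg, hh]

end skew

theorem FP2_finiteIndex {G : Type*} [Group G] (hG : Group.IsFinitelyPresented G)
    (K : Subgroup G) (hK : K.FiniteIndex) : Group.IsFinitelyPresented K := by
  classical
  obtain ⟨n, φ, hφ, R, hR, hRφ⟩ := hG.out
  haveI : Finite (G ⧸ K) := Subgroup.finite_quotient_of_finiteIndex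
  -- the relators
  set c0 : Fin n → (G ⧸ K) → FreeGroup (Fin n × (G ⧸ K)) := fun k x => FreeGroup.of (k, x)
    with hc0
  set rels : Set (FreeGroup (Fin n × (G ⧸ K))) :=
    (fun z : FreeGroup (Fin n) × (G ⧸ K) => fp2_kap φ c0 z.1 z.2) '' (R ×ˢ Set.univ) with hrels
  have hfin : rels.Finite := (hR.prod Set.finite_univ).image _
  haveI : Finite rels := hfin
  have hP : Group.IsFinitelyPresented (PresentedGroup rels) := inferInstance
  set c : Fin n → (G ⧸ K) → PresentedGroup rels := fun k x => PresentedGroup.of (k, x) with hc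
  -- naturality
  have hnat : ∀ (Q : Type _) [Group Q] (f : FreeGroup (Fin n × (G ⧸ K)) →* Q) (g) (x : G ⧸ K),
      f (fp2_kap φ c0 g x) = fp2_kap φ (fun k x => f (c0 k x)) g x := by
    intro Q _ f g
    refine fp2_kap_unique φ (fun k x => f (c0 k x)) (fun g x => f (fp2_kap φ c0 g x)) ?_ ?_ g
    · intro k x
      change f (fp2_kap φ c0 (FreeGroup.of k) x) = f (c0 k x)
      rw [fp2_kap_of]
    · intro g h x
      change f (fp2_kap φ c0 (g * h) x) = f _ * f _
      rw [fp2_kap_mul, map_mul]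
  have hrel : ∀ r ∈ R, ∀ x : G ⧸ K, fp2_kap φ c r x = 1 := by
    intro r hr x
    have h1 := hnat _ (PresentedGroup.mk rels) r x
    have h2 : fp2_kap φ c0 r x ∈ rels := ⟨(r, x), ⟨hr, Set.mem_univ _⟩, rfl⟩
    have h3 := PresentedGroup.one_of_mem h2
    rw [h3] at h1
    exact h1.symm
  have hker : φ.ker ≤ (fp2_rho φ c).ker := by
    rw [← hRφ]
    apply Subgroup.normalClosure_le_normal
    intro r hr
    have hr1 : φ r = 1 := by
      have : r ∈ φ.ker := by
        rw [← hRφ]
        exact Subgroup.subset_normalClosure hr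
      exact this
    change fp2_rho φ c r = 1
    ext1 z
    obtain ⟨x, w⟩ := z
    rw [fp2_rho_apply, hrel r hr x, hr1, one_smul, one_mul]
    rfl
  -- independence of the preimage
  have hind : ∀ g g' : FreeGroup (Fin n), φ g = φ g' → ∀ x : G ⧸ K,
      fp2_kap φ c g x = fp2_kap φ c g' x := by
    intro g g' hgg x
    have h1 : g⁻¹ * g' ∈ (fp2_rho φ c).ker := by
      apply hker
      change φ (g⁻¹ * g') = 1
      rw [map_mul, map_inv, hgg, inv_mul_cancel]
    have h2 : fp2_rho φ c g = fp2_rho φ c g' := by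
      have h3 : fp2_rho φ c (g⁻¹ * g') = 1 := h1
      rw [map_mul, map_inv] at h3
      exact (inv_mul_eq_one.1 h3)
    unfold fp2_kap
    rw [h2]
  choose s hs using hφ
  -- transversal
  obtain ⟨t, ht1, ht2⟩ : ∃ t : (G ⧸ K) → G, (∀ x, (QuotientGroup.mk (t x) : G ⧸ K) = x) ∧
      t (QuotientGroup.mk 1) = 1 := by
    refine ⟨fun x => x.out * (QuotientGroup.mk (s := K) (1 : G)).out⁻¹, ?_, ?_⟩
    · intro x
      have h1 : (QuotientGroup.mk (s := K) (1 : G)).out ∈ K := by
        have h2 : (QuotientGroup.mk ((QuotientGroup.mk (s := K) (1 : G)).out) : G ⧸ K)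
            = QuotientGroup.mk 1 := Quotient.out_eq _
        rw [eq_comm, QuotientGroup.eq, inv_one, one_mul] at h2
        exact h2
      have h3 : (QuotientGroup.mk (x.out) : G ⧸ K) = x := Quotient.out_eq _
      conv_rhs => rw [← h3]
      rw [QuotientGroup.eq]
      simpa using h1
    · simp
  have hact : ∀ (a : G) (y : G), a • (QuotientGroup.mk y : G ⧸ K) = QuotientGroup.mk (a * y) :=
    fun a y => rfl
  -- the retraction
  have hmemK : ∀ (a : G) (x : G ⧸ K), (t (a • x))⁻¹ * a * t x ∈ K := by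
    intro a x
    rw [mul_assoc, ← QuotientGroup.eq, ht1, ← hact, ht1]
  set cK : Fin n → (G ⧸ K) → K := fun k x =>
    ⟨(t (φ (FreeGroup.of k) • x))⁻¹ * φ (FreeGroup.of k) * t x, hmemK _ _⟩ with hcK
  have hkapK : ∀ (g : FreeGroup (Fin n)) (x : G ⧸ K),
      (⟨(t (φ g • x))⁻¹ * φ g * t x, hmemK _ _⟩ : K) = fp2_kap φ cK g x := by
    intro g
    refine fp2_kap_unique φ cK (fun g x => (⟨(t (φ g • x))⁻¹ * φ g * t x, hmemK _ _⟩ : K)) ?_ ?_ g
    · intro k x
      rfl
    · intro g h x
      apply Subtype.ext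
      change (t (φ (g * h) • x))⁻¹ * φ (g * h) * t x
        = ((t (φ g • φ h • x))⁻¹ * φ g * t (φ h • x)) * ((t (φ h • x))⁻¹ * φ h * t x)
      rw [map_mul, mul_smul]
      group
  have hliftrel : ∀ w ∈ rels, FreeGroup.lift (fun z : Fin n × (G ⧸ K) => cK z.1 z.2) w = 1 := by
    rintro _ ⟨⟨r, x⟩, ⟨hr, _⟩, rfl⟩
    change FreeGroup.lift (fun z : Fin n × (G ⧸ K) => cK z.1 z.2) (fp2_kap φ c0 r x) = 1
    rw [hnat]
    have h1 : (fun (k : Fin n) (x : G ⧸ K) =>
        FreeGroup.lift (fun z : Fin n × (G ⧸ K) => cK z.1 z.2) (c0 k x)) = cK := by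
      funext k x
      rw [hc0]
      exact FreeGroup.lift_apply_of
    rw [h1, ← hkapK]
    have hr1 : φ r = 1 := by
      have : r ∈ φ.ker := by
        rw [← hRφ]
        exact Subgroup.subset_normalClosure hr
      exact this
    apply Subtype.ext
    change (t (φ r • x))⁻¹ * φ r * t x = 1
    rw [hr1, one_smul]
    group
  set Psi : PresentedGroup rels →* K := PresentedGroup.toGroup hliftrel with hPsi
  -- the section
  have hfix : ∀ k : K, (k : G) • (QuotientGroup.mk 1 : G ⧸ K) = QuotientGroup.mk 1 := by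
    intro k
    rw [hact, mul_one, eq_comm, QuotientGroup.eq, inv_one, one_mul]
    exact k.2
  set Phi : K →* PresentedGroup rels :=
    MonoidHom.mk' (fun k => fp2_kap φ c (s k) (QuotientGroup.mk 1)) (by
      intro a b
      have h1 : φ (s ((a * b : K) : G)) = φ (s (a : G) * s (b : G)) := by
        rw [map_mul, hs, hs, hs]
        rfl
      change fp2_kap φ c (s ((a * b : K) : G)) (QuotientGroup.mk 1) = _
      rw [hind _ _ h1, fp2_kap_mul, hs, hfix]) with hPhi
  refine FP_retract hP Phi Psi ?_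
  intro k
  have h1 : Psi (Phi k) = fp2_kap φ cK (s k) (QuotientGroup.mk 1) := by
    have h2 := fp2_kap_unique φ cK (fun g x => Psi (fp2_kap φ c g x)) (by
      intro k x
      change Psi (fp2_kap φ c (FreeGroup.of k) x) = cK k x
      rw [fp2_kap_of]
      exact PresentedGroup.toGroup.of hliftrel) (by
      intro g h x
      change Psi (fp2_kap φ c (g * h) x) = Psi _ * Psi _
      rw [fp2_kap_mul, map_mul]) (s k) (QuotientGroup.mk 1)
    exact h2
  rw [h1, ← hkapK]
  apply Subtype.ext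
  change (t (φ (s (k : G)) • QuotientGroup.mk 1))⁻¹ * φ (s (k : G)) * t (QuotientGroup.mk 1) = k
  rw [hs, hfix, ht2]
  group

end NSep
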