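import Pool.Agent.Lib.MP_1beec2_gt.GB
import Pool.Agent.Lib.MP_1beec2_gt.W3
import Pool.Agent.Lib.MP_1beec2_gt.Data

/-!
Module GC (the representation). rootR i k := (rootC i k).1 + (rootC i k).2 * phi.
GC_bil: bil (rootR i) (rootR j) = (bilC ..).1 + (bilC ..).2 * phi (mulP is multiplication in
Z[phi]; (2,4) is 4 phi + 2). So, by gramC: 2, 0 (adjacent), or ≤ -2 phi ≤ -2.
GC_rep: rho from rlift. Half-spaces: p0 := (0,0,0,0,(4 phi + 2)^(-1/2)) in hyp4,
Pp i := {g | 0 < bil (app (rho g) p0) (rootR i)}, Pm i := {g | ... < 0}. one_mem: rootR i 4 = -1.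
flip: bil (refl_e y) e = - bil y e. comm: bil (refl_e' y) e = bil y e if bil e' e = 0. far: GA_far.
Then W3_half, W3_exists_not_mem: rho is injective: rho g = 1 implies g in Pp i for all i.
-/

namespace NSep

/-- the real number of a pair -/
noncomputable def GC_val (x : ℤ × ℤ) : ℝ := x.1 + x.2 * Real.goldenRatio

theorem GC_val_add (x y : ℤ × ℤ) : GC_val (x + y) = GC_val x + GC_val y := by
  simp only [GC_val, Prod.fst_add, Prod.snd_add]
  push_cast
  ring

theorem GC_val_sub (x y : ℤ × ℤ) : GC_val (x - y) = GC_val x - GC_val y := by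
  simp only [GC_val, Prod.fst_sub, Prod.snd_sub]
  push_cast
  ring

theorem GC_val_mul (x y : ℤ × ℤ) : GC_val (mulP x y) = GC_val x * GC_val y := by
  simp only [GC_val, mulP]
  push_cast
  linear_combination (-(x.2 : ℝ) * y.2) * Real.goldenRatio_sq

/-- the real root vectors -/
noncomputable def GC_root (i : Fin 33) : Fin 5 → ℝ := fun k => GC_val (rootC i k)

theorem GC_bil (i j : Fin 33) : bil (GC_root i) (GC_root j) =
    GC_val (bilC (rootC i) (rootC j)) := by
  simp only [bilC, GC_val_sub, GC_val_add, GC_val_mul, bil, GC_root]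
  have h : GC_val (2, 4) = 4 * Real.goldenRatio + 2 := by
    simp only [GC_val]
    push_cast
    ring
  rw [h]

theorem GC_two (i : Fin 33) : bil (GC_root i) (GC_root i) = 2 := by
  rw [GC_bil, (gramC i i).1 rfl]
  simp [GC_val]

theorem GC_adj {i j : Fin 33} (h : adj33 i j) : bil (GC_root i) (GC_root j) = 0 := by
  rw [GC_bil, (gramC i j).2.1 h]
  simp [GC_val]

theorem GC_far {i j : Fin 33} (hne : i ≠ j) (h : ¬ adj33 i j) :
    bil (GC_root i) (GC_root j) ≤ -2 := by
  rw [GC_bil]
  obtain ⟨h1, h2⟩ := (gramC i j).2.2 hne h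
  have h3 : ((bilC (rootC i) (rootC j)).1 : ℝ) ≤ 0 := by exact_mod_cast h1
  have h4 : ((bilC (rootC i) (rootC j)).2 : ℝ) ≤ -2 := by exact_mod_cast h2
  have h5 := Real.one_lt_goldenRatio
  simp only [GC_val]
  nlinarith

theorem GC_four (i : Fin 33) : GC_root i 4 = -1 := by
  simp [GC_root, rootC_four, GC_val]

theorem GC_isZphi (i : Fin 33) (k : Fin 5) : isZphi (GC_root i k) :=
  ⟨(rootC i k).1, (rootC i k).2, rfl⟩

/-- the base point -/
noncomputable def GC_p0 : Fin 5 → ℝ := ![0, 0, 0, 0, (Real.sqrt (4 * Real.goldenRatio + 2))⁻¹]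

theorem GC_sqrt_pos : 0 < (Real.sqrt (4 * Real.goldenRatio + 2))⁻¹ :=
  inv_pos.2 (Real.sqrt_pos.2 GA_kpos)

theorem GC_p0_mem : GC_p0 ∈ hyp4 := by
  refine ⟨?_, GC_sqrt_pos⟩
  have h1 : (4 * Real.goldenRatio + 2) * ((Real.sqrt (4 * Real.goldenRatio + 2))⁻¹ *
      (Real.sqrt (4 * Real.goldenRatio + 2))⁻¹) = 1 := by
    rw [← mul_inv, Real.mul_self_sqrt GA_kpos.le]
    exact mul_inv_cancel₀ GA_kpos.ne'
  simp only [bil, GC_p0, Matrix.cons_val]
  linarith

theorem GC_p0_root (i : Fin 33) : 0 < bil GC_p0 (GC_root i) := by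
  have h1 := mul_pos GA_kpos GC_sqrt_pos
  simp only [bil, GC_p0, Matrix.cons_val, GC_four]
  linarith

theorem GC_rep : ∃ rho : Racg adj33 →* GL (Fin 5) ℝ, (∀ g, rho g ∈ arithH4) ∧
    Function.Injective rho ∧ ∃ P : Fin 33 → Set (Racg adj33), Half adj33 P := by
  obtain ⟨rho, hrho⟩ : ∃ rho : Racg adj33 →* GL (Fin 5) ℝ, ∀ i, rho (gen adj33 i) =
      refl (GC_root i) (GC_two i) :=
    ⟨rlift (fun i => refl (GC_root i) (GC_two i)) (fun i => GB_refl_sq _ _)
      (fun i j hij => GB_comm _ _ _ _ (GC_adj hij)), fun i => rlift_gen _ _ _ i⟩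
  have harith : ∀ g, rho g ∈ arithH4 := by
    intro g
    induction g using racg_induction with
    | h1 => rw [map_one]; exact one_mem _
    | h2 i g ih =>
      rw [map_mul, hrho]
      exact mul_mem (GB_arith _ _ (GC_isZphi i)) ih
  have hmem : ∀ g, app (rho g) GC_p0 ∈ hyp4 := fun g => ((harith g).1.2 _).2 GC_p0_mem
  have hgen : ∀ (i j : Fin 33) (g : Racg adj33), bil (app (rho (gen adj33 j * g)) GC_p0)
      (GC_root i) = bil (app (rho g) GC_p0) (GC_root i) -
        bil (app (rho g) GC_p0) (GC_root j) * bil (GC_root j) (GC_root i) := by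
    intro i j g
    rw [map_mul, app_mul, hrho, refl_app, sub_eq_add_neg, ← neg_smul, GA_add, GA_smul]
    ring
  have hpre : PreHalf adj33 (fun i => {g | 0 < bil (app (rho g) GC_p0) (GC_root i)})
      (fun i => {g | bil (app (rho g) GC_p0) (GC_root i) < 0}) := by
    refine ⟨?_, ?_, ?_, ?_, ?_, ?_⟩
    · intro i
      change 0 < bil (app (rho 1) GC_p0) (GC_root i)
      rw [map_one, app_one]
      exact GC_p0_root i
    · intro i g h1 h2
      change 0 < bil (app (rho g) GC_p0) (GC_root i) at h1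
      change bil (app (rho g) GC_p0) (GC_root i) < 0 at h2
      exact lt_asymm h1 h2
    · intro i g h1
      change bil (app (rho (gen adj33 i * g)) GC_p0) (GC_root i) < 0
      change 0 < bil (app (rho g) GC_p0) (GC_root i) at h1
      rw [hgen, GC_two]
      linarith
    · intro i g h1
      change 0 < bil (app (rho (gen adj33 i * g)) GC_p0) (GC_root i)
      change bil (app (rho g) GC_p0) (GC_root i) < 0 at h1
      rw [hgen, GC_two]
      linarith
    · intro i j g hij h1
      change 0 < bil (app (rho (gen adj33 j * g)) GC_p0) (GC_root i)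
      change 0 < bil (app (rho g) GC_p0) (GC_root i) at h1
      rw [hgen, GC_adj (adj33_sym _ _ hij), mul_zero, sub_zero]
      exact h1
    · intro i j g hij hne h1
      change 0 < bil (app (rho g) GC_p0) (GC_root j)
      change bil (app (rho g) GC_p0) (GC_root i) < 0 at h1
      exact GA_far _ _ (GC_two i) (GC_two j) (GC_far hne hij) (by rw [GC_four]; norm_num)
        (by rw [GC_four]; norm_num) _ (hmem g) h1.le
  have hhalf := W3_half adj33_sym hpre
  refine ⟨rho, harith, ?_, _, hhalf⟩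
  rw [injective_iff_map_eq_one]
  intro g hg
  by_contra hg1
  obtain ⟨v, hv⟩ := W3_exists_not_mem adj33_sym hhalf g hg1
  apply hv
  change 0 < bil (app (rho g) GC_p0) (GC_root v)
  rw [hg, app_one]
  exact GC_p0_root v

end NSep
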