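import Pool.Agent.Lib.MP_1beec2_gt.Defs
import Pool.Agent.Lib.MP_1beec2_gt.FP2

/-!
Module TA (transfer to commensurable groups).
-/

namespace NSep

/-- separability of a subgroup of finite index in H would make H separable -/
theorem TA_cosets {W : Type*} [Group W] (H D : Subgroup W) (hD : D.FiniteIndex) (z : W)
    (hz : z ∉ H)
    (hsep : ∀ w : W, w ∉ H ⊓ D → ∃ K : Subgroup W, K.FiniteIndex ∧ H ⊓ D ≤ K ∧ w ∉ K) :
    ∃ K : Subgroup W, K.FiniteIndex ∧ H ≤ K ∧ z ∉ K := by
  have hfin : Finite (H ⧸ (D.subgroupOf H)) := by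
    rw [← Subgroup.finiteIndex_iff_finite_quotient, Subgroup.finiteIndex_iff]
    have : D.IsFiniteRelIndex H := Subgroup.isFiniteRelIndex_of_finiteIndex
    exact this.relIndex_ne_zero
  have hq : ∀ q : H ⧸ (D.subgroupOf H), ((q.out : H) : W)⁻¹ * z ∉ H ⊓ D := by
    intro q hm
    have h1 := hm.1
    apply hz
    have := H.mul_mem (q.out : H).2 h1
    rwa [mul_inv_cancel_left] at this
  choose Kf h1 h2 h3 using fun q : H ⧸ (D.subgroupOf H) => hsep _ (hq q)
  set K : Subgroup W := ⨅ q, Kf q with hK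
  have hKfin : K.FiniteIndex := Subgroup.finiteIndex_iInf h1
  have hHD : H ⊓ D ≤ K := le_iInf h2
  set M : Subgroup W := K.normalCore with hM
  have hMfin : M.FiniteIndex := inferInstance
  refine ⟨H ⊔ M, Subgroup.finiteIndex_of_le (le_sup_right : M ≤ H ⊔ M), le_sup_left, ?_⟩
  intro hzm
  have hMn : M.Normal := inferInstance
  rw [← SetLike.mem_coe, Subgroup.mul_normal] at hzm
  obtain ⟨h, hh, m, hm, e⟩ := Set.mem_mul.1 hzm
  set q : H ⧸ (D.subgroupOf H) := QuotientGroup.mk (⟨h, hh⟩ : H) with hqd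
  have e2 : (q.out : H)⁻¹ * (⟨h, hh⟩ : H) ∈ D.subgroupOf H := by
    rw [← QuotientGroup.eq]
    exact QuotientGroup.out_eq' q
  rw [Subgroup.mem_subgroupOf] at e2
  have e3 : ((q.out : H) : W)⁻¹ * h ∈ D := e2
  have e4 : ((q.out : H) : W)⁻¹ * h ∈ H := H.mul_mem (H.inv_mem (q.out : H).2) hh
  have e5 : ((q.out : H) : W)⁻¹ * z ∈ Kf q := by
    rw [← e, ← mul_assoc]
    refine (Kf q).mul_mem (h2 q ⟨e4, e3⟩) ?_
    have : m ∈ K := Subgroup.normalCore_le K hm
    exact (Subgroup.mem_iInf.1 this) q
  exact h3 q e5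

theorem TA_transfer {W G : Type*} [Group W] [Group G] (rho : W →* G)
    (inj : Function.Injective rho) (A Gam : Subgroup G) (hA : ∀ g, rho g ∈ A)
    (hGam : Subgroup.Commensurable Gam A) (H : Subgroup W) (hH : Group.IsFinitelyPresented H)
    (z : W) (hz : z ∉ H) (hK : ∀ K : Subgroup W, K.FiniteIndex → H ≤ K → z ∈ K) :
    ∃ H' : Subgroup Gam, Group.IsFinitelyPresented H' ∧ ¬ IsSeparable H' := by
  have hrange : rho.range ≤ A := by
    rintro _ ⟨g, rfl⟩
    exact hA g
  have hGA : Gam.relIndex A ≠ 0 := hGam.1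
  have hGr : Gam.relIndex rho.range ≠ 0 := fun h =>
    hGA (Subgroup.relIndex_eq_zero_of_le_right hrange h)
  set D : Subgroup W := Gam.comap rho with hD
  have hDfin : D.FiniteIndex := by
    rw [Subgroup.finiteIndex_iff, hD, Subgroup.index_comap]
    exact hGr
  set H' : Subgroup Gam := ((H ⊓ D).map rho).subgroupOf Gam with hH'
  refine ⟨H', ?_, ?_⟩
  · -- finitely presented
    have hfin : (D.subgroupOf H).FiniteIndex := by
      rw [Subgroup.finiteIndex_iff]
      have : D.IsFiniteRelIndex H := Subgroup.isFiniteRelIndex_of_finiteIndex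
      exact this.relIndex_ne_zero
    have h1 := FP2_finiteIndex hH (D.subgroupOf H) hfin
    let f : (D.subgroupOf H) →* H' :=
      { toFun := fun x => ⟨⟨rho ((x : H) : W), x.2⟩, ⟨((x : H) : W), ⟨(x : H).2, x.2⟩, rfl⟩⟩
        map_one' := by
          apply Subtype.ext
          apply Subtype.ext
          exact map_one rho
        map_mul' := by
          intro x y
          apply Subtype.ext
          apply Subtype.ext
          exact map_mul rho _ _ }
    have hf : Function.Bijective f := by
      constructor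
      · intro x y hxy
        have h2 : rho ((x : H) : W) = rho ((y : H) : W) :=
          congrArg (fun t : H' => ((t : Gam) : G)) hxy
        exact Subtype.ext (Subtype.ext (inj h2))
      · rintro ⟨⟨g, hg⟩, hg2⟩
        obtain ⟨w, ⟨hw1, hw2⟩, hw3⟩ := hg2
        refine ⟨⟨⟨w, hw1⟩, hw2⟩, ?_⟩
        apply Subtype.ext
        apply Subtype.ext
        exact hw3
    exact Group.IsFinitelyPresented.equiv (MulEquiv.ofBijective f hf)
  · intro hsep
    obtain ⟨K, hK1, hK2, hK3⟩ := TA_cosets H D hDfin z hz (by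
      intro w hw
      by_cases hwD : w ∈ D
      · have hg : (⟨rho w, hwD⟩ : Gam) ∉ H' := by
          rintro ⟨w', hw', e⟩
          have : w' = w := inj e
          rw [this] at hw'
          exact hw hw'
        obtain ⟨K, hK1, hK2, hK3⟩ := hsep _ hg
        refine ⟨(K.map Gam.subtype).comap rho, ?_, ?_, ?_⟩
        · rw [Subgroup.finiteIndex_iff, Subgroup.index_comap]
          refine Subgroup.relIndex_ne_zero_trans (K := Gam) ?_ hGr
          have : (K.map Gam.subtype).relIndex Gam = K.index := by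
            have e : (K.map Gam.subtype).subgroupOf Gam = K :=
              Subgroup.comap_map_eq_self_of_injective Gam.subtype_injective K
            rw [Subgroup.relIndex, e]
          rw [this]
          exact hK1.index_ne_zero
        · intro x hx
          exact ⟨⟨rho x, hx.2⟩, hK2 ⟨x, hx, rfl⟩, rfl⟩
        · rintro ⟨g, hg1, hg2⟩
          apply hK3
          have : g = ⟨rho w, hwD⟩ := Subtype.ext hg2
          rwa [← this]
      · exact ⟨D, hDfin, inf_le_right, hwD⟩)
    exact hK3 (hK K hK1 hK2)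

end NSep
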