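import Pool.Agent.Lib.MP_1beec2_gt.AG
import Pool.Agent.Lib.MP_1beec2_gt.TA
import Pool.Agent.Lib.MP_1beec2_gt.GC
import Pool.Agent.Lib.MP_1beec2_gt.C3

/-!
The final theorem (helper25).
-/

namespace NSep

theorem final : (∃ Γ : Subgroup (GL (Fin 5) ℝ), IsClosedArith Γ) ∧
    ∀ Γ : Subgroup (GL (Fin 5) ℝ), IsClosedArith Γ →
      ∃ H : Subgroup Γ, Group.IsFinitelyPresented H ∧ ¬ IsSeparable H := by
  refine ⟨⟨gam3, AG_closed⟩, fun Γ hΓ => ?_⟩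
  obtain ⟨rho, h1, h2, P, hP⟩ := GC_rep
  obtain ⟨H, z, hH, hz, hK⟩ := C3_main P hP
  exact TA_transfer rho h2 arithH4 Γ h1 hΓ.arith H hH z hz hK

end NSep
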