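import Pool.Agent.Lib.MP_1beec2_gt.Defs

/-!
Module GA (Lorentz geometry in R^5). Write k = 4 phi + 2 > 0.
GA_bil: bilinearity and symmetry (unfold, ring).
GA_past: y in hyp4, u with bil u u ≤ 0 and u 4 < 0: bil y u > 0. Cauchy-Schwarz in the first four
coordinates: (sum y_i u_i)^2 ≤ (sum y_i^2) (sum u_i^2) ≤ (k y4^2 - 1)(k u4^2) < (k y4 u4)^2, and
- k y4 u4 > 0.
GA_time: y, z with bil y y = -1 = bil z z, y4 > 0 and bil y z < 0 give z4 > 0 (otherwise z4 < 0,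
since z4 ≠ 0, and GA_past with u = z gives bil y z > 0).
GA_far: e, e' with bil e e = 2 = bil e' e', bil e e' ≤ -2, e4 < 0, e'4 < 0: no y in hyp4 has
bil y e ≤ 0 and bil y e' ≤ 0: GA_past for u = e + e' (bil u u = 4 + 2 bil e e' ≤ 0).
-/

namespace NSep

theorem GA_comm (y z : Fin 5 → ℝ) : bil y z = bil z y := by
  unfold bil
  ring

theorem GA_add (y z w : Fin 5 → ℝ) : bil (y + z) w = bil y w + bil z w := by
  unfold bil
  simp only [Pi.add_apply]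
  ring

theorem GA_smul (t : ℝ) (y w : Fin 5 → ℝ) : bil (t • y) w = t * bil y w := by
  unfold bil
  simp only [Pi.smul_apply, smul_eq_mul]
  ring

theorem GA_kpos : 0 < 4 * Real.goldenRatio + 2 := by
  have := Real.goldenRatio_pos
  linarith

theorem GA_past (y u : Fin 5 → ℝ) (hy : y ∈ hyp4) (hu : bil u u ≤ 0) (hu4 : u 4 < 0) :
    0 < bil y u := by
  obtain ⟨hy1, hy4⟩ := hy
  have hk := GA_kpos
  unfold bil at *
  generalize 4 * Real.goldenRatio + 2 = k at *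
  by_contra hcon
  rw [not_lt] at hcon
  have hS : y 0 * u 0 + y 1 * u 1 + y 2 * u 2 + y 3 * u 3 ≤ k * (y 4 * u 4) := by linarith
  have hneg : k * (y 4 * u 4) < 0 := by
    have h1 : y 4 * u 4 < 0 := mul_neg_of_pos_of_neg hy4 hu4
    exact mul_neg_of_pos_of_neg hk h1
  have h2 : (k * (y 4 * u 4)) ^ 2 ≤ (y 0 * u 0 + y 1 * u 1 + y 2 * u 2 + y 3 * u 3) ^ 2 := by
    nlinarith
  have hcs : (y 0 * u 0 + y 1 * u 1 + y 2 * u 2 + y 3 * u 3) ^ 2 ≤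
      (y 0 ^ 2 + y 1 ^ 2 + y 2 ^ 2 + y 3 ^ 2) * (u 0 ^ 2 + u 1 ^ 2 + u 2 ^ 2 + u 3 ^ 2) := by
    nlinarith [sq_nonneg (y 0 * u 1 - y 1 * u 0), sq_nonneg (y 0 * u 2 - y 2 * u 0),
      sq_nonneg (y 0 * u 3 - y 3 * u 0), sq_nonneg (y 1 * u 2 - y 2 * u 1),
      sq_nonneg (y 1 * u 3 - y 3 * u 1), sq_nonneg (y 2 * u 3 - y 3 * u 2)]
  have hA : y 0 ^ 2 + y 1 ^ 2 + y 2 ^ 2 + y 3 ^ 2 = k * (y 4) ^ 2 - 1 := by linarith
  have hB : u 0 ^ 2 + u 1 ^ 2 + u 2 ^ 2 + u 3 ^ 2 ≤ k * (u 4) ^ 2 := by linarith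
  have hA0 : 0 ≤ k * (y 4) ^ 2 - 1 := by
    rw [← hA]
    positivity
  have h3 : (y 0 ^ 2 + y 1 ^ 2 + y 2 ^ 2 + y 3 ^ 2) * (u 0 ^ 2 + u 1 ^ 2 + u 2 ^ 2 + u 3 ^ 2) ≤
      (k * (y 4) ^ 2 - 1) * (k * (u 4) ^ 2) := by
    rw [hA]
    exact mul_le_mul_of_nonneg_left hB hA0
  have hu2 : 0 < k * (u 4) ^ 2 := mul_pos hk (by nlinarith)
  nlinarith

theorem GA_time (y z : Fin 5 → ℝ) (hy : y ∈ hyp4) (hz : bil z z = -1) (h : bil y z < 0) :
    z ∈ hyp4 := by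
  refine ⟨hz, ?_⟩
  by_contra hcon
  rw [not_lt] at hcon
  rcases eq_or_lt_of_le hcon with h0 | h0
  · unfold bil at hz
    rw [h0] at hz
    nlinarith [mul_self_nonneg (z 0), mul_self_nonneg (z 1), mul_self_nonneg (z 2),
      mul_self_nonneg (z 3)]
  · have := GA_past y z hy (by rw [hz]; norm_num) h0
    linarith

theorem GA_far (e e' : Fin 5 → ℝ) (he : bil e e = 2) (he' : bil e' e' = 2)
    (hee : bil e e' ≤ -2) (h4 : e 4 < 0) (h4' : e' 4 < 0) (y : Fin 5 → ℝ) (hy : y ∈ hyp4)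
    (h : bil y e ≤ 0) : 0 < bil y e' := by
  have h1 : bil (e + e') (e + e') ≤ 0 := by
    rw [GA_add, GA_comm e, GA_comm e', GA_add, GA_add, he, he', GA_comm e' e]
    linarith
  have h2 := GA_past y (e + e') hy h1 (by
    change e 4 + e' 4 < 0
    linarith)
  rw [GA_comm, GA_add, GA_comm e, GA_comm e'] at h2
  linarith

end NSep
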