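import Pool.Agent.Lib.MP_1beec2_gt.Racg

/-!
Definitions for the word combinatorics: front, red, PreHalf, Half. (Proved, nothing to do.)
-/

namespace NSep

variable {ι : Type*}

/-- front e v u: reading the word u from the left, no letter v is met before a letter that does
not commute with v; if all letters of u commute with v (and differ from v), then e v is asked. -/
def front (adj : ι → ι → Prop) (e : ι → Prop) (v : ι) : List ι → Prop
  | [] => e v
  | w :: u => w ≠ v ∧ (adj v w → front adj e v u)

/-- reduced words, with the end condition e -/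
def red (adj : ι → ι → Prop) (e : ι → Prop) : List ι → Prop
  | [] => True
  | w :: u => front adj e w u ∧ red adj e u

/-- two families of open half-spaces (Pp i is the side of the identity), as given by geometry -/
structure PreHalf (adj : ι → ι → Prop) (Pp Pm : ι → Set (Racg adj)) : Prop where
  one_mem : ∀ i, 1 ∈ Pp i
  disj : ∀ i g, g ∈ Pp i → g ∉ Pm i
  flip1 : ∀ i g, g ∈ Pp i → gen adj i * g ∈ Pm i
  flip2 : ∀ i g, g ∈ Pm i → gen adj i * g ∈ Pp i
  comm : ∀ i j g, adj i j → g ∈ Pp i → gen adj j * g ∈ Pp i
  far : ∀ i j g, ¬ adj i j → i ≠ j → g ∈ Pm i → g ∈ Pp j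

/-- the half-space system of a right-angled Coxeter group -/
structure Half (adj : ι → ι → Prop) (P : ι → Set (Racg adj)) : Prop where
  one_mem : ∀ i, 1 ∈ P i
  flip : ∀ i g, gen adj i * g ∈ P i ↔ g ∉ P i
  comm : ∀ i j g, adj i j → (gen adj j * g ∈ P i ↔ g ∈ P i)
  far : ∀ i j g, ¬ adj i j → i ≠ j → g ∈ P i ∨ g ∈ P j

end NSep
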