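import Pool.Agent.Lib.MP_1beec2_gt.Act
import Pool.Agent.Lib.MP_1beec2_gt.WordsDefs

/-!
The inclusion inc of Racg adj32 into Racg adj33 and the retraction ret (kills the generator 32).
(Proved.)
-/

namespace NSep

/-- inclusion -/
def inc : Racg adj32 →* Racg adj33 :=
  rlift (fun i => gen adj33 i.castSucc) (fun _ => gen_mul_self _) fun _ _ h => gen_comm h

@[simp] theorem inc_gen (i : Fin 32) : inc (gen adj32 i) = gen adj33 i.castSucc := rlift_gen _ _ _ _

/-- image of a generator under the retraction -/
def retGen (i : Fin 33) : Racg adj32 := if h : i.val < 32 then gen adj32 ⟨i.val, h⟩ else 1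

theorem retGen_castSucc (i : Fin 32) : retGen i.castSucc = gen adj32 i := by
  simp [retGen]

/-- retraction -/
def ret : Racg adj33 →* Racg adj32 :=
  rlift retGen (fun i => by
    unfold retGen; split_ifs <;> simp) (fun i j h => by
    unfold retGen
    split_ifs with hi hj
    · exact gen_comm (show adj32 ⟨i.val, hi⟩ ⟨j.val, hj⟩ from h)
    all_goals simp)

@[simp] theorem ret_inc (g : Racg adj32) : ret (inc g) = g := by
  have : (ret.comp inc) = MonoidHom.id _ := racg_hom_ext fun i => by
    rw [MonoidHom.comp_apply, inc_gen, ret, rlift_gen, retGen_castSucc]; rfl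
  exact DFunLike.congr_fun this g

theorem inc_injective : Function.Injective inc := fun g h hgh => by
  rw [← ret_inc g, hgh, ret_inc]

theorem inc_mem (g : Racg adj32) : inc g ∈ Subgroup.closure (gen adj33 '' {(32 : Fin 33)}ᶜ) := by
  induction g using racg_induction with
  | h1 => rw [map_one]; exact one_mem _
  | h2 i g ih =>
    rw [map_mul, inc_gen]
    refine mul_mem (Subgroup.subset_closure ⟨i.castSucc, ?_, rfl⟩) ih
    exact fun h => absurd (congrArg Fin.val h) (by simpa using (Nat.ne_of_lt i.isLt))

/-- the elements a, b, c = a b and v0 of Racg adj32 -/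
def ga : Racg adj32 := gen adj32 va
def gb : Racg adj32 := gen adj32 vb
def gv : Racg adj32 := gen adj32 v0
def gc : Racg adj32 := ga * gb

/-- the dihedral group D -/
def D32 : Subgroup (Racg adj32) := Subgroup.closure {ga, gb}

end NSep
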