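import Pool.Agent.Lib.MP_1beec2_gt.MorseDefs

/-!
Module M1. M1_extend: induction on Good. Single: K constant 1 (the statement for v = w, adj v v:
h1 gives nothing, so irreflexivity irr is assumed). Cons v l p: K from the induction hypothesis
on l, p = p1 :: p', put K v := theta v p1 * K p1 (and K unchanged on l, v not in l). Along the
chain p: if K v = theta v w * K w and w, w' consecutive in p (adjacent), then
theta v w' * K w' = theta v w' * theta w' w * K w = theta v w * K w by h2 (v, w', w mutually
adjacent), so K v = theta v w * K w for all w in p. The other direction K w = theta w v * K v by h1.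
M1_connected: induction on Good: the vertices of p are earlier neighbours; p nonempty.
-/

namespace NSep

variable {ι : Type*} {adj : ι → ι → Prop}

theorem M1_extend (sym : ∀ i j, adj i j → adj j i) (irr : ∀ i, ¬ adj i i) {P : Type*} [Group P]
    {l : List ι} (hl : Good adj l) (theta : ι → ι → P)
    (h1 : ∀ v ∈ l, ∀ w ∈ l, adj v w → theta v w * theta w v = 1)
    (h2 : ∀ u ∈ l, ∀ v ∈ l, ∀ w ∈ l, adj u v → adj v w → adj u w →
      theta u v * theta v w = theta u w) :
    ∃ K : ι → P, ∀ v ∈ l, ∀ w ∈ l, adj v w → K v = theta v w * K w := by
  classical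
  induction hl with
  | single v =>
    refine ⟨fun _ => 1, ?_⟩
    intro a ha b hb hab
    rw [List.mem_singleton] at ha hb
    rw [ha, hb] at hab
    exact absurd hab (irr v)
  | cons v l p hl hv hp hchain hmem ih =>
    obtain ⟨K, hK⟩ := ih
      (fun a ha b hb => h1 a (List.mem_cons_of_mem _ ha) b (List.mem_cons_of_mem _ hb))
      (fun a ha b hb c hc => h2 a (List.mem_cons_of_mem _ ha) b (List.mem_cons_of_mem _ hb)
        c (List.mem_cons_of_mem _ hc))
    -- the value theta v w * K w is constant along the path
    have hstep : ∀ w ∈ p, ∀ w' ∈ p, adj w w' → theta v w * K w = theta v w' * K w' := by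
      intro w hw w' hw' hww
      obtain ⟨hwl, hvw⟩ := (hmem w).1 hw
      obtain ⟨hwl', hvw'⟩ := (hmem w').1 hw'
      rw [hK w hwl w' hwl' hww, ← mul_assoc,
        h2 v List.mem_cons_self w (List.mem_cons_of_mem _ hwl) w' (List.mem_cons_of_mem _ hwl')
          hvw hww hvw']
    have hconst : ∀ q : List ι, q.IsChain adj → (∀ w ∈ q, w ∈ p) → ∀ a ∈ q, ∀ b ∈ q,
        theta v a * K a = theta v b * K b := by
      intro q
      induction q with
      | nil =>
        intro _ _ a ha
        exact absurd ha List.not_mem_nil
      | cons x q ihq =>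
        intro hc hsub
        cases q with
        | nil =>
          intro a ha b hb
          rw [List.mem_singleton] at ha hb
          rw [ha, hb]
        | cons y q =>
          rw [List.isChain_cons_cons] at hc
          have h3 := ihq hc.2 (fun w hw => hsub w (List.mem_cons_of_mem _ hw))
          have h4 : theta v x * K x = theta v y * K y :=
            hstep x (hsub x List.mem_cons_self) y
              (hsub y (List.mem_cons_of_mem _ List.mem_cons_self)) hc.1
          have h5 : ∀ a ∈ x :: y :: q, theta v a * K a = theta v y * K y := by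
            intro a ha
            rcases List.mem_cons.1 ha with ha | ha
            · rw [ha]
              exact h4
            · exact h3 a ha y List.mem_cons_self
          intro a ha b hb
          rw [h5 a ha, h5 b hb]
    obtain ⟨p1, p', rfl⟩ := List.exists_cons_of_ne_nil hp
    have hall : ∀ w ∈ p1 :: p', theta v p1 * K p1 = theta v w * K w := fun w hw =>
      hconst _ hchain (fun _ h => h) p1 List.mem_cons_self w hw
    refine ⟨Function.update K v (theta v p1 * K p1), ?_⟩
    have hne : ∀ w ∈ l, w ≠ v := fun w hw h => hv (h ▸ hw)
    intro a ha b hb hab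
    rcases List.mem_cons.1 ha with ha | ha <;> rcases List.mem_cons.1 hb with hb | hb
    · rw [ha, hb] at hab
      exact absurd hab (irr v)
    · rw [ha, Function.update_self, Function.update_of_ne (hne b hb)]
      rw [ha] at hab
      exact hall b ((hmem b).2 ⟨hb, hab⟩)
    · rw [hb, Function.update_self, Function.update_of_ne (hne a ha)]
      rw [hb] at hab
      have hab' := sym _ _ hab
      rw [hall a ((hmem a).2 ⟨ha, hab'⟩), ← mul_assoc,
        h1 a (List.mem_cons_of_mem _ ha) v List.mem_cons_self hab, one_mul]
    · rw [Function.update_of_ne (hne a ha), Function.update_of_ne (hne b hb)]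
      exact hK a ha b hb hab

theorem M1_connected (sym : ∀ i j, adj i j → adj j i) {l : List ι} (hl : Good adj l)
    (p : ι → Prop) (v0 : ι) (hv0 : v0 ∈ l) (h0 : p v0)
    (step : ∀ v ∈ l, ∀ w ∈ l, adj v w → p v → p w) : ∀ v ∈ l, p v := by
  have key : ∀ a ∈ l, ∀ b ∈ l, p a → p b := by
    clear hv0 h0 v0
    induction hl with
    | single v =>
      intro a ha b hb hpa
      rw [List.mem_singleton] at ha hb
      rw [hb, ← ha]
      exact hpa
    | cons v l q hl hv hq hchain hmem ih =>
      have ih' := ih (fun a ha b hb => step a (List.mem_cons_of_mem _ ha) b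
        (List.mem_cons_of_mem _ hb))
      obtain ⟨w, q', rfl⟩ := List.exists_cons_of_ne_nil hq
      obtain ⟨hwl, hvw⟩ := (hmem w).1 List.mem_cons_self
      have h1 : p v → p w := step v List.mem_cons_self w (List.mem_cons_of_mem _ hwl) hvw
      have h2 : p w → p v := step w (List.mem_cons_of_mem _ hwl) v List.mem_cons_self
        (sym _ _ hvw)
      intro a ha b hb hpa
      rcases List.mem_cons.1 ha with ha | ha <;> rcases List.mem_cons.1 hb with hb | hb
      · rw [hb, ← ha]
        exact hpa
      · rw [ha] at hpa
        exact ih' w hwl b hb (h1 hpa)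
      · rw [hb]
        exact h2 (ih' a ha w hwl hpa)
      · exact ih' a ha b hb hpa
  exact fun v hv => key v0 hv0 v hv h0

end NSep
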