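import Pool.Agent.Lib.MP_1beec2_gt.M1

/-!
Module M2 (one step). For x in R' \ R take l from clause b and theta v w :=
(kap w (v x))⁻¹ * kap v (w x) (writing v x for gen adj v • x). h1 is clear. h2 (triangle u, v, w):
theta u v * theta v w = theta u w follows from the cocycle relations of kap at u x, v x, w x
(all corners in R by clauses c and d):
at v x: kap u (w v x) kap w (v x) = kap w (u v x) kap u (v x), and similarly at u x and w x;
note that gens of adjacent letters commute, so u v x = v u x etc.
M1_extend gives K_x with K_x v = theta v w * K_x w, that is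
kap w (v x) * K_x v = kap v (w x) * K_x w, the square relation at x. Define
kap' i y := kap i y if y and i y are in R; K_y i if y in R' \ R; (K_(i y) i)⁻¹ if i y in R' \ R;
1 otherwise. By clause a no edge has both ends in R' \ R, by clause c a square in R' has at most
one corner in R' \ R; the relation of a square at one corner is equivalent to the relation at each
other corner (by the first relation).
-/

namespace NSep

variable {ι : Type*} {adj : ι → ι → Prop} {X : Type*} [MulAction (Racg adj) X]

theorem m2_gg (i : ι) (x : X) : gen adj i • gen adj i • x = x := by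
  rw [smul_smul, gen_mul_self, one_smul]

theorem m2_comm {i j : ι} (h : adj i j) (x : X) :
    gen adj i • gen adj j • x = gen adj j • gen adj i • x := by
  rw [smul_smul, smul_smul, gen_comm h]

theorem m2_local (sym : ∀ i j, adj i j → adj j i) (irr : ∀ i, ¬ adj i i) {P : Type*} [Group P]
    {R R' : Set X} (hs : StepOK adj R R') (kap : ι → X → P) (hk : Coc adj R kap) (x : X)
    (hx : x ∈ R') (hxR : x ∉ R) :
    ∃ K : ι → P, ∀ v w, gen adj v • x ∈ R → gen adj w • x ∈ R → adj v w →
      kap w (gen adj v • x) * K v = kap v (gen adj w • x) * K w := by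
  obtain ⟨l, hl, hmem⟩ := hs.b x hx hxR
  obtain ⟨hk1, hk2⟩ := hk
  obtain ⟨K, hK⟩ := M1_extend sym irr hl
    (fun v w => (kap w (gen adj v • x))⁻¹ * kap v (gen adj w • x)) (by
      intro v _ w _ _
      simp) (by
      intro u hu v hv w hw huv hvw huw
      have hu' : gen adj u • x ∈ R := (hmem u).1 hu
      have hv' : gen adj v • x ∈ R := (hmem v).1 hv
      have hw' : gen adj w • x ∈ R := (hmem w).1 hw
      have huv' := hs.c x hx hxR u v huv hu' hv'
      have huw' := hs.c x hx hxR u w huw hu' hw'
      have hvw' := hs.c x hx hxR v w hvw hv' hw'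
      have huvw := hs.d x hx hxR u v w huv hvw huw hu' hv' hw'
      -- the squares
      have e1 := hk2 u w (gen adj v • x) huw hv' huv' (by
        rw [← m2_comm hvw]; exact hvw') (by
        rw [← m2_comm hvw]; exact huvw)
      have e2 := hk2 v w (gen adj u • x) hvw hu' (by
        rw [← m2_comm huv]; exact huv') (by
        rw [← m2_comm huw]; exact huw') (by
        rw [← m2_comm huw, m2_comm (sym _ _ huv)]; exact huvw)
      have e3 := hk2 u v (gen adj w • x) huv hw' huw' hvw' huvw
      rw [← m2_comm hvw] at e1
      rw [← m2_comm huv, ← m2_comm huw] at e2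
      change (kap v (gen adj u • x))⁻¹ * kap u (gen adj v • x)
        * ((kap w (gen adj v • x))⁻¹ * kap v (gen adj w • x))
        = (kap w (gen adj u • x))⁻¹ * kap u (gen adj w • x)
      -- abbreviations
      generalize kap v (gen adj u • x) = a at *
      generalize kap u (gen adj v • x) = b at *
      generalize kap w (gen adj v • x) = c at *
      generalize kap v (gen adj w • x) = d at *
      generalize kap w (gen adj u • x) = e at *
      generalize kap u (gen adj w • x) = f at *
      generalize kap u (gen adj v • gen adj w • x) = g at *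
      generalize kap w (gen adj u • gen adj v • x) = h at *
      generalize kap v (gen adj u • gen adj w • x) = k at *
      -- e1 : g * c = h * b, e2 : k * e = h * a, e3 : g * d = k * f
      have f1 : b * c⁻¹ = h⁻¹ * g := by
        rw [mul_inv_eq_iff_eq_mul, mul_assoc, e1, inv_mul_cancel_left]
      have f2 : a⁻¹ * h⁻¹ = e⁻¹ * k⁻¹ := by
        rw [← mul_inv_rev, ← mul_inv_rev, e2]
      calc a⁻¹ * b * (c⁻¹ * d) = a⁻¹ * (b * c⁻¹) * d := by group
        _ = (a⁻¹ * h⁻¹) * (g * d) := by rw [f1]; group
        _ = e⁻¹ * f := by rw [f2, e3]; group)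
  refine ⟨K, ?_⟩
  intro v w hv hw hvw
  have h := hK v ((hmem v).2 hv) w ((hmem w).2 hw) hvw
  rw [h]
  group

theorem M2_step (sym : ∀ i j, adj i j → adj j i) (irr : ∀ i, ¬ adj i i) {P : Type*} [Group P]
    {R R' : Set X} (hs : StepOK adj R R') (kap : ι → X → P) (hk : Coc adj R kap) :
    ∃ kap' : ι → X → P, Coc adj R' kap' ∧
      ∀ i x, x ∈ R → gen adj i • x ∈ R → kap' i x = kap i x := by
  classical
  have hloc : ∀ x : X, ∃ K : ι → P, x ∈ R' → x ∉ R → ∀ v w, gen adj v • x ∈ R →
      gen adj w • x ∈ R → adj v w →
      kap w (gen adj v • x) * K v = kap v (gen adj w • x) * K w := by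
    intro x
    by_cases h : x ∈ R' ∧ x ∉ R
    · obtain ⟨K, hK⟩ := m2_local sym irr hs kap hk x h.1 h.2
      exact ⟨K, fun _ _ => hK⟩
    · exact ⟨fun _ => 1, fun h1 h2 => absurd ⟨h1, h2⟩ h⟩
  choose K hK using hloc
  obtain ⟨hk1, hk2⟩ := hk
  set kap' : ι → X → P := fun i y => if y ∈ R ∧ gen adj i • y ∈ R then kap i y
    else if y ∈ R then (K (gen adj i • y) i)⁻¹ else K y i with hkap'
  have v1 : ∀ i y, y ∈ R → gen adj i • y ∈ R → kap' i y = kap i y := by
    intro i y h1 h2
    rw [hkap']
    simp [h1, h2]
  have v2 : ∀ i y, y ∈ R → gen adj i • y ∉ R → kap' i y = (K (gen adj i • y) i)⁻¹ := by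
    intro i y h1 h2
    rw [hkap']
    simp [h1, h2]
  have v3 : ∀ i y, y ∉ R → kap' i y = K y i := by
    intro i y h1
    rw [hkap']
    simp [h1]
  refine ⟨kap', ⟨?_, ?_⟩, v1⟩
  · intro i x hx hix
    by_cases hxR : x ∈ R
    · by_cases hixR : gen adj i • x ∈ R
      · rw [v1 i x hxR hixR, v1 i _ hixR (by rw [m2_gg]; exact hxR)]
        exact hk1 i x hxR hixR
      · rw [v2 i x hxR hixR, v3 i _ hixR, mul_inv_cancel]
    · have hixR := hs.a x hx hxR i hix
      rw [v3 i x hxR, v2 i _ hixR (by rw [m2_gg]; exact hxR), m2_gg, inv_mul_cancel]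
  · -- the case where one neighbour is outside
    have side : ∀ i j x, adj i j → x ∈ R' → gen adj i • x ∈ R' → gen adj j • x ∈ R' →
        gen adj i • gen adj j • x ∈ R' → gen adj i • x ∉ R →
        kap' i (gen adj j • x) * kap' j x = kap' j (gen adj i • x) * kap' i x := by
      intro i j x hij hx hix hjx hijx hn
      have hx' : x ∈ R := by
        have := hs.a _ hix hn i (by rw [m2_gg]; exact hx)
        rwa [m2_gg] at this
      have hijx' : gen adj i • gen adj j • x ∈ R := by
        have := hs.a _ hix hn j (by rw [← m2_comm hij]; exact hijx)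
        rwa [← m2_comm hij] at this
      have hjx' : gen adj j • x ∈ R := by
        have := hs.c _ hix hn i j hij (by rw [m2_gg]; exact hx') (by
          rw [← m2_comm hij]; exact hijx')
        rwa [← m2_comm hij x, m2_gg] at this
      have hrel := hK (gen adj i • x) hix hn j i (by rw [← m2_comm hij]; exact hijx')
        (by rw [m2_gg]; exact hx') (sym _ _ hij)
      rw [← m2_comm hij, m2_gg] at hrel
      have hinv := hk1 i (gen adj j • x) hjx' hijx'
      rw [v1 i _ hjx' hijx', v1 j x hx' hjx', v3 j _ hn, v2 i x hx' hn]
      generalize K (gen adj i • x) j = a at *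
      generalize K (gen adj i • x) i = b at *
      generalize kap i (gen adj i • gen adj j • x) = c at *
      generalize kap i (gen adj j • x) = d at *
      generalize kap j x = e at *
      -- hrel : c * a = e * b, hinv : c * d = 1
      have h1 : d = c⁻¹ := (inv_eq_of_mul_eq_one_right hinv).symm
      rw [h1, eq_mul_inv_iff_mul_eq, mul_assoc, ← hrel, inv_mul_cancel_left]
    intro i j x hij hx hix hjx hijx
    by_cases hixR : gen adj i • x ∈ R
    · by_cases hjxR : gen adj j • x ∈ R
      · by_cases hxR : x ∈ R
        · by_cases hijxR : gen adj i • gen adj j • x ∈ R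
          · rw [v1 i _ hjxR hijxR, v1 j x hxR hjxR, v1 j _ hixR (by
              rw [← m2_comm hij]; exact hijxR), v1 i x hxR hixR]
            exact hk2 i j x hij hxR hixR hjxR hijxR
          · -- the opposite corner is outside
            have hrel := hK (gen adj i • gen adj j • x) hijx hijxR j i
              (by rw [m2_comm hij, m2_gg]; exact hixR)
              (by rw [m2_gg]; exact hjxR) (sym _ _ hij)
            rw [m2_gg, m2_comm hij, m2_gg, ← m2_comm hij] at hrel
            have hi := hk1 i x hxR hixR
            have hj := hk1 j x hxR hjxR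
            rw [v2 i _ hjxR hijxR, v1 j x hxR hjxR, v2 j _ hixR (by
              rw [← m2_comm hij]; exact hijxR), v1 i x hxR hixR, ← m2_comm hij]
            generalize K (gen adj i • gen adj j • x) j = a at *
            generalize K (gen adj i • gen adj j • x) i = b at *
            generalize kap i (gen adj i • x) = c at *
            generalize kap j (gen adj j • x) = d at *
            generalize kap i x = e at *
            generalize kap j x = f at *
            -- hrel : c * a = d * b, hi : c * e = 1, hj : d * f = 1
            have h1 : e = c⁻¹ := (inv_eq_of_mul_eq_one_right hi).symm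
            have h2 : f = d⁻¹ := (inv_eq_of_mul_eq_one_right hj).symm
            rw [h1, h2, ← mul_inv_rev, ← mul_inv_rev, hrel]
        · -- the corner x is outside
          have hrel := hK x hx hxR j i hjxR hixR (sym _ _ hij)
          have hijxR := hs.c x hx hxR i j hij hixR hjxR
          rw [v1 i _ hjxR hijxR, v3 j x hxR, v1 j _ hixR (by
            rw [← m2_comm hij]; exact hijxR), v3 i x hxR]
          exact hrel
      · have h := side j i x (sym _ _ hij) hx hjx hix (by rw [← m2_comm hij]; exact hijx) hjxR
        exact h.symm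
    · exact side i j x hij hx hix hjx hijx hixR

end NSep
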