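import Pool.Agent.Lib.MP_1beec2_gt.M2

/-!
Module M3 (limit and evaluation).
M3_limit: choose kap_0 = kap, kap_(n+1) from M2_step; put kap' i x := kap_n i x for some n with
x and i x in R n (independent of n, R is increasing).
M3_eval: a cocycle on everything gives an action of Racg adj on X × P:
gen i • (x, p) = (gen i • x, kap i x * p) (rlift to Equiv.Perm (X × P)); the action commutes with
right multiplication by P; E g x := second component of g • (x, 1).
-/

namespace NSep

variable {ι : Type*} {adj : ι → ι → Prop} {X : Type*} [MulAction (Racg adj) X]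

theorem M3_limit (sym : ∀ i j, adj i j → adj j i) (irr : ∀ i, ¬ adj i i) {P : Type*} [Group P]
    (R : ℕ → Set X) (hR : ∀ n, StepOK adj (R n) (R (n + 1))) (hU : ∀ x, ∃ n, x ∈ R n)
    (kap : ι → X → P) (hk : Coc adj (R 0) kap) :
    ∃ kap' : ι → X → P, Coc adj Set.univ kap' ∧
      ∀ i x, x ∈ R 0 → gen adj i • x ∈ R 0 → kap' i x = kap i x := by
  classical
  -- the sequence
  have hstep : ∀ (n : ℕ) (k : {k : ι → X → P // Coc adj (R n) k}),
      ∃ k' : {k : ι → X → P // Coc adj (R (n + 1)) k},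
        ∀ i x, x ∈ R n → gen adj i • x ∈ R n → k'.1 i x = k.1 i x := by
    intro n k
    obtain ⟨k', h1, h2⟩ := M2_step sym irr (hR n) k.1 k.2
    exact ⟨⟨k', h1⟩, h2⟩
  choose F hF using hstep
  let S : (n : ℕ) → {k : ι → X → P // Coc adj (R n) k} := fun n =>
    Nat.rec (motive := fun n => {k : ι → X → P // Coc adj (R n) k}) ⟨kap, hk⟩
      (fun n k => F n k) n
  have hS0 : (S 0).1 = kap := rfl
  have hS : ∀ n i x, x ∈ R n → gen adj i • x ∈ R n → (S (n + 1)).1 i x = (S n).1 i x :=
    fun n i x h1 h2 => hF n (S n) i x h1 h2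
  have hmono : ∀ m n, m ≤ n → R m ⊆ R n := by
    intro m n hmn
    induction hmn with
    | refl => exact subset_rfl
    | step _ ih => exact ih.trans (hR _).sub
  have hSm : ∀ m n, m ≤ n → ∀ i x, x ∈ R m → gen adj i • x ∈ R m →
      (S n).1 i x = (S m).1 i x := by
    intro m n hmn
    induction hmn with
    | refl => exact fun _ _ _ _ => rfl
    | step hmn ih =>
      intro i x h1 h2
      rw [hS _ i x (hmono _ _ hmn h1) (hmono _ _ hmn h2), ih i x h1 h2]
  have hN : ∀ i (x : X), ∃ n, x ∈ R n ∧ gen adj i • x ∈ R n := by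
    intro i x
    obtain ⟨a, ha⟩ := hU x
    obtain ⟨b, hb⟩ := hU (gen adj i • x)
    exact ⟨max a b, hmono _ _ (le_max_left _ _) ha, hmono _ _ (le_max_right _ _) hb⟩
  choose N hN1 hN2 using hN
  set kap' : ι → X → P := fun i x => (S (N i x)).1 i x with hkap'
  have hval : ∀ n i x, x ∈ R n → gen adj i • x ∈ R n → kap' i x = (S n).1 i x := by
    intro n i x h1 h2
    change (S (N i x)).1 i x = _
    rcases le_total (N i x) n with h | h
    · exact (hSm _ _ h i x (hN1 i x) (hN2 i x)).symm
    · exact hSm _ _ h i x h1 h2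
  refine ⟨kap', ⟨?_, ?_⟩, ?_⟩
  · intro i x _ _
    have h1 := hN1 i x
    have h2 := hN2 i x
    rw [hval _ i x h1 h2, hval _ i _ h2 (by rw [m2_gg]; exact h1)]
    exact (S (N i x)).2.1 i x h1 h2
  · intro i j x hij _ _ _ _
    obtain ⟨n, h1, h2, h3, h4⟩ : ∃ n, x ∈ R n ∧ gen adj i • x ∈ R n ∧ gen adj j • x ∈ R n ∧
        gen adj i • gen adj j • x ∈ R n := by
      obtain ⟨c, hc⟩ := hU (gen adj i • gen adj j • x)
      refine ⟨max (max (N i x) (N j x)) c, ?_, ?_, ?_, ?_⟩
      · exact hmono _ _ ((le_max_left _ _).trans (le_max_left _ _)) (hN1 i x)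
      · exact hmono _ _ ((le_max_left _ _).trans (le_max_left _ _)) (hN2 i x)
      · exact hmono _ _ ((le_max_right _ _).trans (le_max_left _ _)) (hN2 j x)
      · exact hmono _ _ (le_max_right _ _) hc
    rw [hval n i _ h3 h4, hval n j x h1 h3, hval n j _ h2 (by rw [← m2_comm hij]; exact h4),
      hval n i x h1 h2]
    exact (S n).2.2 i j x hij h1 h2 h3 h4
  · intro i x h1 h2
    rw [hval 0 i x h1 h2, hS0]

theorem M3_eval {P : Type*} [Group P] (kap : ι → X → P) (hk : Coc adj Set.univ kap) :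
    ∃ E : Racg adj → X → P, (∀ i x, E (gen adj i) x = kap i x) ∧ (∀ x, E 1 x = 1) ∧
      ∀ g h x, E (g * h) x = E g (h • x) * E h x := by
  obtain ⟨hk1, hk2⟩ := hk
  have hk1' : ∀ i x, kap i (gen adj i • x) * kap i x = 1 := fun i x =>
    hk1 i x (Set.mem_univ _) (Set.mem_univ _)
  have hk2' : ∀ i j x, adj i j → kap i (gen adj j • x) * kap j x
      = kap j (gen adj i • x) * kap i x := fun i j x hij =>
    hk2 i j x hij (Set.mem_univ _) (Set.mem_univ _) (Set.mem_univ _) (Set.mem_univ _)
  let f0 : ι → X × P → X × P := fun i z => (gen adj i • z.1, kap i z.1 * z.2)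
  have hf0 : ∀ i z, f0 i (f0 i z) = z := by
    intro i z
    refine Prod.ext ?_ ?_
    · exact m2_gg i z.1
    · change kap i (gen adj i • z.1) * (kap i z.1 * z.2) = z.2
      rw [← mul_assoc, hk1', one_mul]
  let f : ι → Equiv.Perm (X × P) := fun i => ⟨f0 i, f0 i, hf0 i, hf0 i⟩
  have hf : ∀ i z, f i z = (gen adj i • z.1, kap i z.1 * z.2) := fun i z => rfl
  let ρ : Racg adj →* Equiv.Perm (X × P) := rlift f
    (by
      intro i
      ext1 z
      exact hf0 i z)
    (by
      intro i j hij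
      ext1 z
      rw [Equiv.Perm.mul_apply, Equiv.Perm.mul_apply, hf, hf, hf, hf]
      refine Prod.ext ?_ ?_
      · exact m2_comm hij z.1
      · change kap i (gen adj j • z.1) * (kap j z.1 * z.2)
          = kap j (gen adj i • z.1) * (kap i z.1 * z.2)
        rw [← mul_assoc, ← mul_assoc, hk2' i j z.1 hij])
  have hρ : ∀ i z, ρ (gen adj i) z = (gen adj i • z.1, kap i z.1 * z.2) := by
    intro i z
    change (rlift f _ _ (gen adj i)) z = _
    rw [rlift_gen]
    rfl
  have hall : ∀ g : Racg adj, ∀ (x : X) (p : P), ρ g (x, p) = (g • x, (ρ g (x, 1)).2 * p) := by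
    intro g
    induction g using racg_induction with
    | h1 =>
      intro x p
      simp
    | h2 i g ih =>
      intro x p
      rw [map_mul, Equiv.Perm.mul_apply, Equiv.Perm.mul_apply, ih x p, ih x 1, hρ, hρ]
      simp [mul_smul, mul_assoc]
  refine ⟨fun g x => (ρ g (x, 1)).2, ?_, ?_, ?_⟩
  · intro i x
    change (ρ (gen adj i) (x, 1)).2 = _
    rw [hρ]
    simp
  · intro x
    simp
  · intro g h x
    change (ρ (g * h) (x, 1)).2 = (ρ g (h • x, 1)).2 * (ρ h (x, 1)).2
    rw [map_mul, Equiv.Perm.mul_apply, hall h x 1, hall g]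

end NSep
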