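import Pool.Agent.Lib.MP_1beec2_gt.Racg

/-!
Definitions for the combinatorial Morse theory: certificates of simple connectivity (Good),
cocycles (Coc) and one step of the extension (StepOK). Nothing to prove here.
-/

namespace NSep

/-- certificate of simple connectivity of the full subcomplex on a list of vertices: the vertices
are added one by one, and the earlier neighbours of a new vertex v form a nonempty path p -/
inductive Good {ι : Type*} (adj : ι → ι → Prop) : List ι → Prop
  | single (v : ι) : Good adj [v]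
  | cons (v : ι) (l p : List ι) : Good adj l → v ∉ l → p ≠ [] → p.IsChain adj →
      (∀ w, w ∈ p ↔ w ∈ l ∧ adj v w) → Good adj (v :: l)

/-- a set of vertices with a certificate -/
def GoodSet {ι : Type*} (adj : ι → ι → Prop) (S : Set ι) : Prop :=
  ∃ l : List ι, Good adj l ∧ ∀ v, v ∈ l ↔ v ∈ S

/-- kap is a cocycle on R: kap i x is the value of the edge from x to gen i • x -/
def Coc {ι : Type*} (adj : ι → ι → Prop) {X : Type*} [MulAction (Racg adj) X]
    {P : Type*} [Group P] (R : Set X) (kap : ι → X → P) : Prop :=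
  (∀ i x, x ∈ R → gen adj i • x ∈ R → kap i (gen adj i • x) * kap i x = 1) ∧
  (∀ i j x, adj i j → x ∈ R → gen adj i • x ∈ R → gen adj j • x ∈ R →
    gen adj i • gen adj j • x ∈ R →
    kap i (gen adj j • x) * kap j x = kap j (gen adj i • x) * kap i x)

/-- the conditions for extending cocycles from R to R' -/
structure StepOK {ι : Type*} (adj : ι → ι → Prop) {X : Type*} [MulAction (Racg adj) X]
    (R R' : Set X) : Prop where
  sub : R ⊆ R'
  a : ∀ x ∈ R', x ∉ R → ∀ i, gen adj i • x ∈ R' → gen adj i • x ∈ R
  b : ∀ x ∈ R', x ∉ R → GoodSet adj {i | gen adj i • x ∈ R}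
  c : ∀ x ∈ R', x ∉ R → ∀ i j, adj i j → gen adj i • x ∈ R → gen adj j • x ∈ R →
    gen adj i • gen adj j • x ∈ R
  d : ∀ x ∈ R', x ∉ R → ∀ i j k, adj i j → adj j k → adj i k → gen adj i • x ∈ R →
    gen adj j • x ∈ R → gen adj k • x ∈ R → gen adj i • gen adj j • gen adj k • x ∈ R

end NSep
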