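import Pool.Agent.Lib.MP_1beec2_gt.Act

/-!
Module O. The 16 certificates. ordL (in Data) lists, for each number q < 16 (bit c of q: colour c
flipped), the vertices v with epsL v + bit (colL v) of q = 1, newest first, each with the path of
its earlier neighbours (empty path for the oldest vertex). Write a Boolean check for one list
(adjacency of consecutive vertices of the path, equality of the path with the set of earlier
neighbours, no repetition), prove by induction that the check gives Good adj32 (vertices as
Fin 32 or as numbers < 32), evaluate it with decide +kernel, and translate a state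
q : Fin 5 → ZMod 2 (only its first four values matter, col_lt) to a number < 16.
-/

namespace NSep

/-- consecutive entries are adjacent -/
def Ochain : List (Fin 32) → Bool
  | [] => true
  | [_] => true
  | a :: b :: l => decide (adj32 a b) && Ochain (b :: l)

theorem Ochain_isChain : ∀ l : List (Fin 32), Ochain l = true → l.IsChain adj32
  | [], _ => List.IsChain.nil
  | [a], _ => List.IsChain.singleton a
  | a :: b :: l, h => by
    rw [Ochain, Bool.and_eq_true, decide_eq_true_eq] at h
    exact List.IsChain.cons_cons h.1 (Ochain_isChain (b :: l) h.2)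

/-- the check of one certificate -/
def Ocheck : List (Fin 32 × List (Fin 32)) → Bool
  | [] => false
  | [_] => true
  | a :: b :: l => decide (a.1 ∉ (b :: l).map Prod.fst) && decide (a.2 ≠ []) && Ochain a.2 &&
      decide (∀ w : Fin 32, w ∈ a.2 ↔ w ∈ (b :: l).map Prod.fst ∧ adj32 a.1 w) && Ocheck (b :: l)

theorem Ocheck_good : ∀ l : List (Fin 32 × List (Fin 32)), Ocheck l = true →
    Good adj32 (l.map Prod.fst)
  | [], h => by simp [Ocheck] at h
  | [a], _ => Good.single a.1
  | a :: b :: l, h => by
    rw [Ocheck] at h
    simp only [Bool.and_eq_true, decide_eq_true_eq] at h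
    obtain ⟨⟨⟨⟨h1, h2⟩, h3⟩, h4⟩, h5⟩ := h
    rw [List.map_cons]
    exact Good.cons a.1 _ a.2 (Ocheck_good (b :: l) h5) h1 h2 (Ochain_isChain _ h3) h4

/-- the certificate of a state, with entries in Fin 32 -/
def Ocert (n : ℕ) : List (Fin 32 × List (Fin 32)) :=
  (ordL.getD n []).map fun x => (Fin.ofNat 32 x.1, x.2.map (Fin.ofNat 32))

theorem O_all : ∀ a b c d : Fin 2, Ocheck (Ocert (a.val + 2 * b.val + 4 * c.val + 8 * d.val)) ∧
    ∀ v : Fin 32, v ∈ (Ocert (a.val + 2 * b.val + 4 * c.val + 8 * d.val)).map Prod.fst ↔
      eps v + (![a, b, c, d, 0] : Fin 5 → ZMod 2) (col v) = 1 := by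
  decide +kernel

theorem O_good (q : Fin 5 → ZMod 2) : GoodSet adj32 {v | eps v + q (col v) = 1} := by
  obtain ⟨h1, h2⟩ := O_all (q 0) (q 1) (q 2) (q 3)
  refine ⟨_, Ocheck_good _ h1, fun v => ?_⟩
  rw [h2 v, Set.mem_ofPred_eq]
  have h3 : (![q 0, q 1, q 2, q 3, 0] : Fin 5 → ZMod 2) (col v) = q (col v) := by
    have h4 := col_lt v
    generalize col v = c at h4
    fin_cases c
    · rfl
    · rfl
    · rfl
    · rfl
    · exact absurd rfl h4
  rw [← h3]

end NSep
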