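import Mathlib

/-!
Right-angled Coxeter groups: generators gen i, relators (gen i)^2 and the commutators of adjacent
generators. Proved basics.
-/

namespace NSep

section
variable {ι : Type*} (adj : ι → ι → Prop)

/-- the relators -/
def racgRels : Set (FreeGroup ι) :=
  {w | ∃ i, w = FreeGroup.of i * FreeGroup.of i} ∪
  {w | ∃ i j, adj i j ∧
    w = FreeGroup.of i * FreeGroup.of j * (FreeGroup.of i)⁻¹ * (FreeGroup.of j)⁻¹}

/-- the right-angled Coxeter group of the graph adj -/
abbrev Racg : Type _ := PresentedGroup (racgRels adj)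

/-- the generators -/
def gen (i : ι) : Racg adj := PresentedGroup.of i

variable {adj}

@[simp] theorem gen_mul_self (i : ι) : gen adj i * gen adj i = 1 := by
  have h : FreeGroup.of i * FreeGroup.of i ∈ racgRels adj := Or.inl ⟨i, rfl⟩
  have := PresentedGroup.one_of_mem h
  simpa [gen, PresentedGroup.of] using this

@[simp] theorem gen_inv (i : ι) : (gen adj i)⁻¹ = gen adj i :=
  inv_eq_of_mul_eq_one_left (gen_mul_self i)

@[simp] theorem gen_mul_gen_mul (i : ι) (g : Racg adj) : gen adj i * (gen adj i * g) = g := by
  rw [← mul_assoc, gen_mul_self, one_mul]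

theorem gen_comm {i j : ι} (h : adj i j) : gen adj i * gen adj j = gen adj j * gen adj i := by
  have h' : FreeGroup.of i * FreeGroup.of j * (FreeGroup.of i)⁻¹ * (FreeGroup.of j)⁻¹ ∈
      racgRels adj := Or.inr ⟨i, j, h, rfl⟩
  have := PresentedGroup.one_of_mem h'
  have h2 : gen adj i * gen adj j * (gen adj i)⁻¹ * (gen adj j)⁻¹ = 1 := by
    simpa [gen, PresentedGroup.of] using this
  rw [mul_inv_eq_one, mul_inv_eq_iff_eq_mul] at h2
  exact h2

/-- homomorphisms out of a right-angled Coxeter group -/
def rlift {G : Type*} [Group G] (f : ι → G) (h1 : ∀ i, f i * f i = 1)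
    (h2 : ∀ i j, adj i j → f i * f j = f j * f i) : Racg adj →* G :=
  PresentedGroup.toGroup (f := f) (by
    rintro w (⟨i, rfl⟩ | ⟨i, j, hij, rfl⟩)
    · simpa using h1 i
    · simp only [map_mul, FreeGroup.lift_apply_of, map_inv]
      rw [h2 i j hij]
      group)

@[simp] theorem rlift_gen {G : Type*} [Group G] (f : ι → G) (h1 : ∀ i, f i * f i = 1)
    (h2 : ∀ i j, adj i j → f i * f j = f j * f i) (i : ι) : rlift f h1 h2 (gen adj i) = f i := by
  simp [rlift, gen]

theorem racg_hom_ext {G : Type*} [Group G] {f g : Racg adj →* G}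
    (h : ∀ i, f (gen adj i) = g (gen adj i)) : f = g :=
  PresentedGroup.ext h

/-- the product of a word in the generators -/
def word (adj : ι → ι → Prop) (l : List ι) : Racg adj := (l.map (gen adj)).prod

@[simp] theorem word_nil : word adj ([] : List ι) = 1 := rfl
@[simp] theorem word_cons (i : ι) (l : List ι) : word adj (i :: l) = gen adj i * word adj l := by
  simp [word]
theorem word_append (l m : List ι) : word adj (l ++ m) = word adj l * word adj m := by
  simp [word]

theorem exists_word (g : Racg adj) : ∃ l : List ι, word adj l = g := by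
  have h : g ∈ Subgroup.closure (Set.range (PresentedGroup.of (rels := racgRels adj))) := by
    rw [PresentedGroup.closure_range_of]; trivial
  induction h using Subgroup.closure_induction_left with
  | one => exact ⟨[], rfl⟩
  | mul_left x hx y _ ih =>
    obtain ⟨i, rfl⟩ := hx
    obtain ⟨l, rfl⟩ := ih
    exact ⟨i :: l, by simp [gen]⟩
  | inv_mul_cancel x hx y _ ih =>
    obtain ⟨i, rfl⟩ := hx
    obtain ⟨l, rfl⟩ := ih
    refine ⟨i :: l, ?_⟩
    have := gen_inv (adj := adj) i
    rw [word_cons, ← gen_inv i]; rfl

/-- induction on the word length from the left -/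
theorem racg_induction {p : Racg adj → Prop} (h1 : p 1)
    (h2 : ∀ i g, p g → p (gen adj i * g)) (g : Racg adj) : p g := by
  obtain ⟨l, rfl⟩ := exists_word g
  induction l with
  | nil => simpa using h1
  | cons i l ih => rw [word_cons]; exact h2 _ _ ih

end

end NSep
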