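import Pool.Agent.Lib.MP_1beec2_gt.WordsDefs

/-!
Module W1. Induction on u. Empty word: hB. Step u = w :: u':
if v, w are not adjacent (and v ≠ w), then front w u' and red u' give word u' * h ∈ Pp w, so
gen w * (word u' * h) ∈ Pm w (flip1), hence in Pp v (far).
If v, w are adjacent, then front v u' gives word u' * h ∈ Pp v, and comm gives the claim.
(far and comm are used with the symmetry of adj.)
-/

namespace NSep

variable {ι : Type*} {adj : ι → ι → Prop}

theorem W1_word_mem (sym : ∀ i j, adj i j → adj j i) {Pp Pm : ι → Set (Racg adj)}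
    (hP : PreHalf adj Pp Pm) (e : ι → Prop) (B : Set (Racg adj))
    (hB : ∀ v, e v → ∀ h ∈ B, h ∈ Pp v) :
    ∀ u : List ι, red adj e u → ∀ v, front adj e v u → ∀ h ∈ B, word adj u * h ∈ Pp v := by
  intro u
  induction u with
  | nil =>
    intro _ v hv h hh
    simpa using hB v hv h hh
  | cons w u ih =>
    rintro ⟨hw, hu⟩ v ⟨hne, hv⟩ h hh
    rw [word_cons, mul_assoc]
    by_cases ha : adj v w
    · exact hP.comm v w _ ha (ih hu v (hv ha) h hh)
    · exact hP.far w v _ (fun h => ha (sym _ _ h)) hne (hP.flip1 w _ (ih hu w hw h hh))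

end NSep
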